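import Pool.Agent.H550R2.Cl.Graph
import Pool.Agent.H550R2.Lift.SymG

set_option autoImplicit false
set_option linter.unusedSectionVars false

/-! A symmetric linear program for cliques of a given size. -/

namespace Pool.Agent.H550R2.Cl

open Finset Matrix Pool.Agent.H550R2.Lift

/-- the linear program for cliques with `m` vertices -/
def cliqueLP (W : Type) [Fintype W] [DecidableEq W] (m : ℕ) :
    SDP (Sym2 W) ((Fin m ↪ W) × Option (Fin m × Fin m)) where
  L :=
    { carrier := {q | (∀ d d', d ≠ d' → q.2 d d' = 0) ∧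
        (∑ f : Fin m ↪ W, q.2 (f, none) (f, none) = 1) ∧
        ∀ f i j, i ≠ j → q.2 (f, some (i, j)) (f, some (i, j)) + q.2 (f, none) (f, none) =
          q.1 s(f i, f j)}
      smul_vsub_vadd_mem' := by
        rintro c p1 p2 p3 ⟨h1, h1', h1''⟩ ⟨h2, h2', h2''⟩ ⟨h3, h3', h3''⟩
        refine ⟨?_, ?_, ?_⟩
        · intro d d' hne
          show c * (p1.2 d d' - p2.2 d d') + p3.2 d d' = 0
          rw [h1 d d' hne, h2 d d' hne, h3 d d' hne]
          ring
        · show ∑ f : Fin m ↪ W, (c * (p1.2 (f, none) (f, none) - p2.2 (f, none) (f, none)) +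
            p3.2 (f, none) (f, none)) = 1
          rw [Finset.sum_add_distrib, ← Finset.mul_sum, Finset.sum_sub_distrib, h1', h2', h3']
          ring
        · intro f i j hne
          show c * (p1.2 (f, some (i, j)) (f, some (i, j)) -
              p2.2 (f, some (i, j)) (f, some (i, j))) + p3.2 (f, some (i, j)) (f, some (i, j)) +
            (c * (p1.2 (f, none) (f, none) - p2.2 (f, none) (f, none)) +
              p3.2 (f, none) (f, none)) =
            c * (p1.1 s(f i, f j) - p2.1 s(f i, f j)) + p3.1 s(f i, f j)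
          rw [← h1'' f i j hne, ← h2'' f i j hne, ← h3'' f i j hne]
          ring }

variable {W : Type} [Fintype W] [DecidableEq W] {m : ℕ}

theorem gvec_nonneg (G : SimpleGraph W) (e : Sym2 W) : 0 ≤ gvec G e := by
  unfold gvec ind
  exact Set.indicator_nonneg (fun _ _ => zero_le_one) _

theorem gvec_adj {G : SimpleGraph W} {u v : W} (h : G.Adj u v) : gvec G s(u, v) = 1 := by
  unfold gvec ind
  rw [Set.indicator_of_mem (G.mem_edgeSet.2 h)]
  rfl

theorem cliqueLP_acc (G : SimpleGraph W) :
    (cliqueLP W m).Acc (gvec G) ↔ ∃ f : Fin m ↪ W, ∀ i j, i ≠ j → G.Adj (f i) (f j) := by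
  classical
  constructor
  · rintro ⟨Y, hY, h1, h2, h3⟩
    have hdiag : ∀ d, 0 ≤ Y d d := fun d => hY.diag_nonneg
    have hex : ∃ f : Fin m ↪ W, Y (f, none) (f, none) ≠ 0 := by
      by_contra hn
      rw [not_exists] at hn
      have h4 : ∑ f : Fin m ↪ W, Y (f, none) (f, none) = 0 :=
        Finset.sum_eq_zero fun f _ => not_not.1 (hn f)
      have h5 : ∑ f : Fin m ↪ W, Y (f, none) (f, none) = 1 := h2
      rw [h4] at h5
      exact zero_ne_one h5
    obtain ⟨f, hf⟩ := hex
    refine ⟨f, fun i j hne => ?_⟩
    by_contra hadj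
    have h4 : gvec G s(f i, f j) = 0 := by
      unfold gvec ind
      rw [Set.indicator_of_notMem]
      rw [SimpleGraph.mem_edgeSet]
      exact hadj
    have h5 : Y (f, some (i, j)) (f, some (i, j)) + Y (f, none) (f, none) =
      gvec G s(f i, f j) := h3 f i j hne
    rw [h4] at h5
    have h6 := hdiag (f, some (i, j))
    have h7 := hdiag (f, none)
    apply hf
    linarith
  · rintro ⟨f0, h0⟩
    let y : (Fin m ↪ W) × Option (Fin m × Fin m) → ℝ := fun d =>
      match d.2 with
      | none => if d.1 = f0 then 1 else 0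
      | some ij => gvec G s(d.1 ij.1, d.1 ij.2) -
        (if d.1 = f0 ∧ ij.1 ≠ ij.2 then 1 else 0)
    refine ⟨Matrix.diagonal y, ?_, ?_, ?_, ?_⟩
    · apply Matrix.PosSemidef.diagonal
      rintro ⟨f, o⟩
      cases o with
      | none =>
        show 0 ≤ if f = f0 then (1 : ℝ) else 0
        split_ifs <;> norm_num
      | some ij =>
        show 0 ≤ gvec G s(f ij.1, f ij.2) - (if f = f0 ∧ ij.1 ≠ ij.2 then (1 : ℝ) else 0)
        by_cases h : f = f0 ∧ ij.1 ≠ ij.2
        · rw [if_pos h, h.1, gvec_adj (h0 _ _ h.2)]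
          norm_num
        · rw [if_neg h, sub_zero]
          exact gvec_nonneg G _
    · intro d d' hne
      exact Matrix.diagonal_apply_ne _ hne
    · show ∑ f : Fin m ↪ W, Matrix.diagonal y (f, none) (f, none) = 1
      have h1 : ∀ f : Fin m ↪ W, Matrix.diagonal y (f, none) (f, none) =
          if f = f0 then 1 else 0 := by
        intro f
        rw [Matrix.diagonal_apply_eq]
      rw [Finset.sum_congr rfl (fun f _ => h1 f), Finset.sum_ite_eq', if_pos (Finset.mem_univ _)]
    · intro f i j hne
      show Matrix.diagonal y (f, some (i, j)) (f, some (i, j)) +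
        Matrix.diagonal y (f, none) (f, none) = gvec G s(f i, f j)
      rw [Matrix.diagonal_apply_eq, Matrix.diagonal_apply_eq]
      show gvec G s(f i, f j) - (if f = f0 ∧ i ≠ j then (1 : ℝ) else 0) +
        (if f = f0 then 1 else 0) = gvec G s(f i, f j)
      by_cases h : f = f0
      · rw [if_pos ⟨h, hne⟩, if_pos h]
        ring
      · rw [if_neg (fun h' => h h'.1), if_neg h]
        ring

theorem cliqueLP_sym (p : Equiv.Perm W) : ∃ O, (cliqueLP W m).IsAut (edPerm p) O := by
  classical
  let σ : Equiv.Perm ((Fin m ↪ W) × Option (Fin m × Fin m)) :=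
    Equiv.prodCongr
      { toFun := fun f => f.trans p.symm.toEmbedding
        invFun := fun f => f.trans p.toEmbedding
        left_inv := by
          intro f
          ext i
          show p (p.symm (f i)) = f i
          rw [Equiv.apply_symm_apply]
        right_inv := by
          intro f
          ext i
          show p.symm (p (f i)) = f i
          rw [Equiv.symm_apply_apply] } (Equiv.refl _)
  refine ⟨pm σ, pm_orth σ, ?_⟩
  intro v Y
  rw [pm_conj]
  have hσ : ∀ f o, σ (f, o) = (f.trans p.symm.toEmbedding, o) := fun f o => rfl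
  have hsum : ∑ f : Fin m ↪ W, Y (f.trans p.symm.toEmbedding, none)
      (f.trans p.symm.toEmbedding, none) = ∑ f : Fin m ↪ W, Y (f, none) (f, none) :=
    Equiv.sum_comp (⟨fun f => f.trans p.symm.toEmbedding, fun f => f.trans p.toEmbedding, by
      intro f
      ext i
      show p (p.symm (f i)) = f i
      rw [Equiv.apply_symm_apply], by
      intro f
      ext i
      show p.symm (p (f i)) = f i
      rw [Equiv.symm_apply_apply]⟩ : Equiv.Perm (Fin m ↪ W)) (fun f => Y (f, none) (f, none))
  constructor
  · rintro ⟨h1, h2, h3⟩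
    refine ⟨?_, ?_, ?_⟩
    · intro d d' hne
      exact h1 _ _ (fun h => hne (σ.injective h))
    · show ∑ f : Fin m ↪ W, Y (f.trans p.symm.toEmbedding, none)
        (f.trans p.symm.toEmbedding, none) = 1
      rw [hsum]
      exact h2
    · intro f i j hne
      exact h3 (f.trans p.symm.toEmbedding) i j hne
  · rintro ⟨h1, h2, h3⟩
    refine ⟨?_, ?_, ?_⟩
    · intro d d' hne
      have := h1 (σ.symm d) (σ.symm d') (fun h => hne (σ.symm.injective h))
      have h4 : Y (σ (σ.symm d)) (σ (σ.symm d')) = 0 := this
      rwa [Equiv.apply_symm_apply, Equiv.apply_symm_apply] at h4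
    · show ∑ f : Fin m ↪ W, Y (f, none) (f, none) = 1
      rw [← hsum]
      exact h2
    · intro f i j hne
      have h4 := h3 (f.trans p.toEmbedding) i j hne
      have h5 : (f.trans p.toEmbedding).trans p.symm.toEmbedding = f := by
        ext i
        show p.symm (p (f i)) = f i
        rw [Equiv.symm_apply_apply]
      have h6 : Y ((f.trans p.toEmbedding).trans p.symm.toEmbedding, some (i, j))
          ((f.trans p.toEmbedding).trans p.symm.toEmbedding, some (i, j)) +
          Y ((f.trans p.toEmbedding).trans p.symm.toEmbedding, none)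
          ((f.trans p.toEmbedding).trans p.symm.toEmbedding, none) =
          v s(p.symm (p (f i)), p.symm (p (f j))) := h4
      rw [h5, Equiv.symm_apply_apply, Equiv.symm_apply_apply] at h6
      exact h6

theorem clique_iff (G : SimpleGraph W) :
    (∃ f : Fin m ↪ W, ∀ i j, i ≠ j → G.Adj (f i) (f j)) ↔ m ≤ G.cliqueNum := by
  classical
  constructor
  · rintro ⟨f, hf⟩
    have h1 : G.IsClique ((univ.map f : Finset W) : Set W) := by
      intro u hu v hv hne
      rw [Finset.mem_coe, Finset.mem_map] at hu hv
      obtain ⟨i, -, rfl⟩ := hu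
      obtain ⟨j, -, rfl⟩ := hv
      exact hf i j (fun h => hne (by rw [h]))
    have h2 := h1.card_le_cliqueNum
    rwa [Finset.card_map, Finset.card_univ, Fintype.card_fin] at h2
  · intro h
    obtain ⟨S, hS⟩ := G.exists_isNClique_cliqueNum
    have hc : m ≤ S.card := by
      rw [hS.card_eq]
      exact h
    obtain ⟨S', hS', hc'⟩ := Finset.exists_subset_card_eq hc
    let f : Fin m ↪ W := (S'.equivFinOfCardEq hc').symm.toEmbedding.trans
      (Function.Embedding.subtype _)
    refine ⟨f, fun i j hne => ?_⟩
    have hmem : ∀ i, f i ∈ S := fun i => hS' ((S'.equivFinOfCardEq hc').symm i).2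
    exact hS.isClique (hmem i) (hmem j) (fun h => hne (f.injective h))

/-- **A small symmetric linear program for cliques.** -/
theorem clique_upper (W : Type) [Fintype W] [DecidableEq W] (m : ℕ) :
    ∃ (D : Type) (_ : Fintype D) (_ : DecidableEq D) (P : SDP (Sym2 W) D),
      Fintype.card D ≤ (m ^ 2 + 1) * Fintype.card W ^ m ∧
      (∀ p : Equiv.Perm W, ∃ O, P.IsAut (edPerm p) O) ∧
      ∀ G : SimpleGraph W, P.Acc (gvec G) ↔ m ≤ G.cliqueNum := by
  classical
  refine ⟨(Fin m ↪ W) × Option (Fin m × Fin m), inferInstance, inferInstance, cliqueLP W m,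
    ?_, cliqueLP_sym, fun G => ?_⟩
  · rw [Fintype.card_prod, Fintype.card_option, Fintype.card_prod, Fintype.card_fin,
      Fintype.card_embedding_eq, Fintype.card_fin, mul_comm]
    apply Nat.mul_le_mul
    · rw [sq]
    · exact Nat.descFactorial_le_pow _ _
  · rw [cliqueLP_acc, clique_iff]

end Pool.Agent.H550R2.Cl
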