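import Pool.Agent.H550R2.Cl.UnivK
import Pool.Agent.H550R2.Cl.Upper

set_option autoImplicit false
set_option linter.unusedSectionVars false

/-! Adaptive algorithms with symmetric semidefinite programs for cliques. -/

namespace Pool.Agent.H550R2.Cl

open Finset Pool.Agent.H550R2.Lift

/-- Adaptive algorithms for graphs whose vertices are divided into `k` blocks of `2 ^ b` vertices:
`mark i` declares that the programs run later need not treat block `i` symmetrically; `test` runs
a semidefinite program of order `d` on the graph. -/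
inductive AlgK (k b : ℕ) : Type
  | out (r : Bool) : AlgK k b
  | mark (i : Fin k) (t : AlgK k b) : AlgK k b
  | test (d : ℕ) (P : SDP (Sym2 (Fin k × (Fin b → ZMod 2))) (Fin d)) (no yes : AlgK k b) : AlgK k b

open Classical in
/-- The answer of the algorithm on the graph. -/
noncomputable def AlgK.run {k b : ℕ} (G : SimpleGraph (Fin k × (Fin b → ZMod 2))) :
    AlgK k b → Bool
  | .out r => r
  | .mark _ t => t.run G
  | .test _ P no yes => if P.Acc (ind G.edgeSet) then yes.run G else no.run G

/-- Every program has order at most `N` and is symmetric under all permutations of the vertices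
inside the blocks not marked before; at most `d` blocks are marked on each path (the set `M`
contains the blocks marked so far). -/
def AlgK.Ok {k b : ℕ} (N d : ℕ) : Finset (Fin k) → AlgK k b → Prop
  | M, .out _ => M.card ≤ d
  | M, .mark i t => t.Ok N d (insert i M)
  | M, .test e P no yes => e ≤ N ∧ SymK M P ∧ no.Ok N d M ∧ yes.Ok N d M

open Classical in
/-- **The two graphs lead to the same answers.** -/
theorem AlgK.count {k b N d : ℕ} (G₀ G₁ : SimpleGraph (Fin k × (Fin b → ZMod 2)))
    (y : Finset (Fin k) → (Fin k × Fin b → ZMod 2))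
    (hy : ∀ M : Finset (Fin k), M.card ≤ d → ∀ (γ : Fin k × Fin b → ZMod 2) (e : ℕ)
      (P : SDP (Sym2 (Fin k × (Fin b → ZMod 2))) (Fin e)), SymK M P → e ≤ N →
      (P.Acc (ind (G₀.comap (trk γ)).edgeSet) ↔
        P.Acc (ind (G₁.comap (trk (γ + y M))).edgeSet))) (t : AlgK k b) :
    ∀ (M : Finset (Fin k)) (S₀ S₁ : Finset (Fin k × Fin b → ZMod 2)), t.Ok N d M →
      (∀ M', M ⊆ M' → M'.card ≤ d → ∀ γ, γ ∈ S₀ ↔ γ + y M' ∈ S₁) →
      (S₀.filter fun γ => t.run (G₀.comap (trk γ)) = true).card =
      (S₁.filter fun γ => t.run (G₁.comap (trk γ)) = true).card := by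
  induction t with
  | out r =>
    intro M S₀ S₁ hok hS
    cases r
    · rw [Finset.filter_false_of_mem, Finset.filter_false_of_mem]
      · intro a _ h
        have h1 : (false : Bool) = true := h
        exact absurd h1 (by decide)
      · intro a _ h
        have h1 : (false : Bool) = true := h
        exact absurd h1 (by decide)
    · have e0 : (S₀.filter fun γ => (AlgK.out true).run (G₀.comap (trk γ)) = true) = S₀ :=
        Finset.filter_true_of_mem fun _ _ => rfl
      have e1 : (S₁.filter fun γ => (AlgK.out true).run (G₁.comap (trk γ)) = true) = S₁ :=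
        Finset.filter_true_of_mem fun _ _ => rfl
      rw [e0, e1]
      have h1 := hS M (Finset.Subset.refl M) hok
      refine Finset.card_bij (fun a _ => a + y M) (fun a ha => (h1 a).1 ha) ?_ ?_
      · intro a _ a' _ h
        exact add_right_cancel h
      · intro a ha
        refine ⟨a + y M, ?_, ?_⟩
        · rw [h1]
          have h2 : a + y M + y M = a := by
            ext v
            simp only [Pi.add_apply]
            have := CharTwo.add_self_eq_zero (y M v)
            linear_combination this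
          rw [h2]
          exact ha
        · ext v
          simp only [Pi.add_apply]
          have := CharTwo.add_self_eq_zero (y M v)
          linear_combination this
  | mark i t ih =>
    intro M S₀ S₁ hok hS
    exact ih (insert i M) S₀ S₁ hok fun M' hM' => hS M' ((Finset.subset_insert i M).trans hM')
  | test e P no yes h0 h1 =>
    intro M S₀ S₁ hok hS
    obtain ⟨he, hP, hno, hyes⟩ := hok
    have key : ∀ (S : Finset (Fin k × Fin b → ZMod 2))
        (G : SimpleGraph (Fin k × (Fin b → ZMod 2))),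
        (S.filter fun γ => (AlgK.test e P no yes).run (G.comap (trk γ)) = true).card =
        ((S.filter fun γ => P.Acc (ind (G.comap (trk γ)).edgeSet)).filter
          fun γ => yes.run (G.comap (trk γ)) = true).card +
        ((S.filter fun γ => ¬ P.Acc (ind (G.comap (trk γ)).edgeSet)).filter
          fun γ => no.run (G.comap (trk γ)) = true).card := by
      intro S G
      rw [Finset.filter_filter, Finset.filter_filter, ← Finset.card_union_of_disjoint]
      · congr 1
        ext γ
        rw [Finset.mem_union, Finset.mem_filter, Finset.mem_filter, Finset.mem_filter]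
        by_cases h : P.Acc (ind (G.comap (trk γ)).edgeSet)
        · have h2 : (AlgK.test e P no yes).run (G.comap (trk γ)) =
              yes.run (G.comap (trk γ)) := if_pos h
          rw [h2]
          tauto
        · have h2 : (AlgK.test e P no yes).run (G.comap (trk γ)) =
              no.run (G.comap (trk γ)) := if_neg h
          rw [h2]
          tauto
      · rw [Finset.disjoint_left]
        intro a h2 h3
        exact (Finset.mem_filter.1 h3).2.1 (Finset.mem_filter.1 h2).2.1
    rw [key, key]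
    congr 1
    · apply h1 M _ _ hyes
      intro M' hM' hM'd γ
      rw [Finset.mem_filter, Finset.mem_filter, ← hS M' hM' hM'd γ,
        hy M' hM'd γ e P (hP.mono hM') he]
    · apply h0 M _ _ hno
      intro M' hM' hM'd γ
      rw [Finset.mem_filter, Finset.mem_filter, ← hS M' hM' hM'd γ,
        hy M' hM'd γ e P (hP.mono hM') he]

/-- A random algorithm: a finite probability space of algorithms. -/
structure RAlgK (k b : ℕ) where
  /-- the outcomes of the coin tosses -/
  Ω : Type
  finΩ : Fintype Ω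
  /-- their probabilities -/
  p : Ω → ℝ
  p_nonneg : ∀ ω, 0 ≤ p ω
  p_sum : ∑ ω, p ω = 1
  /-- the algorithms -/
  alg : Ω → AlgK k b

attribute [instance] RAlgK.finΩ

/-- The probability that the graph is accepted. -/
noncomputable def RAlgK.acc {k b : ℕ} (R : RAlgK k b)
    (G : SimpleGraph (Fin k × (Fin b → ZMod 2))) : ℝ :=
  ∑ ω, R.p ω * (if (R.alg ω).run G = true then 1 else 0)

/-- equal averages -/
theorem RAlgK.avg {k b N d : ℕ} (G₀ G₁ : SimpleGraph (Fin k × (Fin b → ZMod 2)))
    (y : Finset (Fin k) → (Fin k × Fin b → ZMod 2))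
    (hy : ∀ M : Finset (Fin k), M.card ≤ d → ∀ (γ : Fin k × Fin b → ZMod 2) (e : ℕ)
      (P : SDP (Sym2 (Fin k × (Fin b → ZMod 2))) (Fin e)), SymK M P → e ≤ N →
      (P.Acc (ind (G₀.comap (trk γ)).edgeSet) ↔
        P.Acc (ind (G₁.comap (trk (γ + y M))).edgeSet))) (R : RAlgK k b)
    (hR : ∀ ω, (R.alg ω).Ok N d ∅) :
    ∑ γ : Fin k × Fin b → ZMod 2, R.acc (G₀.comap (trk γ)) =
      ∑ γ : Fin k × Fin b → ZMod 2, R.acc (G₁.comap (trk γ)) := by
  classical
  unfold RAlgK.acc
  rw [Finset.sum_comm]
  conv_rhs => rw [Finset.sum_comm]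
  apply Finset.sum_congr rfl
  intro ω _
  rw [← Finset.mul_sum, ← Finset.mul_sum]
  congr 1
  have h1 := (R.alg ω).count G₀ G₁ y hy ∅ univ univ (hR ω)
    (fun _ _ _ _ => ⟨fun _ => Finset.mem_univ _, fun _ => Finset.mem_univ _⟩)
  rw [Finset.card_filter, Finset.card_filter] at h1
  have h2 : ((∑ γ : Fin k × Fin b → ZMod 2,
      (if (R.alg ω).run (G₀.comap (trk γ)) = true then 1 else 0) : ℕ) : ℝ) =
      ((∑ γ : Fin k × Fin b → ZMod 2,
      (if (R.alg ω).run (G₁.comap (trk γ)) = true then 1 else 0) : ℕ) : ℝ) := by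
    rw [h1]
  push_cast at h2
  exact h2

theorem comap_cliqueNum {k b : ℕ} (G : SimpleGraph (Fin k × (Fin b → ZMod 2)))
    (γ : Fin k × Fin b → ZMod 2) : (G.comap (trk γ)).cliqueNum = G.cliqueNum := by
  classical
  have h : ∀ (G : SimpleGraph (Fin k × (Fin b → ZMod 2))) (γ : Fin k × Fin b → ZMod 2),
      (G.comap (trk γ)).cliqueNum ≤ G.cliqueNum := by
    intro G γ
    obtain ⟨S, hS⟩ := (G.comap (trk γ)).exists_isNClique_cliqueNum
    have h1 : G.IsClique (S.image (trk γ)) := by
      intro v hv w hw hne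
      rw [Finset.mem_coe, Finset.mem_image] at hv hw
      obtain ⟨v', hv', rfl⟩ := hv
      obtain ⟨w', hw', rfl⟩ := hw
      exact hS.isClique hv' hw' (fun h => hne (by rw [h]))
    have h2 := h1.card_le_cliqueNum
    rw [Finset.card_image_of_injective _ (trk γ).injective, hS.card_eq] at h2
    exact h2
  refine le_antisymm (h G γ) ?_
  have h1 := h (G.comap (trk γ)) γ
  have h2 : (G.comap (trk γ)).comap (trk γ) = G := by
    ext u w
    show G.Adj (trk γ (trk γ u)) (trk γ (trk γ w)) ↔ G.Adj u w
    have h3 : ∀ u, trk γ (trk γ u) = u := by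
      intro u
      rw [← Equiv.Perm.mul_apply, ← trk_add]
      have h4 : γ + γ = 0 := by
        ext x
        exact CharTwo.add_self_eq_zero _
      rw [h4]
      show (u.1, u.2 + fun _ => (0 : ZMod 2)) = u
      apply Prod.ext
      · rfl
      · exact add_zero _
    rw [h3, h3]
  rwa [h2] at h1

/-- **Symmetric algorithms do not see the cliques.** -/
theorem algK_lower (ε : ℝ) (hε : 0 < ε) : ∃ C : ℕ, 0 < C ∧ ∀ k b : ℕ, C ≤ k → C ≤ b →
    ∃ G₀ G₁ : SimpleGraph (Fin k × (Fin b → ZMod 2)), k ≤ G₀.cliqueNum ∧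
      (G₁.cliqueNum : ℝ) ≤ ε * k ∧
      (∀ M : Finset (Fin k), M.card ≤ k / C → ∃ y : Fin k × Fin b → ZMod 2,
        (∀ x, x.1 ∉ M → y x = 0) ∧ ∀ (γ : Fin k × Fin b → ZMod 2) (D : Type) [Fintype D]
          [DecidableEq D] (P : SDP (Sym2 (Fin k × (Fin b → ZMod 2))) D), SymK M P →
          Fintype.card D ≤ 2 ^ (k * b / C) →
          (P.Acc (ind (G₀.comap (trk γ)).edgeSet) ↔
            P.Acc (ind (G₁.comap (trk (γ + y))).edgeSet))) ∧
      ∀ R : RAlgK k b, (∀ ω, (R.alg ω).Ok (2 ^ (k * b / C)) (k / C) ∅) →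
        ∑ γ : Fin k × Fin b → ZMod 2, R.acc (G₀.comap (trk γ)) =
          ∑ γ : Fin k × Fin b → ZMod 2, R.acc (G₁.comap (trk γ)) := by
  obtain ⟨C, hC0, hC⟩ := clique_univ ε hε
  refine ⟨C, hC0, fun k b hk hb => ?_⟩
  obtain ⟨G₀, G₁, h1, h2, h3⟩ := hC k b hk hb
  refine ⟨G₀, G₁, h1, h2, h3, fun R hR => ?_⟩
  choose! y hy1 hy2 using h3
  refine RAlgK.avg G₀ G₁ y (fun M hM γ e P hP he => ?_) R hR
  exact hy2 M hM γ (Fin e) P hP (by rw [Fintype.card_fin]; exact he)

/-- hence the error is at least one half on some graph -/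
theorem algK_err (ε : ℝ) (hε : 0 < ε) : ∃ C : ℕ, 0 < C ∧ ∀ k b : ℕ, C ≤ k → C ≤ b →
    ∀ R : RAlgK k b, (∀ ω, (R.alg ω).Ok (2 ^ (k * b / C)) (k / C) ∅) →
      (∃ G H : SimpleGraph (Fin k × (Fin b → ZMod 2)), k ≤ G.cliqueNum ∧
        (H.cliqueNum : ℝ) ≤ ε * k ∧ R.acc G ≤ R.acc H) ∧
      (∃ G H : SimpleGraph (Fin k × (Fin b → ZMod 2)), k ≤ G.cliqueNum ∧
        (H.cliqueNum : ℝ) ≤ ε * k ∧ R.acc H ≤ R.acc G) := by
  obtain ⟨C, hC0, hC⟩ := algK_lower ε hε
  refine ⟨C, hC0, fun k b hk hb R hR => ?_⟩
  obtain ⟨G₀, G₁, h1, h2, -, h3⟩ := hC k b hk hb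
  have h6 := h3 R hR
  constructor
  · by_contra hno
    have h7 : ∑ γ : Fin k × Fin b → ZMod 2, R.acc (G₁.comap (trk γ)) <
        ∑ γ : Fin k × Fin b → ZMod 2, R.acc (G₀.comap (trk γ)) := by
      apply Finset.sum_lt_sum_of_nonempty ⟨0, Finset.mem_univ _⟩
      intro γ _
      by_contra h8
      exact hno ⟨G₀.comap (trk γ), G₁.comap (trk γ), by rw [comap_cliqueNum]; exact h1,
        by rw [comap_cliqueNum]; exact h2, not_lt.1 h8⟩
    exact absurd h6 (ne_of_gt h7)
  · by_contra hno
    have h7 : ∑ γ : Fin k × Fin b → ZMod 2, R.acc (G₀.comap (trk γ)) <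
        ∑ γ : Fin k × Fin b → ZMod 2, R.acc (G₁.comap (trk γ)) := by
      apply Finset.sum_lt_sum_of_nonempty ⟨0, Finset.mem_univ _⟩
      intro γ _
      by_contra h8
      exact hno ⟨G₀.comap (trk γ), G₁.comap (trk γ), by rw [comap_cliqueNum]; exact h1,
        by rw [comap_cliqueNum]; exact h2, not_lt.1 h8⟩
    exact absurd h6 (ne_of_lt h7)

end Pool.Agent.H550R2.Cl
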