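import Pool.Agent.H550R2.Cl.Main

set_option autoImplicit false
set_option linter.unusedSectionVars false

/-! The parameterized clique problem and semidefinite programs that are symmetric under
translations. -/

namespace Pool.Agent.H550R2.Cl

open Finset Pool.Agent.H550R2.Lift
open Pool.Agent.H550R2.Neg (RSDP acc_close)

/-- The random program tells graphs of clique number at least `K` from graphs of clique number at
most `k`, with error at most `1 / 3`: it accepts the former and rejects the latter, or the other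
way around. -/
def SepClique {W : Type} (R : RSDP (Sym2 W)) (K k : ℝ) : Prop :=
  (∀ G : SimpleGraph W, (K ≤ G.cliqueNum → 2 / 3 ≤ R.acc G.edgeSet) ∧
    ((G.cliqueNum : ℝ) ≤ k → R.acc G.edgeSet ≤ 1 / 3)) ∨
  ∀ G : SimpleGraph W, (K ≤ G.cliqueNum → R.acc G.edgeSet ≤ 1 / 3) ∧
    ((G.cliqueNum : ℝ) ≤ k → 2 / 3 ≤ R.acc G.edgeSet)

theorem sep_false {W : Type} {R : RSDP (Sym2 W)} {K k : ℝ} (h : SepClique R K k)
    (G G' : SimpleGraph W) (hG : K ≤ G.cliqueNum) (hG' : (G'.cliqueNum : ℝ) ≤ k)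
    (h1 : R.acc G.edgeSet ≤ R.acc G'.edgeSet + 3 / 10)
    (h2 : R.acc G'.edgeSet ≤ R.acc G.edgeSet + 3 / 10) : False := by
  rcases h with h | h
  · have h3 := (h G).1 hG
    have h4 := (h G').2 hG'
    linarith
  · have h3 := (h G).1 hG
    have h4 := (h G').2 hG'
    linarith

theorem two_pow_ge (a : ℕ) (ha : 3 ≤ a) : 2 * a + 2 ≤ 2 ^ a := by
  induction a, ha using Nat.le_induction with
  | base => norm_num
  | succ n hn ih =>
    rw [pow_succ]
    omega

/-- **The gap version of the parameterized clique problem.** -/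
theorem par_lower (ε : ℝ) (hε : 0 < ε) : ∃ C : ℕ, 0 < C ∧ ∀ (k b : ℕ), C ≤ k → C ≤ b →
    ∀ (W : Type) [Fintype W] (blk : Fin k × (Fin b → ZMod 2) ↪ W) (R : RSDP (Sym2 W)),
    TransSym R blk → SepClique R k (ε * k) →
    ∀ N : ℕ, (∀ ω, Fintype.card (R.D ω) ≤ N) → 2 ^ (k * b / C) ≤ N := by
  classical
  obtain ⟨a, ha3, haε⟩ : ∃ a : ℕ, 3 ≤ a ∧ 4 / ε ≤ a :=
    ⟨max 3 ⌈4 / ε⌉₊, le_max_left _ _, (Nat.le_ceil _).trans (by exact_mod_cast le_max_right _ _)⟩
  have hKa := two_pow_ge a ha3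
  set K : ℕ := 2 ^ a - 1 with hK
  have hKa' : a + 1 ≤ K - a := by omega
  have hKε : 4 ≤ ((K - a : ℕ) : ℝ) * ε := by
    have h1 : (a : ℝ) ≤ ((K - a : ℕ) : ℝ) := by
      exact_mod_cast (by omega : a ≤ K - a)
    have h2 : 4 / ε ≤ ((K - a : ℕ) : ℝ) := haε.trans h1
    rwa [div_le_iff₀ hε] at h2
  obtain ⟨C0, hC0⟩ : ∃ C0 : ℕ, C0 = 1354752 * 4 ^ K * 1 ^ 2 := ⟨_, rfl⟩
  have hC0pos : 0 < C0 := by
    rw [hC0]
    positivity
  obtain ⟨e0, he0⟩ := exists_nat_ge (1 / ε)
  obtain ⟨C, hC⟩ : ∃ C : ℕ, C = 100 * a * C0 + e0 := ⟨_, rfl⟩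
  have haC0 : 1 ≤ a * C0 := Nat.one_le_iff_ne_zero.2 (Nat.mul_ne_zero (by omega) (by omega))
  have haC0' : C0 ≤ a * C0 := Nat.le_mul_of_pos_left _ (by omega)
  have haC0'' : a ≤ a * C0 := Nat.le_mul_of_pos_right _ hC0pos
  have hC1 : 100 * (a * C0) ≤ C := by
    rw [hC, mul_assoc]
    exact Nat.le_add_right _ _
  refine ⟨C, by omega, fun k b hk hb W _ blk R hR hsep N hN => ?_⟩
  by_contra hcon
  rw [not_le] at hcon
  have hk4 : 4 * C0 ≤ k := by omega
  have hba : a ≤ b := by omega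
  have hk0 : 0 < k := by omega
  obtain ⟨t, ht⟩ : ∃ t, t = b / a := ⟨_, rfl⟩
  have hta : t * a ≤ b := by
    rw [ht]
    exact Nat.div_mul_le_self b a
  have ht1 : 1 ≤ t := by
    rw [ht, Nat.le_div_iff_mul_le (by omega), one_mul]
    exact hba
  have hbt : b ≤ 2 * (t * a) := by
    have h1 : b < a * (b / a + 1) := Nat.lt_mul_div_succ b (by omega)
    rw [← ht, mul_add, mul_one, mul_comm a t] at h1
    have h2 : a ≤ t * a := Nat.le_mul_of_pos_left _ ht1
    omega
  obtain ⟨s, hs⟩ : ∃ s, s = k * t / (2 * C0) := ⟨_, rfl⟩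
  have hs1 : C0 * (2 * s) ≤ k * t := by
    have := Nat.div_mul_le_self (k * t) (2 * C0)
    rw [← hs] at this
    calc C0 * (2 * s) = s * (2 * C0) := by ring
      _ ≤ k * t := this
  have hst : 2 * t ≤ s := by
    rw [hs, Nat.le_div_iff_mul_le (by omega)]
    calc 2 * t * (2 * C0) = (4 * C0) * t := by ring
      _ ≤ k * t := Nat.mul_le_mul_right t hk4
  obtain ⟨u, hu⟩ : ∃ u, u = k * b / C := ⟨_, rfl⟩
  have hus : 2 * u ≤ s := by
    rw [hs, Nat.le_div_iff_mul_le (by omega)]
    have h1 : u * C ≤ k * b := by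
      rw [hu]
      exact Nat.div_mul_le_self _ _
    have h2 : u * (100 * (a * C0)) ≤ k * (2 * (t * a)) :=
      (Nat.mul_le_mul_left u hC1).trans (h1.trans (Nat.mul_le_mul_left k hbt))
    have h3 : a * (50 * (u * C0)) ≤ a * (k * t) := by
      have e1 : u * (100 * (a * C0)) = 2 * (a * (50 * (u * C0))) := by ring
      have e2 : k * (2 * (t * a)) = 2 * (a * (k * t)) := by ring
      omega
    have h4 : 50 * (u * C0) ≤ k * t := Nat.le_of_mul_le_mul_left h3 (by omega)
    calc 2 * u * (2 * C0) = 4 * (u * C0) := by ring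
      _ ≤ 50 * (u * C0) := Nat.mul_le_mul_right _ (by norm_num)
      _ ≤ k * t := h4
  -- the embedding of the free bits
  let g : Fin t × Fin a → Fin b := fun p => Fin.castLE hta (finProdFinEquiv p)
  have hg : Function.Injective g := by
    intro p q h
    exact finProdFinEquiv.injective (Fin.castLE_injective hta h)
  have hcardV : Fintype.card (Fin (k * t)) = k * t := Fintype.card_fin _
  have hkt0 : 0 < k * t := Nat.mul_pos hk0 ht1
  obtain ⟨T, hT⟩ := main_pair (E := Fin k × Fin t) (V := Fin (k * t)) R blk hR (lamP_ne a)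
    (lamP_inj a) hg (fun i s => (i, s)) (by rw [hcardV]; exact hkt0) s 1 (le_refl 1)
    (by rw [Fintype.card_prod, Fintype.card_fin, Fintype.card_fin, hcardV, one_mul])
    (by
      rw [card_Pos, hcardV, ← hK, ← hC0]
      exact hs1) hst u hus (fun ω => (hN ω).trans (by rw [hu]; exact hcon.le))
  -- the constants
  obtain ⟨s0, hs0⟩ : ∃ s0, s0 = ⌊ε * k⌋₊ + 1 := ⟨_, rfl⟩
  have hεk : 1 ≤ ε * k := by
    have h1 : (e0 : ℝ) ≤ k := by exact_mod_cast (by omega : e0 ≤ k)
    have h2 : 1 / ε ≤ k := he0.trans h1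
    rw [div_le_iff₀ hε] at h2
    linarith
  have hs0' : ε * k < s0 := by
    rw [hs0]
    push_cast
    exact Nat.lt_floor_add_one _
  have hs01 : 1 < s0 := by
    have : (1 : ℝ) < s0 := lt_of_le_of_lt hεk hs0'
    exact_mod_cast this
  have hbig : 4 * k ≤ (K - a) * s0 := by
    have h1 : (4 : ℝ) * k ≤ ((K - a : ℕ) : ℝ) * s0 := by
      calc (4 : ℝ) * k ≤ (((K - a : ℕ) : ℝ) * ε) * k :=
            mul_le_mul_of_nonneg_right hKε (Nat.cast_nonneg _)
        _ = ((K - a : ℕ) : ℝ) * (ε * k) := by ring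
        _ ≤ _ := mul_le_mul_of_nonneg_left hs0'.le (Nat.cast_nonneg _)
    exact_mod_cast h1
  obtain ⟨f, hf⟩ := sample (X := Fin (k * t) → ZMod 2) (Y := Fin t × Pos a → ZMod 2)
    (B := Fin k) s0
    (fun i x y => PtB (lamP a) (fun z : Fin t × Pos a => x (T ((i, z.1), z.2))) y)
    (((2 ^ a) ^ t : ℕ) / (2 ^ (t * K) : ℕ))
    (by
      intro i x
      have h1 := card_points (lamP a) (fun z : Fin t × Pos a => x (T ((i, z.1), z.2)))
      have h2 : Fintype.card (Fin t × Pos a → ZMod 2) = 2 ^ (t * K) := by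
        rw [Fintype.card_fun, ZMod.card, Fintype.card_prod, Fintype.card_fin, card_Pos]
      rw [h2, div_mul_cancel₀ _ (by positivity)]
      exact Nat.cast_le.2 h1)
    (by
      rw [Fintype.card_fun, ZMod.card, Fintype.card_fin, Fintype.card_fin, div_pow,
        ← mul_div_assoc, div_lt_one (by positivity)]
      have h1 : (k.choose s0) ≤ 2 ^ k := Nat.choose_le_two_pow k s0
      have h2 : 2 ^ (k * t) * k.choose s0 * ((2 ^ a) ^ t) ^ s0 < (2 ^ (t * K)) ^ s0 := by
        calc 2 ^ (k * t) * k.choose s0 * ((2 ^ a) ^ t) ^ s0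
            ≤ 2 ^ (k * t) * 2 ^ k * ((2 ^ a) ^ t) ^ s0 :=
              Nat.mul_le_mul_right _ (Nat.mul_le_mul_left _ h1)
          _ = 2 ^ (k * t + k + a * t * s0) := by
              rw [← pow_mul, ← pow_mul, ← pow_add, ← pow_add, mul_assoc a t s0]
          _ < 2 ^ (t * K * s0) := by
              apply Nat.pow_lt_pow_right (by norm_num)
              have h3 : t * (4 * k) ≤ t * ((K - a) * s0) := Nat.mul_le_mul_left t hbig
              have h4 : t * K * s0 = t * ((K - a) * s0) + a * t * s0 := by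
                have h5 : K = (K - a) + a := by omega
                calc t * K * s0 = t * ((K - a) + a) * s0 := by rw [← h5]
                  _ = _ := by ring
              have h6 : k ≤ k * t := Nat.le_mul_of_pos_right _ ht1
              have h7 : t * (4 * k) = 4 * (k * t) := by ring
              omega
          _ = (2 ^ (t * K)) ^ s0 := by rw [← pow_mul]
      exact_mod_cast h2)
  let c : (Fin k × Fin t) × Pos a → ZMod 2 := fun x => f x.1.1 (x.1.2, x.2)
  apply sep_false hsep (cg blk (lamP a) g (fun i s => (i, s)) T 0)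
    (cg blk (lamP a) g (fun i s => (i, s)) T c) _ _ (hT _ _) (hT _ _)
  · have := clique_zero blk (lamP a) g (fun (i : Fin k) (s : Fin t) => (i, s)) T
    rw [Fintype.card_fin] at this
    exact_mod_cast this
  · have h1 : (cg blk (lamP a) g (fun i s => (i, s)) T c).cliqueNum < s0 := by
      apply cliqueNum_le hs01
      intro x
      refine lt_of_le_of_lt (Finset.card_le_card ?_) (hf x)
      intro i hi
      exact Finset.mem_filter.2 ⟨Finset.mem_univ _, (Finset.mem_filter.1 hi).2⟩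
    have h2 : (cg blk (lamP a) g (fun i s => (i, s)) T c).cliqueNum ≤ ⌊ε * k⌋₊ := by omega
    exact (Nat.le_floor_iff (by positivity)).1 h2

end Pool.Agent.H550R2.Cl
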