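import Pool.Agent.H550R2.Cl.GenB
import Pool.Agent.H550R2.Cl.Par

set_option autoImplicit false
set_option linter.unusedSectionVars false

/-! Programs that are symmetric under all permutations inside the blocks: their characters live on
few blocks. -/

namespace Pool.Agent.H550R2.Cl

open Finset Matrix Pool.Agent.H550R2.Lift

section perms

variable {k b : ℕ}

/-- The permutation of the vertices given by permutations of the blocks. -/
def cpk (π : Fin k → Equiv.Perm (Fin b → ZMod 2)) : Equiv.Perm (Fin k × (Fin b → ZMod 2)) :=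
  Equiv.prodShear (Equiv.refl _) π

theorem cpk_apply (π : Fin k → Equiv.Perm (Fin b → ZMod 2)) (x : Fin k × (Fin b → ZMod 2)) :
    cpk π x = (x.1, π x.1 x.2) := rfl

/-- The program is symmetric under all permutations of the vertices inside the blocks that are not
in `M`. -/
def SymK {D : Type} [Fintype D] [DecidableEq D] (M : Finset (Fin k))
    (P : SDP (Sym2 (Fin k × (Fin b → ZMod 2))) D) : Prop :=
  ∀ π : Fin k → Equiv.Perm (Fin b → ZMod 2), (∀ i ∈ M, π i = 1) →
    ∃ O, P.IsAut (edPerm (cpk π)) O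

theorem SymK.mono {D : Type} [Fintype D] [DecidableEq D] {M M' : Finset (Fin k)} (hM : M ⊆ M')
    {P : SDP (Sym2 (Fin k × (Fin b → ZMod 2))) D} (h : SymK M P) : SymK M' P :=
  fun π hπ => h π fun i hi => hπ i (hM hi)

/-- the translations of the blocks -/
def trk (γ : Fin k × Fin b → ZMod 2) : Equiv.Perm (Fin k × (Fin b → ZMod 2)) :=
  cpk fun i => Equiv.addRight fun κ => γ (i, κ)

theorem trk_apply (γ : Fin k × Fin b → ZMod 2) (x : Fin k × (Fin b → ZMod 2)) :
    trk γ x = (x.1, x.2 + fun κ => γ (x.1, κ)) := rfl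

theorem trk_tp (γ : Fin k × Fin b → ZMod 2) : trk γ = tp (Function.Embedding.refl _) γ := by
  apply Equiv.ext
  intro x
  exact (tp_apply (Function.Embedding.refl _) γ x).symm

theorem trk_add (γ γ' : Fin k × Fin b → ZMod 2) : trk (γ + γ') = trk γ * trk γ' := by
  rw [trk_tp, trk_tp, trk_tp, tp_add]

/-- restriction to the blocks outside `M` -/
def rK (M : Finset (Fin k)) (γ : Fin k × Fin b → ZMod 2) : Fin k × Fin b → ZMod 2 :=
  fun x => if x.1 ∈ M then 0 else γ x

theorem rK_add (M : Finset (Fin k)) (γ γ' : Fin k × Fin b → ZMod 2) :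
    rK M (γ + γ') = rK M γ + rK M γ' := by
  ext x
  show (if x.1 ∈ M then 0 else (γ + γ') x) = (if x.1 ∈ M then 0 else γ x) +
    (if x.1 ∈ M then 0 else γ' x)
  split_ifs
  · rw [add_zero]
  · rfl

/-- the action of the translations of the blocks outside `M` -/
def actK (M : Finset (Fin k)) (γ : Fin k × Fin b → ZMod 2) :
    Equiv.Perm (Sym2 (Fin k × (Fin b → ZMod 2))) := edPerm (trk (rK M γ))

theorem actK_add (M : Finset (Fin k)) (γ γ' : Fin k × Fin b → ZMod 2) :
    actK M (γ + γ') = actK M γ * actK M γ' := by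
  unfold actK
  rw [rK_add, trk_add, edPerm_mul]

theorem SymK.act {D : Type} [Fintype D] [DecidableEq D] {M : Finset (Fin k)}
    {P : SDP (Sym2 (Fin k × (Fin b → ZMod 2))) D} (h : SymK M P) (γ : Fin k × Fin b → ZMod 2) :
    ∃ O, P.IsAut (actK M γ) O := by
  apply h
  intro i hi
  apply Equiv.ext
  intro v
  show v + (fun κ => rK M γ (i, κ)) = v
  have h1 : (fun κ => rK M γ (i, κ)) = 0 := by
    ext κ
    exact if_pos hi
  rw [h1, add_zero]

end perms

section dual

variable {X : Type} [Fintype X] [DecidableEq X]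

/-- the dual of a linear map -/
def dualV (F : (X → ZMod 2) →ₗ[ZMod 2] (X → ZMod 2)) (p : X → ZMod 2) : X → ZMod 2 :=
  fun x => pr p (F (Pi.single x 1))

theorem pr_dualV (F : (X → ZMod 2) →ₗ[ZMod 2] (X → ZMod 2)) (p γ : X → ZMod 2) :
    pr (dualV F p) γ = pr p (F γ) := by
  have h1 : F γ = ∑ x, γ x • F (Pi.single x 1) := by
    conv_lhs => rw [pi_eq_sum_univ' γ]
    rw [map_sum]
    apply Finset.sum_congr rfl
    intro x _
    rw [map_smul]
  unfold dualV
  rw [h1]
  unfold pr
  simp_rw [Finset.sum_apply, Pi.smul_apply, smul_eq_mul, Finset.sum_mul, Finset.mul_sum]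
  rw [Finset.sum_comm]
  apply Finset.sum_congr rfl
  intro a _
  apply Finset.sum_congr rfl
  intro x _
  ring

end dual

section weight

variable {k b : ℕ} {F : Type} [Field F] [Fintype F] [DecidableEq F] [Algebra (ZMod 2) F]
  (Λ : (Fin b → ZMod 2) ≃ₗ[ZMod 2] F)

/-- multiplication in the field -/
def mF (e : F) : (Fin b → ZMod 2) →ₗ[ZMod 2] (Fin b → ZMod 2) :=
  Λ.symm.toLinearMap.comp ((LinearMap.mulLeft (ZMod 2) e).comp Λ.toLinearMap)

theorem mF_apply (e : F) (v : Fin b → ZMod 2) : mF Λ e v = Λ.symm (e * Λ v) := rfl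

theorem mF_mF (e e' : F) (v : Fin b → ZMod 2) : mF Λ e (mF Λ e' v) = mF Λ (e * e') v := by
  rw [mF_apply, mF_apply, mF_apply, LinearEquiv.apply_symm_apply, mul_assoc]

theorem mF_one (v : Fin b → ZMod 2) : mF Λ 1 v = v := by
  rw [mF_apply, one_mul, LinearEquiv.symm_apply_apply]

/-- multiplication by the inverse of a unit as a permutation -/
def mE (e : Fˣ) : Equiv.Perm (Fin b → ZMod 2) where
  toFun := mF Λ ((e⁻¹ : Fˣ) : F)
  invFun := mF Λ (e : F)
  left_inv v := by
    rw [mF_mF, Units.mul_inv, mF_one]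
  right_inv v := by
    rw [mF_mF, Units.inv_mul, mF_one]

/-- multiplication in all blocks -/
def mG (e : Fin k → Fˣ) : (Fin k × Fin b → ZMod 2) →ₗ[ZMod 2] (Fin k × Fin b → ZMod 2) where
  toFun γ := fun x => mF Λ (e x.1 : F) (fun κ => γ (x.1, κ)) x.2
  map_add' γ γ' := by
    ext x
    show mF Λ (e x.1 : F) ((fun κ => γ (x.1, κ)) + fun κ => γ' (x.1, κ)) x.2 = _
    rw [map_add]
    rfl
  map_smul' c γ := by
    ext x
    show mF Λ (e x.1 : F) (c • fun κ => γ (x.1, κ)) x.2 = _
    rw [map_smul]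
    rfl

theorem actK_mul {M : Finset (Fin k)} (e : Fin k → Fˣ) (γ : Fin k × Fin b → ZMod 2) :
    actK M γ * edPerm (cpk fun i => mE Λ (e i)) =
      edPerm (cpk fun i => mE Λ (e i)) * actK M (mG Λ e γ) := by
  unfold actK
  rw [← edPerm_mul, ← edPerm_mul]
  congr 1
  apply Equiv.ext
  intro x
  show (x.1, mF Λ (((e x.1)⁻¹ : Fˣ) : F) x.2 + fun κ => rK M γ (x.1, κ)) =
    (x.1, mF Λ (((e x.1)⁻¹ : Fˣ) : F) (x.2 + fun κ => rK M (mG Λ e γ) (x.1, κ)))
  rw [map_add]
  have h1 : (fun κ => rK M γ (x.1, κ)) =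
      mF Λ (((e x.1)⁻¹ : Fˣ) : F) (fun κ => rK M (mG Λ e γ) (x.1, κ)) := by
    by_cases hx : x.1 ∈ M
    · have h2 : (fun κ => rK M γ (x.1, κ)) = 0 := by
        ext κ
        exact if_pos hx
      have h3 : (fun κ => rK M (mG Λ e γ) (x.1, κ)) = 0 := by
        ext κ
        exact if_pos hx
      rw [h2, h3, map_zero]
    · have h2 : (fun κ => rK M γ (x.1, κ)) = fun κ => γ (x.1, κ) := by
        ext κ
        exact if_neg hx
      have h3 : (fun κ => rK M (mG Λ e γ) (x.1, κ)) =
          mF Λ (e x.1 : F) (fun κ => γ (x.1, κ)) := by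
        ext κ
        exact if_neg hx
      rw [h2, h3, mF_mF, Units.inv_mul, mF_one]
  rw [← h1]

/-- the blocks outside `M` that a functional touches -/
def tbM (M : Finset (Fin k)) (p : Fin k × Fin b → ZMod 2) : Finset (Fin k) :=
  univ.filter fun i => i ∉ M ∧ ∃ κ, p (i, κ) ≠ 0

theorem mem_tbM (M : Finset (Fin k)) (p : Fin k × Fin b → ZMod 2) (i : Fin k) :
    i ∈ tbM M p ↔ i ∉ M ∧ ∃ κ, p (i, κ) ≠ 0 := by
  unfold tbM
  rw [Finset.mem_filter]
  exact ⟨fun h => h.2, fun h => ⟨Finset.mem_univ _, h⟩⟩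

/-- putting a vector into one block -/
def inB (i : Fin k) (v : Fin b → ZMod 2) : Fin k × Fin b → ZMod 2 :=
  fun x => if x.1 = i then v x.2 else 0

theorem mG_inB (e : Fin k → Fˣ) (i : Fin k) (v : Fin b → ZMod 2) :
    mG Λ e (inB i v) = inB i (mF Λ (e i : F) v) := by
  ext x
  show mF Λ (e x.1 : F) (fun κ => if x.1 = i then v κ else 0) x.2 =
    if x.1 = i then mF Λ (e i : F) v x.2 else 0
  by_cases hx : x.1 = i
  · rw [if_pos hx]
    have h1 : (fun κ => if x.1 = i then v κ else 0) = v := by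
      ext κ
      exact if_pos hx
    rw [h1, hx]
  · rw [if_neg hx]
    have h1 : (fun κ => if x.1 = i then v κ else 0) = 0 := by
      ext κ
      exact if_neg hx
    rw [h1, map_zero]
    rfl

theorem pr_inB (p : Fin k × Fin b → ZMod 2) (i : Fin k) (v : Fin b → ZMod 2) :
    pr p (inB i v) = pr (fun κ => p (i, κ)) v := by
  unfold pr inB
  rw [Fintype.sum_prod_type, Finset.sum_eq_single i]
  · apply Finset.sum_congr rfl
    intro κ _
    rw [if_pos rfl]
  · intro j _ hj
    apply Finset.sum_eq_zero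
    intro κ _
    show p (j, κ) * (if j = i then v κ else 0) = 0
    rw [if_neg hj, mul_zero]
  · intro h
    exact absurd (Finset.mem_univ _) h

include Λ in
/-- **Characters touch few blocks.** -/
theorem char_blocks {D : Type} [Fintype D] [DecidableEq D] {M : Finset (Fin k)}
    {P : SDP (Sym2 (Fin k × (Fin b → ZMod 2))) D} (hP : SymK M P)
    {p : Fin k × Fin b → ZMod 2} (hp : IsChar P (actK M) p) :
    Fintype.card Fˣ ^ (tbM M p).card ≤ Fintype.card D ^ 2 := by
  classical
  let ext : ({i // i ∈ tbM M p} → Fˣ) → (Fin k → Fˣ) := fun e i =>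
    if h : i ∈ tbM M p then e ⟨i, h⟩ else 1
  have hchar : ∀ e, IsChar P (actK M) (dualV (mG Λ (ext e)) p) := by
    intro e
    obtain ⟨O, hO⟩ := hP (fun i => mE Λ (ext e i)) (by
      intro i hi
      have h1 : ext e i = 1 := dif_neg (fun h => ((mem_tbM M p i).1 h).1 hi)
      apply Equiv.ext
      intro v
      show mF Λ (((ext e i)⁻¹ : Fˣ) : F) v = v
      rw [h1, inv_one, Units.val_one, mF_one])
    exact char_map hO (mG Λ (ext e)) (actK_mul Λ (ext e)) hp (fun γ => pr_dualV _ p γ)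
  let f : ({i // i ∈ tbM M p} → Fˣ) → (Fin k × Fin b → ZMod 2) := fun e =>
    dualV (mG Λ (ext e)) p
  have hf : Function.Injective f := by
    intro e e' h
    funext i
    by_contra hne
    obtain ⟨-, κ, hκ⟩ := (mem_tbM M p i.1).1 i.2
    have h5 : ext e i.1 = e i := dif_pos i.2
    have h6 : ext e' i.1 = e' i := dif_pos i.2
    have h1 : ∀ v, pr (fun κ => p (i.1, κ)) (mF Λ ((e i : F) - (e' i : F)) v) = 0 := by
      intro v
      have h2 : pr (f e) (inB i.1 v) = pr (f e') (inB i.1 v) := by rw [h]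
      change pr (dualV (mG Λ (ext e)) p) (inB i.1 v) =
        pr (dualV (mG Λ (ext e')) p) (inB i.1 v) at h2
      rw [pr_dualV, pr_dualV, mG_inB, mG_inB, pr_inB, pr_inB, h5, h6] at h2
      have h3 : mF Λ ((e i : F) - (e' i : F)) v = mF Λ (e i : F) v + mF Λ (e' i : F) v := by
        rw [mF_apply, mF_apply, mF_apply, sub_mul, map_sub]
        ext κ
        rw [Pi.sub_apply, Pi.add_apply, CharTwo.sub_eq_add]
      rw [h3, pr_add_right, h2]
      exact CharTwo.add_self_eq_zero _
    have hne' : (e i : F) - (e' i : F) ≠ 0 := by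
      intro h0
      exact hne (Units.ext (sub_eq_zero.1 h0))
    have h7 := h1 (mF Λ ((e i : F) - (e' i : F))⁻¹ (Pi.single κ 1))
    rw [mF_mF, mul_inv_cancel₀ hne', mF_one, pr_single] at h7
    exact hκ h7
  have h2 := card_char P (actK M) hP.act (univ.image f) (by
    intro q hq
    obtain ⟨e, -, rfl⟩ := Finset.mem_image.1 hq
    exact hchar _)
  rw [Finset.card_image_of_injective _ hf, Finset.card_univ, Fintype.card_fun,
    Fintype.card_coe] at h2
  exact h2

end weight

/-- **Characters touch few blocks.** -/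
theorem char_few {k b : ℕ} (hb : b ≠ 0) {D : Type} [Fintype D] [DecidableEq D]
    {M : Finset (Fin k)} {P : SDP (Sym2 (Fin k × (Fin b → ZMod 2))) D} (hP : SymK M P)
    {p : Fin k × Fin b → ZMod 2} (hp : IsChar P (actK M) p) {u : ℕ}
    (hD : Fintype.card D ≤ 2 ^ u) : (b - 1) * (tbM M p).card ≤ 2 * u := by
  classical
  let _ : Fintype (GaloisField 2 b) := Fintype.ofFinite _
  have hfr : Module.finrank (ZMod 2) (Fin b → ZMod 2) =
      Module.finrank (ZMod 2) (GaloisField 2 b) := by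
    rw [GaloisField.finrank 2 hb, Module.finrank_fin_fun]
  let Λ : (Fin b → ZMod 2) ≃ₗ[ZMod 2] GaloisField 2 b := LinearEquiv.ofFinrankEq _ _ hfr
  have h1 := char_blocks Λ hP hp
  have hc : Fintype.card (GaloisField 2 b) = 2 ^ b := by
    rw [← Nat.card_eq_fintype_card]
    exact GaloisField.card 2 b hb
  have h2 : 2 ^ (b - 1) ≤ Fintype.card (GaloisField 2 b)ˣ := by
    rw [Fintype.card_units, hc]
    have h3 : 2 ^ b = 2 * 2 ^ (b - 1) := by
      conv_lhs => rw [← Nat.succ_pred_eq_of_ne_zero hb]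
      rw [pow_succ, mul_comm]
      rfl
    have h4 : 1 ≤ 2 ^ (b - 1) := Nat.one_le_two_pow
    omega
  have h3 : 2 ^ ((b - 1) * (tbM M p).card) ≤ 2 ^ (2 * u) := by
    rw [pow_mul]
    refine (Nat.pow_le_pow_left h2 _).trans (h1.trans ((Nat.pow_le_pow_left hD 2).trans ?_))
    rw [← pow_mul, mul_comm]
  exact (Nat.pow_le_pow_iff_right (by norm_num)).1 h3

end Pool.Agent.H550R2.Cl
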