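import Pool.Agent.H550R2.Cl.PolyCore

set_option autoImplicit false
set_option linter.unusedSectionVars false

/-! The lower bound with a polynomial gap. -/

namespace Pool.Agent.H550R2.Cl

open Finset Pool.Agent.H550R2.Lift Filter
open Pool.Agent.H550R2.Neg (RSDP acc_close)

theorem sq_le_two_pow (a : ℕ) (ha : 4 ≤ a) : a ^ 2 ≤ 2 ^ a := by
  induction a, ha using Nat.le_induction with
  | base => norm_num
  | succ n hn ih =>
    rw [pow_succ 2 n]
    nlinarith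

theorem SepClique.mono {W : Type} {R : RSDP (Sym2 W)} {K k K' k' : ℝ} (h : SepClique R K k)
    (hK : K ≤ K') (hk : k' ≤ k) : SepClique R K' k' := by
  rcases h with h | h
  · exact Or.inl fun G => ⟨fun h1 => (h G).1 (hK.trans h1), fun h1 => (h G).2 (h1.trans hk)⟩
  · exact Or.inr fun G => ⟨fun h1 => (h G).1 (hK.trans h1), fun h1 => (h G).2 (h1.trans hk)⟩

set_option maxHeartbeats 4000000 in
/-- **The lower bound with a polynomial gap.** -/
theorem poly_lower (δ : ℝ) (hδ : 0 < δ) (hδ1 : δ < 1) : ∃ α : ℝ, 0 < α ∧ ∃ N0 : ℕ,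
    ∀ N : ℕ, N0 ≤ N → ∃ M b : ℕ, (N : ℝ) ^ (1 - δ) ≤ M ∧ (2 : ℝ) ^ b ≤ (N : ℝ) ^ δ ∧
    M * 2 ^ b ≤ N ∧ ∀ (W : Type) [Finite W] (blk : Fin M × (Fin b → ZMod 2) ↪ W)
      (R : RSDP (Sym2 W)), TransSym R blk →
      SepClique R ((N : ℝ) ^ (1 - δ)) ((N : ℝ) ^ δ) → ∀ s : ℕ,
      (∀ ω, Fintype.card (R.D ω) ≤ s) → (2 : ℝ) ^ (α * (N : ℝ) ^ δ) ≤ s := by
  obtain ⟨a, ha5, haδ⟩ : ∃ a : ℕ, 5 ≤ a ∧ 2 / δ + 1 ≤ a :=
    ⟨max 5 ⌈2 / δ + 1⌉₊, le_max_left _ _,
      (Nat.le_ceil _).trans (by exact_mod_cast le_max_right _ _)⟩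
  have hKa := two_pow_ge a (by omega)
  have hsq := sq_le_two_pow a (by omega)
  obtain ⟨K, hK⟩ : ∃ K : ℕ, K = 2 ^ a - 1 := ⟨_, rfl⟩
  have hK3 : a + 3 ≤ K := by
    have : 7 ≤ a + 2 := by omega
    omega
  -- the exponent
  have hexp : (a : ℝ) / ((K - 3 : ℕ) : ℝ) ≤ δ / 2 := by
    have h1 : (a : ℝ) * (a - 1) ≤ ((K - 3 : ℕ) : ℝ) := by
      have h2 : a * (a - 1) ≤ K - 3 := by
        have h3 : a * (a - 1) + a = a ^ 2 := by
          have : a = (a - 1) + 1 := by omega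
          calc a * (a - 1) + a = a * ((a - 1) + 1) := by ring
            _ = a ^ 2 := by rw [← this]; ring
        omega
      have h4 : ((a * (a - 1) : ℕ) : ℝ) ≤ ((K - 3 : ℕ) : ℝ) := by exact_mod_cast h2
      rw [Nat.cast_mul, Nat.cast_sub (by omega)] at h4
      exact_mod_cast h4
    have h5 : 2 / δ ≤ (a : ℝ) - 1 := by linarith
    have ha0 : (0 : ℝ) < a := by exact_mod_cast (by omega : 0 < a)
    have hK0 : (0 : ℝ) < ((K - 3 : ℕ) : ℝ) := by exact_mod_cast (by omega : 0 < K - 3)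
    rw [div_le_div_iff₀ hK0 (by norm_num)]
    rw [div_le_iff₀ hδ] at h5
    nlinarith
  obtain ⟨q, hq⟩ : ∃ q : ℕ, q = 2 ^ (K - a - 3) := ⟨_, rfl⟩
  have hq0 : 0 < q := by
    rw [hq]
    positivity
  obtain ⟨C0, hC0⟩ : ∃ C0 : ℕ, C0 = 1354752 * 4 ^ K * (2 * q) ^ 2 := ⟨_, rfl⟩
  have hC0pos : 0 < C0 := by
    rw [hC0]
    positivity
  have hqR : (1 : ℝ) ≤ q := by exact_mod_cast hq0
  have hC0R : (1 : ℝ) ≤ C0 := by exact_mod_cast hC0pos
  have hqC : (0 : ℝ) < q * C0 := by positivity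
  refine ⟨1 / (16 * q * C0), by positivity, ?_⟩
  -- large `N`
  have hx1 : ∀ᶠ N : ℕ in atTop, (16 * q * C0 : ℝ) ≤ (N : ℝ) ^ δ :=
    ((tendsto_rpow_atTop hδ).comp tendsto_natCast_atTop_atTop).eventually_ge_atTop _
  have hx2 : ∀ᶠ N : ℕ in atTop, ((2 : ℝ) ^ (K + 2)) ≤ (N : ℝ) ^ (δ / 2) :=
    ((tendsto_rpow_atTop (half_pos hδ)).comp tendsto_natCast_atTop_atTop).eventually_ge_atTop _
  have hx3 : ∀ᶠ N : ℕ in atTop, Real.log N ≤ (1 / (64 * q * C0)) * (N : ℝ) ^ δ := by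
    have h1 := (isLittleO_log_rpow_atTop hδ).bound (c := 1 / (64 * q * C0)) (by positivity)
    have h2 := tendsto_natCast_atTop_atTop (R := ℝ) |>.eventually h1
    filter_upwards [h2, eventually_ge_atTop 1] with N hN hN1
    have h3 : (0 : ℝ) ≤ Real.log N := Real.log_natCast_nonneg N
    have h4 : (0 : ℝ) ≤ (N : ℝ) ^ δ := by positivity
    rw [Real.norm_of_nonneg h3, Real.norm_of_nonneg h4] at hN
    exact hN
  have hx4 : ∀ᶠ N : ℕ in atTop, (32 * q * C0 : ℝ) ≤ (N : ℝ) ^ δ :=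
    ((tendsto_rpow_atTop hδ).comp tendsto_natCast_atTop_atTop).eventually_ge_atTop _
  obtain ⟨N0, hN0⟩ := eventually_atTop.1 (hx1.and (hx2.and (hx3.and (hx4.and
    (eventually_ge_atTop 2)))))
  refine ⟨N0, fun N hN => ?_⟩
  obtain ⟨h1, h2, h3, h4, hN2⟩ := hN0 N hN
  have hNR : (2 : ℝ) ≤ N := by exact_mod_cast hN2
  have hN1 : (1 : ℝ) ≤ N := by linarith
  have hNpos : (0 : ℝ) < N := by linarith
  obtain ⟨x, hx⟩ : ∃ x : ℝ, x = (N : ℝ) ^ δ := ⟨_, rfl⟩
  rw [← hx] at h1 h3 h4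
  have hx1' : 16 * ((q : ℝ) * C0) ≤ x := by linarith
  have hqx : (q : ℝ) ≤ q * C0 := le_mul_of_one_le_right (by linarith) hC0R
  have hxq : 16 * (q : ℝ) ≤ x := by linarith
  have hxpos : 0 < x := by linarith
  -- the number of variables
  obtain ⟨n, hn⟩ : ∃ n, n + 1 = ⌊x / q⌋₊ := by
    have h5 : 1 ≤ ⌊x / q⌋₊ := by
      rw [Nat.one_le_floor_iff, le_div_iff₀ (by linarith)]
      linarith
    exact ⟨⌊x / q⌋₊ - 1, by omega⟩
  have hn1 : ((n : ℝ) + 1) * q ≤ x := by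
    have h5 : ((⌊x / q⌋₊ : ℕ) : ℝ) ≤ x / q := Nat.floor_le (by positivity)
    rw [← hn, le_div_iff₀ (by linarith)] at h5
    exact_mod_cast h5
  have hn2 : x < ((n : ℝ) + 2) * q := by
    have h5 := Nat.lt_floor_add_one (x / q)
    rw [← hn, div_lt_iff₀ (by linarith)] at h5
    push_cast at h5
    linarith
  obtain ⟨m, hm⟩ : ∃ m, m = (n + 1) * q := ⟨_, rfl⟩
  have hmx : (m : ℝ) ≤ x := by
    rw [hm]
    push_cast
    exact hn1
  have hmx2 : x / 2 ≤ m := by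
    rw [hm]
    push_cast
    nlinarith
  have hnx : x / (2 * q) ≤ n := by
    rw [div_le_iff₀ (by linarith)]
    nlinarith
  have hn0 : 0 < n := by
    have h5 : (0 : ℝ) < n := lt_of_lt_of_le (by positivity) hnx
    exact_mod_cast h5
  -- the number of constraints of a block
  obtain ⟨Q, hQ⟩ : ∃ Q, Q = ⌊(N : ℝ) ^ (1 - δ)⌋₊ := ⟨_, rfl⟩
  have hNδ : (1 : ℝ) ≤ (N : ℝ) ^ (1 - δ) := Real.one_le_rpow hN1 (by linarith)
  have hQ1 : 1 ≤ Q := by
    rw [hQ, Nat.one_le_floor_iff]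
    exact hNδ
  have hQ2 : (Q : ℝ) ≤ (N : ℝ) ^ (1 - δ) := by
    rw [hQ]
    exact Nat.floor_le (by linarith)
  have hQ3 : (N : ℝ) ^ (1 - δ) < Q + 1 := by
    rw [hQ]
    exact Nat.lt_floor_add_one _
  have hQN : (Q : ℝ) ≤ N := by
    refine hQ2.trans ?_
    calc (N : ℝ) ^ (1 - δ) ≤ (N : ℝ) ^ (1 : ℝ) :=
          Real.rpow_le_rpow_of_exponent_le hN1 (by linarith)
      _ = N := Real.rpow_one _
  obtain ⟨t, ht⟩ : ∃ t, t = Nat.log 2 Q / (K - 3) := ⟨_, rfl⟩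
  have hK30 : 0 < K - 3 := by omega
  have htl : (K - 3) * t ≤ Nat.log 2 Q := by
    rw [ht, mul_comm]
    exact Nat.div_mul_le_self _ _
  have htu : Nat.log 2 Q < (K - 3) * (t + 1) := by
    rw [ht]
    exact Nat.lt_mul_div_succ _ hK30
  have hy1 : 2 ^ ((K - 3) * t) ≤ Q :=
    (Nat.pow_le_pow_right (by norm_num) htl).trans (Nat.pow_log_le_self 2 (by omega))
  have hy1R : (2 : ℝ) ^ ((K - 3) * t) ≤ Q := by exact_mod_cast hy1
  have hy2 : Q + 1 ≤ 2 ^ ((K - 3) * t) * 2 ^ (K - 3) := by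
    have h5 : Q < 2 ^ (Nat.log 2 Q + 1) := Nat.lt_pow_succ_log_self (by norm_num) Q
    have h6 : 2 ^ (Nat.log 2 Q + 1) ≤ 2 ^ ((K - 3) * t) * 2 ^ (K - 3) := by
      rw [← pow_add]
      apply Nat.pow_le_pow_right (by norm_num)
      have : (K - 3) * (t + 1) = (K - 3) * t + (K - 3) := by ring
      omega
    omega
  have hy2R : (N : ℝ) ^ (1 - δ) ≤ 2 ^ ((K - 3) * t) * 2 ^ (K - 3) := by
    have h5 : ((Q + 1 : ℕ) : ℝ) ≤ 2 ^ ((K - 3) * t) * 2 ^ (K - 3) := by exact_mod_cast hy2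
    push_cast at h5
    linarith
  -- the size of a block
  have hbsize : (2 : ℝ) ^ (t * a) ≤ (N : ℝ) ^ (δ / 2) := by
    have h5 : (2 : ℝ) ^ (t * a) = ((2 : ℝ) ^ ((K - 3) * t)) ^ ((a : ℝ) / ((K - 3 : ℕ) : ℝ)) := by
      have hK0 : (((K - 3 : ℕ) : ℝ)) ≠ 0 := by
        have : (0 : ℝ) < ((K - 3 : ℕ) : ℝ) := by exact_mod_cast hK30
        exact ne_of_gt this
      rw [← Real.rpow_natCast, ← Real.rpow_natCast, ← Real.rpow_mul (by norm_num)]
      congr 1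
      push_cast
      field_simp
    rw [h5]
    calc ((2 : ℝ) ^ ((K - 3) * t)) ^ ((a : ℝ) / ((K - 3 : ℕ) : ℝ))
        ≤ (N : ℝ) ^ ((a : ℝ) / ((K - 3 : ℕ) : ℝ)) :=
          Real.rpow_le_rpow (by positivity) (hy1R.trans hQN) (by positivity)
      _ ≤ (N : ℝ) ^ (δ / 2) := Real.rpow_le_rpow_of_exponent_le hN1 hexp
  have hδ2 : (N : ℝ) ^ (δ / 2) ≤ (N : ℝ) ^ δ :=
    Real.rpow_le_rpow_of_exponent_le hN1 (by linarith)
  -- the number of blocks
  obtain ⟨M, hM⟩ : ∃ M, M = (m + 1) * q ^ t / 8 := ⟨_, rfl⟩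
  have hM1 : 8 * M ≤ (m + 1) * q ^ t := by
    rw [hM]
    exact Nat.mul_div_le _ _
  have hM2 : (m + 1) * q ^ t < 8 * (M + 1) := by
    rw [hM]
    exact Nat.lt_mul_div_succ _ (by norm_num)
  have hqt : q ^ t * 2 ^ (t * a) * 1 = 2 ^ ((K - 3) * t) := by
    rw [hq, ← pow_mul, ← pow_add, mul_one]
    congr 1
    have h5 : K - 3 = (K - a - 3) + a := by omega
    rw [h5]
    ring
  have hqtR : (q : ℝ) ^ t * 2 ^ (t * a) = 2 ^ ((K - 3) * t) := by
    have h5 : ((q ^ t * 2 ^ (t * a) * 1 : ℕ) : ℝ) = ((2 ^ ((K - 3) * t) : ℕ) : ℝ) := by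
      exact_mod_cast hqt
    push_cast at h5
    linarith
  -- many blocks
  have hMbig : (N : ℝ) ^ (1 - δ) ≤ M := by
    have h5 : (m + 1 : ℝ) * q ^ t < 8 * (M + 1) := by exact_mod_cast hM2
    have hPpos : (0 : ℝ) < 2 ^ (t * a) := by positivity
    have h6 : (N : ℝ) ^ (1 - δ) ≤ ((q : ℝ) ^ t * 2 ^ (K - 3)) * (N : ℝ) ^ (δ / 2) := by
      calc (N : ℝ) ^ (1 - δ) ≤ 2 ^ ((K - 3) * t) * 2 ^ (K - 3) := hy2R
        _ = ((q : ℝ) ^ t * 2 ^ (K - 3)) * 2 ^ (t * a) := by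
          rw [← hqtR]
          ring
        _ ≤ _ := mul_le_mul_of_nonneg_left hbsize (by positivity)
    -- multiply by `x / 2 ≤ m`
    have h7 : x / 2 * (N : ℝ) ^ (1 - δ) ≤
        (m + 1 : ℝ) * (q : ℝ) ^ t * (2 ^ (K - 3) * (N : ℝ) ^ (δ / 2)) := by
      calc x / 2 * (N : ℝ) ^ (1 - δ)
          ≤ (m + 1 : ℝ) * (((q : ℝ) ^ t * 2 ^ (K - 3)) * (N : ℝ) ^ (δ / 2)) := by
            apply mul_le_mul (by linarith) h6 (by positivity) (by positivity)
        _ = _ := by ring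
    have h8 : x = (N : ℝ) ^ (δ / 2) * (N : ℝ) ^ (δ / 2) := by
      rw [hx, ← Real.rpow_add hNpos]
      congr 1
      ring
    set y : ℝ := (N : ℝ) ^ (δ / 2) with hy
    have hypos : 0 < y := by positivity
    have h9 : y / 2 * (N : ℝ) ^ (1 - δ) ≤ (m + 1 : ℝ) * (q : ℝ) ^ t * 2 ^ (K - 3) := by
      have h10 : y * (y / 2 * (N : ℝ) ^ (1 - δ)) ≤
          y * ((m + 1 : ℝ) * (q : ℝ) ^ t * 2 ^ (K - 3)) := by
        calc y * (y / 2 * (N : ℝ) ^ (1 - δ)) = x / 2 * (N : ℝ) ^ (1 - δ) := by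
              rw [h8]
              ring
          _ ≤ _ := h7
          _ = _ := by ring
      exact le_of_mul_le_mul_left h10 hypos
    have h11 : (2 : ℝ) ^ (K + 2) = 32 * 2 ^ (K - 3) := by
      have : K + 2 = (K - 3) + 5 := by omega
      rw [this, pow_add]
      norm_num
      ring
    rw [h11] at h2
    have hP0 : (0 : ℝ) < 2 ^ (K - 3) := by positivity
    have h12 : 32 * 2 ^ (K - 3) / 2 * (N : ℝ) ^ (1 - δ) ≤
        8 * ((M : ℝ) + 1) * 2 ^ (K - 3) := by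
      calc 32 * 2 ^ (K - 3) / 2 * (N : ℝ) ^ (1 - δ) ≤ y / 2 * (N : ℝ) ^ (1 - δ) := by
            apply mul_le_mul_of_nonneg_right _ (by positivity)
            linarith
        _ ≤ (m + 1 : ℝ) * (q : ℝ) ^ t * 2 ^ (K - 3) := h9
        _ ≤ _ := mul_le_mul_of_nonneg_right h5.le hP0.le
    have h13 : 2 * (N : ℝ) ^ (1 - δ) ≤ M + 1 := by
      have h14 : (8 * 2 ^ (K - 3)) * (2 * (N : ℝ) ^ (1 - δ)) ≤
          (8 * 2 ^ (K - 3)) * ((M : ℝ) + 1) := by
        calc (8 * 2 ^ (K - 3)) * (2 * (N : ℝ) ^ (1 - δ)) =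
              32 * 2 ^ (K - 3) / 2 * (N : ℝ) ^ (1 - δ) := by ring
          _ ≤ _ := h12
          _ = _ := by ring
      exact le_of_mul_le_mul_left h14 (by positivity)
    linarith
  refine ⟨M, t * a, hMbig, ?_, ?_, ?_⟩
  · -- small blocks
    exact hbsize.trans hδ2
  · -- enough room
    have h5 : (8 : ℝ) * M ≤ (m + 1) * q ^ t := by exact_mod_cast hM1
    have h6 : (8 : ℝ) * (M * 2 ^ (t * a)) ≤ (x + 1) * (N : ℝ) ^ (1 - δ) := by
      calc (8 : ℝ) * (M * 2 ^ (t * a)) = 8 * M * 2 ^ (t * a) := by ring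
        _ ≤ (m + 1) * q ^ t * 2 ^ (t * a) := mul_le_mul_of_nonneg_right h5 (by positivity)
        _ = (m + 1) * 2 ^ ((K - 3) * t) := by rw [← hqtR]; ring
        _ ≤ _ := by
          apply mul_le_mul (by linarith) (hy1R.trans hQ2) (by positivity) (by positivity)
    have h7 : x * (N : ℝ) ^ (1 - δ) = N := by
      rw [hx, ← Real.rpow_add hNpos]
      have : δ + (1 - δ) = 1 := by ring
      rw [this, Real.rpow_one]
    have h8 : (M : ℝ) * 2 ^ (t * a) ≤ N := by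
      have h9 : (N : ℝ) ^ (1 - δ) ≤ N := by
        calc (N : ℝ) ^ (1 - δ) ≤ (N : ℝ) ^ (1 : ℝ) :=
              Real.rpow_le_rpow_of_exponent_le hN1 (by linarith)
          _ = N := Real.rpow_one _
      nlinarith
    exact_mod_cast h8
  · intro W _ blk R hR hsep s' hs'
    obtain ⟨s, hs⟩ : ∃ s, s = n / (2 * C0) := ⟨_, rfl⟩
    obtain ⟨u, hu⟩ : ∃ u, u = s / 2 := ⟨_, rfl⟩
    have hs1 : (n : ℝ) / (2 * C0) - 1 ≤ s := by
      have h5 : n < 2 * C0 * (s + 1) := by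
        rw [hs]
        exact Nat.lt_mul_div_succ _ (by omega)
      have h6 : (n : ℝ) < 2 * C0 * (s + 1) := by exact_mod_cast h5
      rw [sub_le_iff_le_add, div_le_iff₀ (by positivity)]
      linarith
    have hs2 : x / (4 * (q * C0)) - 1 ≤ s := by
      refine le_trans ?_ hs1
      have h5 : x / (4 * (q * C0)) = (x / (2 * q)) / (2 * C0) := by
        rw [div_div]
        congr 1
        ring
      rw [h5]
      linarith [div_le_div_of_nonneg_right hnx (by positivity : (0 : ℝ) ≤ 2 * C0)]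
    have hu1 : x / (16 * (q * C0)) ≤ u := by
      have h5 : s < 2 * (u + 1) := by omega
      have h6 : (s : ℝ) < 2 * (u + 1) := by exact_mod_cast h5
      have h7 : x / (4 * (q * C0)) = 4 * (x / (16 * (q * C0))) := by
        field_simp
        ring
      have h8 : 2 ≤ x / (16 * (q * C0)) := by
        rw [le_div_iff₀ (by positivity)]
        linarith
      rw [h7] at hs2
      linarith
    have hst : 2 * t ≤ s := by
      have h5 : t ≤ Nat.log 2 Q := by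
        refine le_trans ?_ htl
        exact Nat.le_mul_of_pos_left _ hK30
      have h6 : (Nat.log 2 Q : ℝ) ≤ Real.log N / Real.log 2 := by
        rw [le_div_iff₀ (Real.log_pos (by norm_num))]
        have h7 : ((2 : ℝ) ^ (Nat.log 2 Q)) ≤ N := by
          have h8 : 2 ^ Nat.log 2 Q ≤ Q := Nat.pow_log_le_self 2 (by omega)
          have h9 : ((2 ^ Nat.log 2 Q : ℕ) : ℝ) ≤ Q := by exact_mod_cast h8
          push_cast at h9
          linarith
        have h10 := Real.log_le_log (by positivity) h7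
        rwa [Real.log_pow] at h10
      have h7 : Real.log N / Real.log 2 ≤ 2 * Real.log N := by
        rw [div_le_iff₀ (Real.log_pos (by norm_num))]
        have h8 := Real.log_two_gt_d9
        have h9 : 0 ≤ Real.log N := Real.log_natCast_nonneg N
        nlinarith
      have h8 : (t : ℝ) ≤ 2 * Real.log N := by
        have : (t : ℝ) ≤ Nat.log 2 Q := by exact_mod_cast h5
        linarith
      have h9 : (2 * t : ℝ) ≤ s := by
        have h10 : x / (4 * (q * C0)) = 16 * ((1 / (64 * q * C0)) * x) := by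
          field_simp
          ring
        have h11 : 2 ≤ (1 / (64 * q * C0)) * x * 4 := by
          rw [one_div_mul_eq_div, div_mul_eq_mul_div, le_div_iff₀ (by positivity)]
          linarith
        rw [h10] at hs2
        linarith
      exact_mod_cast h9
    by_contra hcon
    rw [not_le] at hcon
    have hα : 1 / (16 * q * C0) * (N : ℝ) ^ δ ≤ u := by
      rw [← hx]
      refine le_trans (le_of_eq ?_) hu1
      rw [one_div_mul_eq_div]
      congr 1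
      ring
    have hsu : s' ≤ 2 ^ u := by
      have h5 : (s' : ℝ) ≤ 2 ^ u := by
        calc (s' : ℝ) ≤ (2 : ℝ) ^ (1 / (16 * q * C0) * (N : ℝ) ^ δ) := hcon.le
          _ ≤ (2 : ℝ) ^ ((u : ℕ) : ℝ) := Real.rpow_le_rpow_of_exponent_le (by norm_num) hα
          _ = 2 ^ u := Real.rpow_natCast _ _
      exact_mod_cast h5
    refine poly_core a K q n m t M (t * a) s u hK hK3 hq hn0 hm ?_ hst (by omega) hM1 (le_refl _)
      W blk R hR (hsep.mono ?_ ?_) (fun ω => (hs' ω).trans hsu)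
    · rw [← hC0]
      have := Nat.div_mul_le_self n (2 * C0)
      rw [← hs] at this
      calc C0 * (2 * s) = s * (2 * C0) := by ring
        _ ≤ n := this
    · exact hMbig
    · rw [← hx]
      exact hmx

end Pool.Agent.H550R2.Cl
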