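import Pool.Agent.H550R2.Cl.ChiCore
import Pool.Agent.H550R2.Cl.Poly

set_option autoImplicit false
set_option linter.unusedSectionVars false

/-! The lower bound for the chromatic number with a polynomial gap. -/

namespace Pool.Agent.H550R2.Cl

open Finset Pool.Agent.H550R2.Lift Filter
open Pool.Agent.H550R2.Neg (RSDP acc_close)

set_option maxHeartbeats 4000000 in
/-- **The lower bound for the chromatic number.** -/
theorem chi_poly (δ : ℝ) (hδ : 0 < δ) (hδ1 : δ < 1) : ∃ N0 : ℕ,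
    ∀ N : ℕ, N0 ≤ N → ∃ M b : ℕ, (2 : ℝ) ^ b ≤ (N : ℝ) ^ δ ∧
    M * 2 ^ b ≤ N ∧ ∀ (W : Type) (blk : Fin M × (Fin b → ZMod 2) ↪ W)
      (R : RSDP (Sym2 W)), TransSym R blk →
      SepChi R ((N : ℝ) ^ δ) ((N : ℝ) ^ (1 - δ)) → ∀ s : ℕ,
      (∀ ω, Fintype.card (R.D ω) ≤ s) → (2 : ℝ) ^ ((N : ℝ) ^ (δ / 2)) ≤ s := by
  obtain ⟨a, ha5, haδ⟩ : ∃ a : ℕ, 5 ≤ a ∧ 2 / δ + 1 ≤ a :=
    ⟨max 5 ⌈2 / δ + 1⌉₊, le_max_left _ _,
      (Nat.le_ceil _).trans (by exact_mod_cast le_max_right _ _)⟩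
  have hKa := two_pow_ge a (by omega)
  have hsq := sq_le_two_pow a (by omega)
  obtain ⟨K, hK⟩ : ∃ K : ℕ, K = 2 ^ a - 1 := ⟨_, rfl⟩
  have hK3 : a + 6 ≤ K := by
    have h32 : 2 ^ 5 ≤ 2 ^ a := Nat.pow_le_pow_right (by norm_num) ha5
    rcases Nat.lt_or_ge a 25 with h | h
    · omega
    · have : 2 * a + 2 ≤ 2 ^ a := hKa
      omega
  -- the exponent
  have hexp : (a : ℝ) / ((K - 3 : ℕ) : ℝ) ≤ δ / 2 := by
    have h1 : (a : ℝ) * (a - 1) ≤ ((K - 3 : ℕ) : ℝ) := by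
      have h2 : a * (a - 1) ≤ K - 3 := by
        have h3 : a * (a - 1) + a = a ^ 2 := by
          have : a = (a - 1) + 1 := by omega
          calc a * (a - 1) + a = a * ((a - 1) + 1) := by ring
            _ = a ^ 2 := by rw [← this]; ring
        omega
      have h4 : ((a * (a - 1) : ℕ) : ℝ) ≤ ((K - 3 : ℕ) : ℝ) := by exact_mod_cast h2
      rw [Nat.cast_mul, Nat.cast_sub (by omega)] at h4
      exact_mod_cast h4
    have h5 : 2 / δ ≤ (a : ℝ) - 1 := by linarith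
    have ha0 : (0 : ℝ) < a := by exact_mod_cast (by omega : 0 < a)
    have hK0 : (0 : ℝ) < ((K - 3 : ℕ) : ℝ) := by exact_mod_cast (by omega : 0 < K - 3)
    rw [div_le_div_iff₀ hK0 (by norm_num)]
    rw [div_le_iff₀ hδ] at h5
    nlinarith
  obtain ⟨q, hq⟩ : ∃ q : ℕ, q = 2 ^ (K - a - 3) := ⟨_, rfl⟩
  have hq8 : 8 ≤ q := by
    rw [hq]
    calc 8 = 2 ^ 3 := by norm_num
      _ ≤ 2 ^ (K - a - 3) := Nat.pow_le_pow_right (by norm_num) (by omega)
  obtain ⟨C1, hC1⟩ : ∃ C1 : ℕ, C1 = 8192 * K * 26244 ^ K * (2 * K * q) ^ 2 := ⟨_, rfl⟩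
  have hC1pos : 0 < C1 := by
    rw [hC1]
    have : 0 < K := by omega
    positivity
  have hC1big : 4 * K * q ≤ C1 := by
    rw [hC1]
    have h1 : 1 ≤ 26244 ^ K := Nat.one_le_pow _ _ (by norm_num)
    have h2 : 1 ≤ K := by omega
    have h3 : 2 * K * q ≤ (2 * K * q) ^ 2 := by
      rw [sq]
      exact Nat.le_mul_of_pos_left _ (by positivity)
    calc 4 * K * q = 2 * 1 * 1 * (2 * K * q) := by ring
      _ ≤ 8192 * K * 26244 ^ K * (2 * K * q) ^ 2 := by
          apply Nat.mul_le_mul _ h3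
          apply Nat.mul_le_mul _ h1
          apply Nat.mul_le_mul (by norm_num) h2
  have hδ8 : 0 < δ / 8 := by linarith
  -- large `N`
  have hx1 : ∀ᶠ N : ℕ in atTop, ((2 : ℝ) ^ (K + 1)) ≤ (N : ℝ) ^ (δ / 8) :=
    ((tendsto_rpow_atTop hδ8).comp tendsto_natCast_atTop_atTop).eventually_ge_atTop _
  have hx2 : ∀ᶠ N : ℕ in atTop, 10 * (C1 : ℝ) * (2 * Real.log N) ^ 2 ≤ (N : ℝ) ^ (δ / 8) := by
    have hδ16 : 0 < δ / 16 := by linarith
    have hc : (0 : ℝ) < 1 / (80 * C1) := by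
      have : (0 : ℝ) < C1 := by exact_mod_cast hC1pos
      positivity
    have h1 := (isLittleO_log_rpow_atTop hδ16).bound (c := 1 / (80 * C1)) hc
    have h2 := tendsto_natCast_atTop_atTop (R := ℝ) |>.eventually h1
    filter_upwards [h2, eventually_ge_atTop 1] with N hN hN1
    have h3 : (0 : ℝ) ≤ Real.log N := Real.log_natCast_nonneg N
    have h4 : (0 : ℝ) ≤ (N : ℝ) ^ (δ / 16) := by positivity
    rw [Real.norm_of_nonneg h3, Real.norm_of_nonneg h4] at hN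
    have hC1R : (1 : ℝ) ≤ C1 := by exact_mod_cast hC1pos
    have h5 : (N : ℝ) ^ (δ / 8) = (N : ℝ) ^ (δ / 16) * (N : ℝ) ^ (δ / 16) := by
      rw [← Real.rpow_add (by exact_mod_cast hN1)]
      congr 1
      ring
    rw [h5]
    set y := (N : ℝ) ^ (δ / 16) with hy
    have h6 : 80 * C1 * Real.log N ≤ y := by
      have := mul_le_mul_of_nonneg_left hN (by positivity : (0 : ℝ) ≤ 80 * C1)
      rw [← mul_assoc, mul_one_div_cancel (by positivity), one_mul] at this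
      exact this
    have h7 : (80 * C1 * Real.log N) * (80 * C1 * Real.log N) ≤ y * y :=
      mul_le_mul h6 h6 (by positivity) h4
    refine le_trans ?_ h7
    have h8 : 0 ≤ (Real.log N) ^ 2 := by positivity
    have h9 : (C1 : ℝ) ≤ C1 ^ 2 := by nlinarith
    nlinarith
  obtain ⟨N0, hN0⟩ := eventually_atTop.1 (hx1.and (hx2.and (eventually_ge_atTop 2)))
  refine ⟨N0, fun N hN => ?_⟩
  obtain ⟨h1, h2, hN2⟩ := hN0 N hN
  have hNR : (2 : ℝ) ≤ N := by exact_mod_cast hN2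
  have hN1 : (1 : ℝ) ≤ N := by linarith
  have hNpos : (0 : ℝ) < N := by linarith
  obtain ⟨x, hx⟩ : ∃ x : ℝ, x = (N : ℝ) ^ (δ / 8) := ⟨_, rfl⟩
  rw [← hx] at h1 h2
  have hxpos : 0 < x := by
    rw [hx]
    positivity
  have hx8 : (N : ℝ) ^ δ = x ^ 8 := by
    rw [hx, ← Real.rpow_natCast, ← Real.rpow_mul hNpos.le]
    congr 1
    push_cast
    ring
  have hx4 : (N : ℝ) ^ (δ / 2) = x ^ 4 := by
    rw [hx, ← Real.rpow_natCast, ← Real.rpow_mul hNpos.le]
    congr 1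
    push_cast
    ring
  obtain ⟨Z, hZ⟩ : ∃ Z : ℝ, Z = (N : ℝ) ^ (1 - 3 * δ / 4) := ⟨_, rfl⟩
  have hZN : Z * x ^ 6 = N := by
    rw [hZ, hx, ← Real.rpow_natCast, ← Real.rpow_mul hNpos.le, ← Real.rpow_add hNpos]
    have : 1 - 3 * δ / 4 + δ / 8 * ((6 : ℕ) : ℝ) = 1 := by
      push_cast
      ring
    rw [this, Real.rpow_one]
  have hZY : (N : ℝ) ^ (1 - δ) * x ^ 2 = Z := by
    rw [hZ, hx, ← Real.rpow_natCast, ← Real.rpow_mul hNpos.le, ← Real.rpow_add hNpos]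
    congr 1
    push_cast
    ring
  have h2K : (4 : ℝ) ≤ 2 ^ (K + 1) := by
    calc (4 : ℝ) = 2 ^ 2 := by norm_num
      _ ≤ 2 ^ (K + 1) := pow_le_pow_right₀ (by norm_num) (by omega)
  have hx4' : 4 ≤ x := h2K.trans h1
  have hx1' : 1 ≤ x := by linarith
  have hZx : x ^ 2 ≤ Z := by
    have h3 : x ^ 2 = (N : ℝ) ^ (δ / 4) := by
      rw [hx, ← Real.rpow_natCast, ← Real.rpow_mul hNpos.le]
      congr 1
      push_cast
      ring
    rw [h3, hZ]
    exact Real.rpow_le_rpow_of_exponent_le hN1 (by linarith)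
  have hZ1 : 1 ≤ Z := (one_le_pow₀ hx1').trans hZx
  have hZleN : Z ≤ N := by
    rw [← hZN]
    exact le_mul_of_one_le_right (by linarith) (one_le_pow₀ hx1')
  -- the number of variables of a slice
  obtain ⟨n, hn⟩ : ∃ n, n = ⌊x ^ 5⌋₊ := ⟨_, rfl⟩
  have hn1 : (n : ℝ) ≤ x ^ 5 := by
    rw [hn]
    exact Nat.floor_le (by positivity)
  have hx5 : 4 ≤ x ^ 5 := by
    calc (4 : ℝ) ≤ x := hx4'
      _ = x ^ 1 := (pow_one x).symm
      _ ≤ x ^ 5 := pow_le_pow_right₀ hx1' (by norm_num)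
  have hn2 : x ^ 5 / 2 ≤ n := by
    have h5 := Nat.lt_floor_add_one (x ^ 5)
    rw [← hn] at h5
    linarith
  have hn0 : 0 < n := by
    have h5 : (0 : ℝ) < n := by linarith
    exact_mod_cast h5
  obtain ⟨m, hm⟩ : ∃ m, m = (K * n + 1) * q := ⟨_, rfl⟩
  -- the number of copies
  obtain ⟨Q, hQ⟩ : ∃ Q, Q = ⌊Z⌋₊ := ⟨_, rfl⟩
  have hQ1 : 1 ≤ Q := by
    rw [hQ, Nat.one_le_floor_iff]
    exact hZ1
  have hQ2 : (Q : ℝ) ≤ Z := by
    rw [hQ]
    exact Nat.floor_le (by linarith)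
  have hQ3 : Z < Q + 1 := by
    rw [hQ]
    exact Nat.lt_floor_add_one _
  obtain ⟨t, ht⟩ : ∃ t, t = Nat.log 2 Q / (K - 3) := ⟨_, rfl⟩
  have hK30 : 0 < K - 3 := by omega
  have htl : (K - 3) * t ≤ Nat.log 2 Q := by
    rw [ht, mul_comm]
    exact Nat.div_mul_le_self _ _
  have htu : Nat.log 2 Q < (K - 3) * (t + 1) := by
    rw [ht]
    exact Nat.lt_mul_div_succ _ hK30
  have hy1 : 2 ^ ((K - 3) * t) ≤ Q :=
    (Nat.pow_le_pow_right (by norm_num) htl).trans (Nat.pow_log_le_self 2 (by omega))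
  have hy1R : (2 : ℝ) ^ ((K - 3) * t) ≤ Q := by exact_mod_cast hy1
  have hy2 : Q + 1 ≤ 2 ^ ((K - 3) * t) * 2 ^ (K - 3) := by
    have h5 : Q < 2 ^ (Nat.log 2 Q + 1) := Nat.lt_pow_succ_log_self (by norm_num) Q
    have h6 : 2 ^ (Nat.log 2 Q + 1) ≤ 2 ^ ((K - 3) * t) * 2 ^ (K - 3) := by
      rw [← pow_add]
      apply Nat.pow_le_pow_right (by norm_num)
      have : (K - 3) * (t + 1) = (K - 3) * t + (K - 3) := by ring
      omega
    omega
  have hy2R : Z ≤ 2 ^ ((K - 3) * t) * 2 ^ (K - 3) := by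
    have h5 : ((Q + 1 : ℕ) : ℝ) ≤ 2 ^ ((K - 3) * t) * 2 ^ (K - 3) := by exact_mod_cast hy2
    push_cast at h5
    linarith
  have ht1 : 1 ≤ t := by
    rw [ht, Nat.le_div_iff_mul_le hK30, one_mul]
    apply Nat.le_log_of_pow_le (by norm_num)
    have h5 : (2 : ℝ) ^ (K - 3) ≤ Q := by
      have h6 : (2 : ℝ) ^ (K + 1) ≤ Z := by
        calc (2 : ℝ) ^ (K + 1) ≤ x := h1
          _ ≤ x ^ 2 := le_self_pow₀ hx1' (by norm_num)
          _ ≤ Z := hZx
      have h7 : (2 : ℝ) ^ (K + 1) = 16 * 2 ^ (K - 3) := by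
        have : K + 1 = (K - 3) + 4 := by omega
        rw [this, pow_add]
        norm_num
        ring
      have h8 : (1 : ℝ) ≤ 2 ^ (K - 3) := one_le_pow₀ (by norm_num)
      rw [h7] at h6
      linarith
    exact_mod_cast h5
  have ht2 : (t : ℝ) ≤ 2 * Real.log N := by
    have h5 : t ≤ Nat.log 2 Q := by
      refine le_trans ?_ htl
      exact Nat.le_mul_of_pos_left _ hK30
    have h6 : (Nat.log 2 Q : ℝ) ≤ Real.log N / Real.log 2 := by
      rw [le_div_iff₀ (Real.log_pos (by norm_num))]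
      have h7 : ((2 : ℝ) ^ (Nat.log 2 Q)) ≤ N := by
        have h8 : 2 ^ Nat.log 2 Q ≤ Q := Nat.pow_log_le_self 2 (by omega)
        have h9 : ((2 ^ Nat.log 2 Q : ℕ) : ℝ) ≤ Q := by exact_mod_cast h8
        push_cast at h9
        linarith
      have h10 := Real.log_le_log (by positivity) h7
      rwa [Real.log_pow] at h10
    have h7 : Real.log N / Real.log 2 ≤ 2 * Real.log N := by
      rw [div_le_iff₀ (Real.log_pos (by norm_num))]
      have h8 := Real.log_two_gt_d9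
      have h9 : 0 ≤ Real.log N := Real.log_natCast_nonneg N
      calc Real.log N = Real.log N * 1 := (mul_one _).symm
        _ ≤ Real.log N * (2 * Real.log 2) := mul_le_mul_of_nonneg_left (by linarith) h9
        _ = 2 * Real.log N * Real.log 2 := by ring
    have : (t : ℝ) ≤ Nat.log 2 Q := by exact_mod_cast h5
    linarith
  have ht1R : (1 : ℝ) ≤ t := by exact_mod_cast ht1
  have hC1R : (1 : ℝ) ≤ C1 := by exact_mod_cast hC1pos
  have hTx : 10 * (C1 : ℝ) * (t : ℝ) ^ 2 ≤ x := by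
    refine le_trans ?_ h2
    apply mul_le_mul_of_nonneg_left _ (by positivity)
    exact pow_le_pow_left₀ (by positivity) ht2 2
  have ht4 : 4 * (K : ℝ) * q * t ≤ x := by
    have h5 : 4 * (K : ℝ) * q ≤ C1 := by exact_mod_cast hC1big
    have h6 : (t : ℝ) ≤ (t : ℝ) ^ 2 := le_self_pow₀ ht1R (by norm_num)
    calc 4 * (K : ℝ) * q * t ≤ C1 * (t : ℝ) ^ 2 := by
          apply mul_le_mul h5 h6 (by positivity) (by positivity)
      _ ≤ 10 * (C1 : ℝ) * (t : ℝ) ^ 2 :=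
          mul_le_mul_of_nonneg_right (by linarith) (by positivity)
      _ ≤ x := hTx
  -- the number of constraints
  have hmn : m ≤ 2 * K * q * n := by
    rw [hm]
    have h5 : 1 ≤ K * n := Nat.mul_pos (by omega) hn0
    calc (K * n + 1) * q ≤ (K * n + K * n) * q := Nat.mul_le_mul_right _ (by omega)
      _ = 2 * K * q * n := by ring
  have hm0 : 0 < m := by
    rw [hm]
    positivity
  have htm : (t : ℝ) * m + 1 ≤ x ^ 6 := by
    have h5 : (m : ℝ) ≤ 2 * K * q * n := by exact_mod_cast hmn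
    have h6 : (1 : ℝ) ≤ t * m := by
      have : 1 ≤ t * m := Nat.mul_pos ht1 hm0
      exact_mod_cast this
    calc (t : ℝ) * m + 1 ≤ 2 * (t * m) := by linarith
      _ ≤ 2 * (t * (2 * K * q * n)) := by
          apply mul_le_mul_of_nonneg_left _ (by norm_num)
          exact mul_le_mul_of_nonneg_left h5 (by positivity)
      _ = (4 * K * q * t) * n := by ring
      _ ≤ x * x ^ 5 := mul_le_mul ht4 hn1 (by positivity) (by positivity)
      _ = x ^ 6 := by ring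
  -- the size of a block
  have hbsize : (2 : ℝ) ^ (t * a) ≤ (N : ℝ) ^ (δ / 2) := by
    have h5 : (2 : ℝ) ^ (t * a) = ((2 : ℝ) ^ ((K - 3) * t)) ^ ((a : ℝ) / ((K - 3 : ℕ) : ℝ)) := by
      have hK0 : (((K - 3 : ℕ) : ℝ)) ≠ 0 := by
        have : (0 : ℝ) < ((K - 3 : ℕ) : ℝ) := by exact_mod_cast hK30
        exact ne_of_gt this
      rw [← Real.rpow_natCast, ← Real.rpow_natCast, ← Real.rpow_mul (by norm_num)]
      congr 1
      push_cast
      field_simp
    rw [h5]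
    calc ((2 : ℝ) ^ ((K - 3) * t)) ^ ((a : ℝ) / ((K - 3 : ℕ) : ℝ))
        ≤ (N : ℝ) ^ ((a : ℝ) / ((K - 3 : ℕ) : ℝ)) :=
          Real.rpow_le_rpow (by positivity) (hy1R.trans (hQ2.trans hZleN)) (by positivity)
      _ ≤ (N : ℝ) ^ (δ / 2) := Real.rpow_le_rpow_of_exponent_le hN1 hexp
  have hδ2 : (N : ℝ) ^ (δ / 2) ≤ (N : ℝ) ^ δ :=
    Real.rpow_le_rpow_of_exponent_le hN1 (by linarith)
  -- the number of blocks
  obtain ⟨M, hM⟩ : ∃ M, M = (t * m + 1) * q ^ t / 8 := ⟨_, rfl⟩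
  have hM1 : 8 * M ≤ (t * m + 1) * q ^ t := by
    rw [hM]
    exact Nat.mul_div_le _ _
  have hM2 : (t * m + 1) * q ^ t ≤ 16 * M := by
    have h5 : (t * m + 1) * q ^ t < 8 * (M + 1) := by
      rw [hM]
      exact Nat.lt_mul_div_succ _ (by norm_num)
    have h6 : 8 ≤ (t * m + 1) * q ^ t := by
      calc 8 ≤ q := hq8
        _ = q ^ 1 := (pow_one q).symm
        _ ≤ q ^ t := Nat.pow_le_pow_right (by omega) ht1
        _ ≤ (t * m + 1) * q ^ t := Nat.le_mul_of_pos_left _ (by omega)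
    omega
  have hqt : q ^ t * 2 ^ (t * a) = 2 ^ ((K - 3) * t) := by
    rw [hq, ← pow_mul, ← pow_add]
    congr 1
    have h5 : K - 3 = (K - a - 3) + a := by omega
    rw [h5]
    ring
  have hqtR : (q : ℝ) ^ t * 2 ^ (t * a) = 2 ^ ((K - 3) * t) := by exact_mod_cast hqt
  refine ⟨M, t * a, hbsize.trans hδ2, ?_, ?_⟩
  · -- enough room
    have h5 : (8 : ℝ) * M ≤ (t * m + 1) * q ^ t := by exact_mod_cast hM1
    have h6 : (8 : ℝ) * (M * 2 ^ (t * a)) ≤ x ^ 6 * Z := by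
      calc (8 : ℝ) * (M * 2 ^ (t * a)) = 8 * M * 2 ^ (t * a) := by ring
        _ ≤ (t * m + 1) * q ^ t * 2 ^ (t * a) := mul_le_mul_of_nonneg_right h5 (by positivity)
        _ = (t * m + 1) * 2 ^ ((K - 3) * t) := by rw [← hqtR]; ring
        _ ≤ _ := by
          apply mul_le_mul htm (hy1R.trans hQ2) (by positivity) (by positivity)
    have h8 : (M : ℝ) * 2 ^ (t * a) ≤ N := by
      rw [mul_comm (x ^ 6) Z, hZN] at h6
      linarith
    exact_mod_cast h8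
  · intro W blk R hR hsep s' hs'
    obtain ⟨s, hs⟩ : ∃ s, s = n / (C1 * t ^ 2) := ⟨_, rfl⟩
    obtain ⟨u, hu⟩ : ∃ u, u = ⌈x ^ 4⌉₊ := ⟨_, rfl⟩
    have hCt : 0 < C1 * t ^ 2 := by positivity
    have hCtR : (0 : ℝ) < C1 * t ^ 2 := by positivity
    have hs1 : 5 * x ^ 4 - 1 ≤ s := by
      have h5 : n < C1 * t ^ 2 * (s + 1) := by
        rw [hs]
        exact Nat.lt_mul_div_succ _ hCt
      have h6 : (n : ℝ) < C1 * t ^ 2 * (s + 1) := by exact_mod_cast h5
      have h7 : x ^ 5 / 2 < C1 * t ^ 2 * (s + 1) := lt_of_le_of_lt hn2 h6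
      have h8 : (10 * (C1 : ℝ) * (t : ℝ) ^ 2) * x ^ 4 ≤ x ^ 5 := by
        calc (10 * (C1 : ℝ) * (t : ℝ) ^ 2) * x ^ 4 ≤ x * x ^ 4 :=
              mul_le_mul_of_nonneg_right hTx (by positivity)
          _ = x ^ 5 := by ring
      have h9 : (C1 * (t : ℝ) ^ 2) * (5 * x ^ 4) ≤ (C1 * (t : ℝ) ^ 2) * (s + 1) := by
        have : (C1 * (t : ℝ) ^ 2) * (5 * x ^ 4) = (10 * (C1 : ℝ) * (t : ℝ) ^ 2) * x ^ 4 / 2 := by
          ring
        rw [this]
        linarith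
      have h10 := le_of_mul_le_mul_left h9 hCtR
      linarith
    have hx41 : x ≤ x ^ 4 := by
      calc x = x ^ 1 := (pow_one x).symm
        _ ≤ x ^ 4 := pow_le_pow_right₀ hx1' (by norm_num)
    have hu1 : x ^ 4 ≤ u := by
      rw [hu]
      exact Nat.le_ceil _
    have hu2 : (u : ℝ) < x ^ 4 + 1 := by
      rw [hu]
      exact Nat.ceil_lt_add_one (by positivity)
    have hus : 2 * u ≤ s := by
      have h5 : (2 * u : ℝ) ≤ s := by linarith
      exact_mod_cast h5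
    have hst : 2 * t ≤ s := by
      have h5 : (t : ℝ) ≤ x := by
        have h6 : (t : ℝ) ≤ (t : ℝ) ^ 2 := le_self_pow₀ ht1R (by norm_num)
        have h7 : (t : ℝ) ^ 2 ≤ 10 * (C1 : ℝ) * (t : ℝ) ^ 2 := by
          apply le_mul_of_one_le_left (by positivity)
          linarith
        linarith
      have h6 : (2 * t : ℝ) ≤ s := by linarith
      exact_mod_cast h6
    by_contra hcon
    rw [not_le] at hcon
    have hsu : s' ≤ 2 ^ u := by
      have h5 : (s' : ℝ) ≤ 2 ^ u := by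
        calc (s' : ℝ) ≤ (2 : ℝ) ^ ((N : ℝ) ^ (δ / 2)) := hcon.le
          _ ≤ (2 : ℝ) ^ ((u : ℕ) : ℝ) := by
              apply Real.rpow_le_rpow_of_exponent_le (by norm_num)
              rw [hx4]
              exact hu1
          _ = 2 ^ u := Real.rpow_natCast _ _
      exact_mod_cast h5
    refine chi_core a K q n m t M (t * a) s u (2 * K * q * t) hK (by omega) hq hn0 hm ht1 ?_ ?_
      hst hus hM1 (le_refl _) W blk R hR ((N : ℝ) ^ δ) ((N : ℝ) ^ (1 - δ))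
      (hbsize.trans hδ2) ?_ hsep (fun ω => (hs' ω).trans hsu)
    · calc t * m ≤ t * (2 * K * q * n) := Nat.mul_le_mul_left _ hmn
        _ = 2 * K * q * t * n := by ring
    · have := Nat.div_mul_le_self n (C1 * t ^ 2)
      rw [← hs] at this
      refine le_trans (le_of_eq ?_) this
      rw [hC1]
      ring
    · have h5 : ((t * m + 1 : ℕ) : ℝ) * q ^ t ≤ 16 * M := by exact_mod_cast hM2
      have h6 : ((t * m : ℕ) : ℝ) * 2 ^ ((K - 3) * t) ≤ 16 * (M * 2 ^ (t * a)) := by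
        calc ((t * m : ℕ) : ℝ) * 2 ^ ((K - 3) * t)
            ≤ ((t * m + 1 : ℕ) : ℝ) * 2 ^ ((K - 3) * t) := by
              apply mul_le_mul_of_nonneg_right _ (by positivity)
              push_cast
              linarith
          _ = (((t * m + 1 : ℕ) : ℝ) * q ^ t) * 2 ^ (t * a) := by rw [← hqtR]; ring
          _ ≤ (16 * M) * 2 ^ (t * a) := mul_le_mul_of_nonneg_right h5 (by positivity)
          _ = _ := by ring
      have h7 : (2 : ℝ) ^ (K + 1) = 16 * 2 ^ (K - 3) := by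
        have : K + 1 = (K - 3) + 4 := by omega
        rw [this, pow_add]
        norm_num
        ring
      have hP0 : (0 : ℝ) < 2 ^ (K - 3) := by positivity
      have h8 : (N : ℝ) ^ (1 - δ) * (16 * 2 ^ (K - 3)) ≤ 2 ^ ((K - 3) * t) * 2 ^ (K - 3) := by
        calc (N : ℝ) ^ (1 - δ) * (16 * 2 ^ (K - 3)) ≤ (N : ℝ) ^ (1 - δ) * x ^ 2 := by
              apply mul_le_mul_of_nonneg_left _ (by positivity)
              rw [← h7]
              exact h1.trans (le_self_pow₀ hx1' (by norm_num))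
          _ = Z := hZY
          _ ≤ _ := hy2R
      have h9 : (N : ℝ) ^ (1 - δ) * 16 ≤ 2 ^ ((K - 3) * t) := by
        have h10 : ((N : ℝ) ^ (1 - δ) * 16) * 2 ^ (K - 3) ≤
            2 ^ ((K - 3) * t) * 2 ^ (K - 3) := by
          calc ((N : ℝ) ^ (1 - δ) * 16) * 2 ^ (K - 3) =
              (N : ℝ) ^ (1 - δ) * (16 * 2 ^ (K - 3)) := by ring
            _ ≤ _ := h8
        exact le_of_mul_le_mul_right h10 hP0
      have h10 : 16 * ((N : ℝ) ^ (1 - δ) * ((t * m : ℕ) : ℝ)) ≤ 16 * (M * 2 ^ (t * a)) := by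
        calc 16 * ((N : ℝ) ^ (1 - δ) * ((t * m : ℕ) : ℝ)) =
              ((t * m : ℕ) : ℝ) * ((N : ℝ) ^ (1 - δ) * 16) := by ring
          _ ≤ ((t * m : ℕ) : ℝ) * 2 ^ ((K - 3) * t) :=
              mul_le_mul_of_nonneg_left h9 (Nat.cast_nonneg _)
          _ ≤ _ := h6
      linarith

end Pool.Agent.H550R2.Cl
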