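import Pool.Agent.H550R2.Cl.Par

set_option autoImplicit false
set_option linter.unusedSectionVars false

/-! Blocks of sampled constraints: the core of the lower bound with a polynomial gap. -/

namespace Pool.Agent.H550R2.Cl

open Finset Pool.Agent.H550R2.Lift
open Pool.Agent.H550R2.Neg (RSDP acc_close)
open Pool.Agent.H30R2.NS (choose_le)

/-- the test given by a small set of constraints -/
def PassS {m t : ℕ} (n : ℕ) (S : Finset (Fin m)) (y : Fin t → Fin m) : Prop :=
  S.card < n + 1 ∧ ∀ s, y s ∈ S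

theorem half_pow {x : ℝ} (m : ℕ) (hx : 0 ≤ x) (h : x ≤ 1 / 2) (P : ℝ) (hP : P ≤ 2 ^ m) :
    P * x ^ (m + 1) < 1 := by
  have h1 : x ^ (m + 1) ≤ (1 / 2) ^ (m + 1) := pow_le_pow_left₀ hx h _
  have h2 : (2 : ℝ) ^ m * (1 / 2) ^ (m + 1) = 1 / 2 := by
    rw [pow_succ, ← mul_assoc, ← mul_pow]
    norm_num
  calc P * x ^ (m + 1) ≤ 2 ^ m * x ^ (m + 1) := mul_le_mul_of_nonneg_right hP (by positivity)
    _ ≤ 2 ^ m * (1 / 2) ^ (m + 1) := mul_le_mul_of_nonneg_left h1 (by positivity)
    _ < 1 := by rw [h2]; norm_num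

theorem poly_core (a K q n m t M b s u : ℕ) (hK : K = 2 ^ a - 1) (ha : a + 3 ≤ K)
    (hq : q = 2 ^ (K - a - 3)) (hn : 0 < n) (hm : m = (n + 1) * q)
    (hs : 1354752 * 4 ^ K * (2 * q) ^ 2 * (2 * s) ≤ n) (hst : 2 * t ≤ s) (hu : 2 * u ≤ s)
    (hM : 8 * M ≤ (m + 1) * q ^ t) (hb : t * a ≤ b) (W : Type) [Finite W]
    (blk : Fin M × (Fin b → ZMod 2) ↪ W) (R : RSDP (Sym2 W)) (hR : TransSym R blk)
    (hsep : SepClique R M m) (hD : ∀ ω, Fintype.card (R.D ω) ≤ 2 ^ u) : False := by
  classical
  have hq0 : 0 < q := by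
    rw [hq]
    positivity
  have hm0 : 0 < m := by
    rw [hm]
    positivity
  have hne : Nonempty (Fin m) := ⟨⟨0, hm0⟩⟩
  have hqR : (0 : ℝ) < q := by exact_mod_cast hq0
  have he1 := Real.exp_one_lt_d9
  -- the blocks
  obtain ⟨σ, hσ⟩ := sample (X := Finset (Fin m)) (Y := Fin t → Fin m) (B := Fin M) (m + 1)
    (fun _ S y => PassS n S y) ((1 / q) ^ t)
    (by
      intro i S
      have h2 : (Fintype.card (Fin t → Fin m) : ℝ) = ((n + 1) * q) ^ t := by
        rw [Fintype.card_fun, Fintype.card_fin, Fintype.card_fin, hm]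
        push_cast
        ring
      rw [h2, ← mul_pow]
      have h3 : 1 / (q : ℝ) * ((n + 1) * q) = n + 1 := by field_simp
      rw [h3]
      by_cases hS : S.card < n + 1
      · have h4 : (univ.filter fun y : Fin t → Fin m => PassS n S y) ⊆
            Fintype.piFinset fun _ => S := by
          intro y hy
          rw [Fintype.mem_piFinset]
          exact (Finset.mem_filter.1 hy).2.2
        have h5 := Finset.card_le_card h4
        rw [Fintype.card_piFinset, Finset.prod_const, Finset.card_univ, Fintype.card_fin] at h5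
        have h6 : S.card ^ t ≤ (n + 1) ^ t := Nat.pow_le_pow_left hS.le t
        have h7 := h5.trans h6
        exact_mod_cast h7
      · have h4 : (univ.filter fun y : Fin t → Fin m => PassS n S y) = ∅ := by
          rw [Finset.filter_eq_empty_iff]
          intro y _ h
          exact hS h.1
        rw [h4, Finset.card_empty, Nat.cast_zero]
        positivity)
    (by
      rw [Fintype.card_finset, Fintype.card_fin, Fintype.card_fin, mul_assoc]
      have h1 := choose_le M (Nat.succ_pos m)
      have h2 : ((M.choose (m + 1) : ℕ) : ℝ) * ((1 / q) ^ t) ^ (m + 1) ≤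
          (Real.exp 1 * M / ((m + 1 : ℕ) : ℝ) * (1 / q) ^ t) ^ (m + 1) := by
        rw [mul_pow]
        exact mul_le_mul_of_nonneg_right h1 (by positivity)
      have hx : Real.exp 1 * M / ((m + 1 : ℕ) : ℝ) * (1 / q) ^ t ≤ 1 / 2 := by
        have h3 : (8 : ℝ) * M ≤ ((m + 1 : ℕ) : ℝ) * q ^ t := by exact_mod_cast hM
        rw [one_div, inv_pow, ← div_eq_mul_inv, div_div, div_le_div_iff₀ (by positivity)
          (by norm_num)]
        have h4 : (0 : ℝ) ≤ M := Nat.cast_nonneg _
        nlinarith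
      refine lt_of_le_of_lt (mul_le_mul_of_nonneg_left h2 (Nat.cast_nonneg _)) ?_
      apply half_pow m (by positivity) hx
      push_cast
      exact le_refl _)
  -- the system
  let g : Fin t × Fin a → Fin b := fun p => Fin.castLE hb (finProdFinEquiv p)
  have hg : Function.Injective g := by
    intro p p' h
    exact finProdFinEquiv.injective (Fin.castLE_injective hb h)
  obtain ⟨T, hT⟩ := main_pair (E := Fin m) (V := Fin n) (L := Pos a) R blk hR (lamP_ne a)
    (lamP_inj a) hg σ (by rw [Fintype.card_fin]; exact hn) s (2 * q) (by omega)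
    (by
      rw [Fintype.card_fin, Fintype.card_fin, hm]
      nlinarith)
    (by
      rw [card_Pos, Fintype.card_fin, ← hK]
      exact hs) hst u hu hD
  -- the constants
  obtain ⟨f, hf⟩ := sample (X := Fin n → ZMod 2) (Y := Pos a → ZMod 2) (B := Fin m) (n + 1)
    (fun j x y => Pt1 (lamP a) (fun l => x (T (j, l))) y) ((2 ^ a : ℕ) / (2 ^ K : ℕ))
    (by
      intro j x
      have h1 := card_points1 (lamP a) (fun l => x (T (j, l)))
      have h2 : Fintype.card (Pos a → ZMod 2) = 2 ^ K := by
        rw [Fintype.card_fun, ZMod.card, card_Pos, hK]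
      rw [h2, div_mul_cancel₀ _ (by positivity)]
      exact Nat.cast_le.2 h1)
    (by
      rw [Fintype.card_fun, ZMod.card, Fintype.card_fin, Fintype.card_fin, mul_assoc]
      have h1 := choose_le m (Nat.succ_pos n)
      have h2 : ((m.choose (n + 1) : ℕ) : ℝ) * (((2 ^ a : ℕ) : ℝ) / (2 ^ K : ℕ)) ^ (n + 1) ≤
          (Real.exp 1 * m / ((n + 1 : ℕ) : ℝ) * (((2 ^ a : ℕ) : ℝ) / (2 ^ K : ℕ))) ^ (n + 1) := by
        rw [mul_pow]
        exact mul_le_mul_of_nonneg_right h1 (by positivity)
      have hx : Real.exp 1 * m / ((n + 1 : ℕ) : ℝ) * (((2 ^ a : ℕ) : ℝ) / (2 ^ K : ℕ)) ≤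
          1 / 2 := by
        have h3 : ((q : ℕ) : ℝ) * (2 ^ a : ℕ) * 8 = (2 ^ K : ℕ) := by
          have h4 : q * 2 ^ a * 8 = 2 ^ K := by
            rw [hq]
            calc 2 ^ (K - a - 3) * 2 ^ a * 8 = 2 ^ (K - a - 3) * 2 ^ a * 2 ^ 3 := by norm_num
              _ = 2 ^ (K - a - 3 + a + 3) := by rw [← pow_add, ← pow_add]
              _ = 2 ^ K := by
                congr 1
                omega
          exact_mod_cast h4
        have h5 : Real.exp 1 * m / ((n + 1 : ℕ) : ℝ) * (((2 ^ a : ℕ) : ℝ) / (2 ^ K : ℕ)) =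
            Real.exp 1 / 8 := by
          rw [← h3, hm]
          have h6 : (((2 ^ a : ℕ) : ℝ)) ≠ 0 := by positivity
          push_cast
          field_simp
        rw [h5, div_le_div_iff₀ (by norm_num) (by norm_num)]
        linarith
      refine lt_of_le_of_lt (mul_le_mul_of_nonneg_left h2 (Nat.cast_nonneg _)) ?_
      apply half_pow n (by positivity) hx
      push_cast
      exact le_refl _)
  let c : Fin m × Pos a → ZMod 2 := fun x => f x.1 x.2
  apply sep_false hsep (cg blk (lamP a) g σ T 0) (cg blk (lamP a) g σ T c) _ _ (hT _ _) (hT _ _)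
  · have := clique_zero blk (lamP a) g σ T
    rw [Fintype.card_fin] at this
    exact_mod_cast this
  · have h1 : (cg blk (lamP a) g σ T c).cliqueNum < m + 1 := by
      apply cliqueNum_le (by omega)
      intro x
      let S : Finset (Fin m) := univ.filter fun j => SatC (lamP a) T c x j
      have hS : S.card < n + 1 := by
        refine lt_of_le_of_lt (Finset.card_le_card ?_) (hf x)
        intro j hj
        exact Finset.mem_filter.2 ⟨Finset.mem_univ _, (Finset.mem_filter.1 hj).2⟩
      refine lt_of_le_of_lt (Finset.card_le_card ?_) (hσ S)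
      intro i hi
      exact Finset.mem_filter.2 ⟨Finset.mem_univ _, hS, fun s' =>
        Finset.mem_filter.2 ⟨Finset.mem_univ _, (Finset.mem_filter.1 hi).2 s'⟩⟩
    have h2 : (cg blk (lamP a) g σ T c).cliqueNum ≤ m := by omega
    exact_mod_cast h2

end Pool.Agent.H550R2.Cl
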