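import Pool.Agent.H550R2.Cl.CountS
import Pool.Agent.H550R2.Cl.Quad
import Pool.Agent.H550R2.Cl.PolyCore

set_option autoImplicit false
set_option linter.unusedSectionVars false

/-! The chromatic number: systems that consist of independent copies with slices. -/

namespace Pool.Agent.H550R2.Cl

open Finset Pool.Agent.H550R2.Lift
open Pool.Agent.H550R2.Neg (RSDP acc_close)
open Pool.Agent.H30R2.NS (choose_le)

/-- The graph can be coloured with at most `k` colours. -/
def SmallChi {W : Type} (G : SimpleGraph W) (k : ℝ) : Prop :=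
  ∃ n : ℕ, (n : ℝ) ≤ k ∧ G.Colorable n

/-- All colourings of the graph have at least `K` colours. -/
def LargeChi {W : Type} (G : SimpleGraph W) (K : ℝ) : Prop :=
  ∀ n : ℕ, G.Colorable n → K ≤ (n : ℝ)

/-- The random program tells graphs that can be coloured with `k` colours from graphs that cannot
be coloured with fewer than `K` colours: the acceptance probabilities of the two kinds of graphs
are separated by a gap of `1 / 3`, for instance `2 / 3` against `1 / 3`, or `1 / 2` against `0`
(one-sided error). Either kind may be the accepted one. -/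
def SepChi {W : Type} (R : RSDP (Sym2 W)) (k K : ℝ) : Prop :=
  ∃ p : ℝ, (∀ G : SimpleGraph W, (SmallChi G k → p + 1 / 3 ≤ R.acc G.edgeSet) ∧
    (LargeChi G K → R.acc G.edgeSet ≤ p)) ∨
  ∀ G : SimpleGraph W, (SmallChi G k → R.acc G.edgeSet ≤ p) ∧
    (LargeChi G K → p + 1 / 3 ≤ R.acc G.edgeSet)

theorem SmallChi.mono {W : Type} {G : SimpleGraph W} {k k' : ℝ} (h : SmallChi G k) (hk : k ≤ k') :
    SmallChi G k' := by
  obtain ⟨n, h1, h2⟩ := h
  exact ⟨n, h1.trans hk, h2⟩

theorem LargeChi.mono {W : Type} {G : SimpleGraph W} {K K' : ℝ} (h : LargeChi G K) (hK : K' ≤ K) :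
    LargeChi G K' :=
  fun n hn => hK.trans (h n hn)

theorem SepChi.mono {W : Type} {R : RSDP (Sym2 W)} {k K k' K' : ℝ} (h : SepChi R k K)
    (hk : k' ≤ k) (hK : K ≤ K') : SepChi R k' K' := by
  obtain ⟨p, h | h⟩ := h
  · exact ⟨p, Or.inl fun G => ⟨fun h1 => (h G).1 (h1.mono hk), fun h1 => (h G).2 (h1.mono hK)⟩⟩
  · exact ⟨p, Or.inr fun G => ⟨fun h1 => (h G).1 (h1.mono hk), fun h1 => (h G).2 (h1.mono hK)⟩⟩

section col

variable {L V B W : Type} [Fintype L] [DecidableEq L]
  [Fintype V] [DecidableEq V] [Fintype B] [DecidableEq B] {a t b m : ℕ}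

/-- the slice of a position: the copy and the functional -/
def kap : (Fin t × Fin m) × L → Fin t × L := fun x => (x.1.1, x.2)

/-- a block consists of one constraint of every copy -/
def cop (σ : B → Fin t → Fin m) : B → Fin t → Fin t × Fin m := fun i s => (s, σ i s)

theorem cons_same (lam : L → Fin a → ZMod 2) (g : Fin t × Fin a → Fin b)
    (σ : B → Fin t → Fin m) (T : (Fin t × Fin m) × L → V) (i i' : B) (z : Fin b → ZMod 2) :
    Cons lam g (cop σ) (slc kap T) 0 (i, z) (i', z) := by
  rintro ⟨b1, s1, l1⟩ ⟨b2, s2, l2⟩ h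
  have h1 : kap (pos (cop σ) i i' (b1, s1, l1)) = kap (pos (cop σ) i i' (b2, s2, l2)) :=
    congrArg Prod.fst h
  have h2 : ∀ (b1 : Bool) (s1 : Fin t) (l1 : L),
      kap (pos (cop σ) i i' (b1, s1, l1)) = (s1, l1) := by
    intro b1 s1 l1
    cases b1 <;> rfl
  rw [h2, h2] at h1
  have h3 : s1 = s2 := congrArg Prod.fst h1
  have h4 : l1 = l2 := congrArg Prod.snd h1
  subst h3
  subst h4
  cases b1 <;> cases b2 <;> rfl

open Classical in
/-- **Completeness**: few colours suffice if there are no constants. -/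
theorem col_zero (blk : B × (Fin b → ZMod 2) ↪ W) (lam : L → Fin a → ZMod 2)
    (g : Fin t × Fin a → Fin b) (σ : B → Fin t → Fin m) (T : (Fin t × Fin m) × L → V) :
    (hg blk lam g (cop σ) (slc kap T) 0).Colorable (2 ^ b) := by
  let col : W → (Fin b → ZMod 2) := fun w => if h : ∃ x, blk x = w then h.choose.2 else 0
  have hcol : ∀ x, col (blk x) = x.2 := by
    intro x
    have h : ∃ x', blk x' = blk x := ⟨x, rfl⟩
    show (if h : ∃ x', blk x' = blk x then h.choose.2 else 0) = x.2
    rw [dif_pos h, blk.injective h.choose_spec]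
  have hC : (hg blk lam g (cop σ) (slc kap T) 0).Coloring (Fin b → ZMod 2) := by
    refine SimpleGraph.Coloring.mk col ?_
    rintro u w ⟨x, y, rfl, rfl, h1, h2⟩ heq
    rw [hcol, hcol] at heq
    rcases h2 with h2 | h2
    · exact h1 (Prod.ext h2 heq)
    · apply h2
      have hx : x = (x.1, y.2) := Prod.ext rfl heq
      have hy : y = (y.1, y.2) := rfl
      rw [hx, hy]
      exact cons_same lam g σ T x.1 y.1 y.2
  have h1 := hC.colorable
  rwa [Fintype.card_fun, ZMod.card, Fintype.card_fin] at h1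

end col

section large

variable {E L V B β W : Type} [Fintype E] [DecidableEq E] [Fintype L] [DecidableEq L]
  [Fintype V] [DecidableEq V] [Fintype B] [DecidableEq B] [Fintype β] [DecidableEq β] {a t : ℕ}

open Classical in
/-- **Soundness**: many colours are necessary if independent sets are small. -/
theorem chi_large {blk : B × (β → ZMod 2) ↪ W} {lam : L → Fin a → ZMod 2}
    {g : Fin t × Fin a → β} {σ : B → Fin t → E} {T : E × L → V} {c : E × L → ZMod 2}
    {s0 : ℕ} (h1 : 1 ≤ s0)
    (h : ∀ x : V → ZMod 2, (univ.filter fun i : B => SatBl lam T c x (σ i)).card ≤ s0)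
    {K : ℝ} (hK : K * s0 ≤ Fintype.card (B × (β → ZMod 2))) :
    LargeChi (hg blk lam g σ T c) K := by
  intro n hn
  obtain ⟨C⟩ := hn
  have h2 : ∀ j : Fin n, ((univ.map blk).filter fun w => C w = j).card ≤ s0 := by
    intro j
    apply indep_sol (blk := blk) (lam := lam) (g := g) (σ := σ) (T := T) (c := c) _ _ h1 h
    · intro v hv w hw hadj
      rw [Finset.mem_filter] at hv hw
      exact C.valid hadj (hv.2.trans hw.2.symm)
    · intro v hv
      rw [Finset.mem_filter] at hv
      obtain ⟨x, -, hx⟩ := Finset.mem_map.1 hv.1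
      exact ⟨x, hx⟩
  have h3 : (univ.map blk).card = ∑ j : Fin n, ((univ.map blk).filter fun w => C w = j).card :=
    Finset.card_eq_sum_card_fiberwise (fun x _ => Finset.mem_coe.2 (Finset.mem_univ _))
  have h4 : (univ.map blk).card ≤ n * s0 := by
    rw [h3]
    calc ∑ j : Fin n, ((univ.map blk).filter fun w => C w = j).card ≤ ∑ _j : Fin n, s0 :=
          Finset.sum_le_sum fun j _ => h2 j
      _ = n * s0 := by rw [Finset.sum_const, Finset.card_univ, Fintype.card_fin, smul_eq_mul]
  rw [Finset.card_map, Finset.card_univ] at h4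
  have h5 : (Fintype.card (B × (β → ZMod 2)) : ℝ) ≤ n * s0 := by exact_mod_cast h4
  have h6 : (0 : ℝ) < s0 := by exact_mod_cast h1
  exact le_of_mul_le_mul_right (hK.trans h5) h6

end large

/-- the test given by small sets of constraints of the copies -/
def PassT {m t : ℕ} (n : ℕ) (S : Fin t → Finset (Fin m)) (y : Fin t → Fin m) : Prop :=
  (∀ s, (S s).card < n + 1) ∧ ∀ s, y s ∈ S s

theorem chi_core (a K q n m t M b s u ρ : ℕ) (hK : K = 2 ^ a - 1) (ha : a + 3 ≤ K)
    (hq : q = 2 ^ (K - a - 3)) (hn : 0 < n) (hm : m = (K * n + 1) * q) (ht : 0 < t)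
    (hρ : t * m ≤ ρ * n)
    (hs : 4096 * K * 26244 ^ K * ρ ^ 2 * (2 * s) ≤ n) (hst : 2 * t ≤ s) (hu : 2 * u ≤ s)
    (hM : 8 * M ≤ (t * m + 1) * q ^ t) (hb : t * a ≤ b) (W : Type)
    (blk : Fin M × (Fin b → ZMod 2) ↪ W) (R : RSDP (Sym2 W)) (hR : TransSym R blk)
    (X Y : ℝ) (hX : (2 : ℝ) ^ b ≤ X) (hY : Y * (t * m : ℕ) ≤ M * 2 ^ b)
    (hsep : SepChi R X Y) (hD : ∀ ω, Fintype.card (R.D ω) ≤ 2 ^ u) : False := by
  classical
  have hq0 : 0 < q := by
    rw [hq]
    positivity
  have hm0 : 0 < m := by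
    rw [hm]
    positivity
  have hρ1 : 1 ≤ ρ := by
    rcases Nat.eq_zero_or_pos ρ with h | h
    · rw [h, zero_mul] at hρ
      have : 0 < t * m := Nat.mul_pos ht hm0
      omega
    · exact h
  have hne : Nonempty (Fin m) := ⟨⟨0, hm0⟩⟩
  have hqR : (0 : ℝ) < q := by exact_mod_cast hq0
  have he1 := Real.exp_one_lt_d9
  set n1 : ℕ := K * n with hn1
  have hn10 : 0 < n1 := Nat.mul_pos (by omega) hn
  -- the blocks
  obtain ⟨σ, hσ⟩ := sample (X := Fin t → Finset (Fin m)) (Y := Fin t → Fin m) (B := Fin M)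
    (t * m + 1) (fun _ S y => PassT n1 S y) ((1 / q) ^ t)
    (by
      intro i S
      have h2 : (Fintype.card (Fin t → Fin m) : ℝ) = ((n1 + 1) * q) ^ t := by
        rw [Fintype.card_fun, Fintype.card_fin, Fintype.card_fin, hm]
        push_cast
        ring
      rw [h2, ← mul_pow]
      have h3 : 1 / (q : ℝ) * ((n1 + 1) * q) = n1 + 1 := by field_simp
      rw [h3]
      by_cases hS : ∀ s, (S s).card < n1 + 1
      · have h4 : (univ.filter fun y : Fin t → Fin m => PassT n1 S y) ⊆
            Fintype.piFinset fun s => S s := by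
          intro y hy
          rw [Fintype.mem_piFinset]
          exact (Finset.mem_filter.1 hy).2.2
        have h5 := Finset.card_le_card h4
        rw [Fintype.card_piFinset] at h5
        have h6 : ∏ s, (S s).card ≤ (n1 + 1) ^ t := by
          calc ∏ s, (S s).card ≤ ∏ _s : Fin t, (n1 + 1) :=
                Finset.prod_le_prod (fun _ _ => Nat.zero_le _) (fun s _ => (hS s).le)
            _ = (n1 + 1) ^ t := by rw [Finset.prod_const, Finset.card_univ, Fintype.card_fin]
        have h7 := h5.trans h6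
        exact_mod_cast h7
      · have h4 : (univ.filter fun y : Fin t → Fin m => PassT n1 S y) = ∅ := by
          rw [Finset.filter_eq_empty_iff]
          intro y _ h
          exact hS h.1
        rw [h4, Finset.card_empty, Nat.cast_zero]
        positivity)
    (by
      have hcX : Fintype.card (Fin t → Finset (Fin m)) = 2 ^ (t * m) := by
        rw [Fintype.card_fun, Fintype.card_finset, Fintype.card_fin, Fintype.card_fin, ← pow_mul,
          mul_comm]
      rw [hcX, Fintype.card_fin, mul_assoc]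
      have h1 := choose_le M (Nat.succ_pos (t * m))
      have h2 : ((M.choose (t * m + 1) : ℕ) : ℝ) * ((1 / q) ^ t) ^ (t * m + 1) ≤
          (Real.exp 1 * M / ((t * m + 1 : ℕ) : ℝ) * (1 / q) ^ t) ^ (t * m + 1) := by
        rw [mul_pow]
        exact mul_le_mul_of_nonneg_right h1 (by positivity)
      have hx : Real.exp 1 * M / ((t * m + 1 : ℕ) : ℝ) * (1 / q) ^ t ≤ 1 / 2 := by
        have h3 : (8 : ℝ) * M ≤ ((t * m + 1 : ℕ) : ℝ) * q ^ t := by exact_mod_cast hM
        rw [one_div, inv_pow, ← div_eq_mul_inv, div_div, div_le_div_iff₀ (by positivity)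
          (by norm_num)]
        have h4 : (0 : ℝ) ≤ M := Nat.cast_nonneg _
        nlinarith
      refine lt_of_le_of_lt (mul_le_mul_of_nonneg_left h2 (Nat.cast_nonneg _)) ?_
      apply half_pow (t * m) (by positivity) hx
      push_cast
      exact le_refl _)
  -- the system
  let g : Fin t × Fin a → Fin b := fun p => Fin.castLE hb (finProdFinEquiv p)
  have hginj : Function.Injective g := by
    intro p p' h
    exact finProdFinEquiv.injective (Fin.castLE_injective hb h)
  have hF : Few (lamP a) (fun T : (Fin t × Fin m) × Pos a → Fin n => slc kap T) s := by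
    apply few_slc (lamP_ne a) (lamP_inj a) (by rw [card_Pos]; omega) kap
      (by rw [Fintype.card_fin]; exact hn) s ρ hρ1
    · rw [Fintype.card_prod, Fintype.card_fin, Fintype.card_fin, Fintype.card_fin]
      exact hρ
    · rw [card_Pos, Fintype.card_fin, ← hK]
      exact hs
  have hneV : Nonempty (Fin n) := ⟨⟨0, hn⟩⟩
  obtain ⟨T, -, hT⟩ := main_pairG (I := Sym2 W) R (fun γ => edPerm (tp blk γ))
    (fun γ γ' => by rw [tp_add, edPerm_mul]) hR (tau g (cop σ)) (tpd g (cop σ))
    (pr_tau g (cop σ)) (tpd_add g (cop σ)) hF u hu hD (fun _ => True) (by simp)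
  have hT' := hT (fun d => (hg blk (lamP a) g (cop σ) (slc kap T) d).edgeSet)
    (fun d y i => hg_sym blk hginj (cop σ) (slc kap T) d y i)
    ((hg_local blk (lamP a) g (cop σ) (slc kap T) (2 * t) (le_refl _)).mono hst)
  -- the constants
  have hf : ∀ s' : Fin t, ∃ f : Fin m → Pos a → ZMod 2, ∀ x : Pos a × Fin n → ZMod 2,
      (univ.filter fun j : Fin m =>
        Pt1 (lamP a) (fun l => x (l, T ((s', j), l))) (f j)).card < n1 + 1 := by
    intro s'
    apply sample (X := Pos a × Fin n → ZMod 2) (Y := Pos a → ZMod 2) (B := Fin m) (n1 + 1)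
      (fun j x y => Pt1 (lamP a) (fun l => x (l, T ((s', j), l))) y) ((2 ^ a : ℕ) / (2 ^ K : ℕ))
    · intro j x
      have h1 := card_points1 (lamP a) (fun l => x (l, T ((s', j), l)))
      have h2 : Fintype.card (Pos a → ZMod 2) = 2 ^ K := by
        rw [Fintype.card_fun, ZMod.card, card_Pos, hK]
      rw [h2, div_mul_cancel₀ _ (by positivity)]
      exact Nat.cast_le.2 h1
    · have hcX : Fintype.card (Pos a × Fin n → ZMod 2) = 2 ^ n1 := by
        rw [Fintype.card_fun, ZMod.card, Fintype.card_prod, Fintype.card_fin, card_Pos, ← hK]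
      rw [hcX, Fintype.card_fin, mul_assoc]
      have h1 := choose_le m (Nat.succ_pos n1)
      have h2 : ((m.choose (n1 + 1) : ℕ) : ℝ) * (((2 ^ a : ℕ) : ℝ) / (2 ^ K : ℕ)) ^ (n1 + 1) ≤
          (Real.exp 1 * m / ((n1 + 1 : ℕ) : ℝ) * (((2 ^ a : ℕ) : ℝ) / (2 ^ K : ℕ))) ^
            (n1 + 1) := by
        rw [mul_pow]
        exact mul_le_mul_of_nonneg_right h1 (by positivity)
      have hx : Real.exp 1 * m / ((n1 + 1 : ℕ) : ℝ) * (((2 ^ a : ℕ) : ℝ) / (2 ^ K : ℕ)) ≤
          1 / 2 := by
        have h3 : ((q : ℕ) : ℝ) * (2 ^ a : ℕ) * 8 = (2 ^ K : ℕ) := by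
          have h4 : q * 2 ^ a * 8 = 2 ^ K := by
            rw [hq]
            calc 2 ^ (K - a - 3) * 2 ^ a * 8 = 2 ^ (K - a - 3) * 2 ^ a * 2 ^ 3 := by norm_num
              _ = 2 ^ (K - a - 3 + a + 3) := by rw [← pow_add, ← pow_add]
              _ = 2 ^ K := by
                congr 1
                omega
          exact_mod_cast h4
        have h5 : Real.exp 1 * m / ((n1 + 1 : ℕ) : ℝ) * (((2 ^ a : ℕ) : ℝ) / (2 ^ K : ℕ)) =
            Real.exp 1 / 8 := by
          rw [← h3, hm]
          have h6 : (((2 ^ a : ℕ) : ℝ)) ≠ 0 := by positivity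
          push_cast
          field_simp
        rw [h5, div_le_div_iff₀ (by norm_num) (by norm_num)]
        linarith
      refine lt_of_le_of_lt (mul_le_mul_of_nonneg_left h2 (Nat.cast_nonneg _)) ?_
      apply half_pow n1 (by positivity) hx
      push_cast
      exact le_refl _
  choose f hf using hf
  let c : (Fin t × Fin m) × Pos a → ZMod 2 := fun x => f x.1.1 x.1.2 x.2
  have hsound : ∀ x : (Fin t × Pos a) × Fin n → ZMod 2,
      (univ.filter fun i : Fin M => SatBl (lamP a) (slc kap T) c x (cop σ i)).card ≤ t * m := by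
    intro x
    let S : Fin t → Finset (Fin m) := fun s' =>
      univ.filter fun j => SatC (lamP a) (slc kap T) c x (s', j)
    have hS : ∀ s', (S s').card < n1 + 1 := by
      intro s'
      refine lt_of_le_of_lt (Finset.card_le_card ?_) (hf s' (fun z => x ((s', z.1), z.2)))
      intro j hj
      exact Finset.mem_filter.2 ⟨Finset.mem_univ _, (Finset.mem_filter.1 hj).2⟩
    rw [← Nat.lt_succ_iff]
    refine lt_of_le_of_lt (Finset.card_le_card ?_) (hσ S)
    intro i hi
    exact Finset.mem_filter.2 ⟨Finset.mem_univ _, hS, fun s' =>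
      Finset.mem_filter.2 ⟨Finset.mem_univ _, (Finset.mem_filter.1 hi).2 s'⟩⟩
  have h1 : SmallChi (hg blk (lamP a) g (cop σ) (slc kap T) 0) X :=
    ⟨2 ^ b, by push_cast; exact hX, col_zero blk (lamP a) g σ T⟩
  have h2 : LargeChi (hg blk (lamP a) g (cop σ) (slc kap T) c) Y := by
    apply chi_large (Nat.mul_pos ht hm0) hsound
    rw [Fintype.card_prod, Fintype.card_fin, Fintype.card_fun, ZMod.card, Fintype.card_fin]
    push_cast at hY ⊢
    exact hY
  have h3 := hT' 0 c
  have h4 := hT' c 0
  obtain ⟨p, h | h⟩ := hsep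
  · have e1 := (h _).1 h1
    have e2 := (h _).2 h2
    linarith
  · have e1 := (h _).1 h1
    have e2 := (h _).2 h2
    linarith

end Pool.Agent.H550R2.Cl
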