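import Pool.Agent.H550R2.Cl.MainG

set_option autoImplicit false
set_option linter.unusedSectionVars false

/-! Systems of constraints whose variables are divided into slices: few of them have short closed
words with a given functional. -/

namespace Pool.Agent.H550R2.Cl

open Finset Pool.Agent.H550R2.Lift
open Pool.Agent.H30R2.NS (pp beta sgn pp_nonneg pp_le_small)
open Pool.Agent.H550R2.Neg (RSDP acc_close)

/-- the system with slices given by `κ` -/
def slc {X Sl V : Type} (κ : X → Sl) (T : X → V) : X → Sl × V := fun x => (κ x, T x)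

section count

variable {X Sl V : Type} [Fintype X] [DecidableEq X] [Fintype Sl] [DecidableEq Sl]
  [Fintype V] [DecidableEq V]

/-- the weight of a word on a slice -/
def wtS (κ : X → Sl) (w : X → ZMod 2) (i : Sl) : ℕ :=
  (univ.filter fun x => w x ≠ 0 ∧ κ x = i).card

theorem sum_wtS (κ : X → Sl) (w : X → ZMod 2) : ∑ i, wtS κ w i = wt w := by
  unfold wtS wt
  rw [Finset.card_eq_sum_card_fiberwise (f := κ) (t := univ) (fun x _ => Finset.mem_univ _)]
  apply Finset.sum_congr rfl
  intro i _
  rw [Finset.filter_filter]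

open Classical in
/-- The number of systems with slices in which a word is closed. -/
theorem count_slc (κ : X → Sl) (w : X → ZMod 2) :
    ((univ.filter fun T : X → V => push (slc κ T) w = 0).card : ℝ) ≤
      (∏ i, pp V (wtS κ w i)) * Fintype.card (X → V) := by
  have h2 : (0 : ℝ) < (2 ^ Fintype.card V) ^ Fintype.card Sl := by positivity
  have key : ((2 : ℝ) ^ Fintype.card V) ^ Fintype.card Sl *
      ((univ.filter fun T : X → V => push (slc κ T) w = 0).card : ℝ) =
      ∑ T : X → V, ∑ a : Sl × V → ZMod 2, sg (∑ x, w x * a (κ x, T x)) := by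
    rw [Finset.card_filter, Nat.cast_sum, Finset.mul_sum]
    apply Finset.sum_congr rfl
    intro T _
    have h3 : ∀ a : Sl × V → ZMod 2, sg (∑ x, w x * a (κ x, T x)) =
        sg (pr (push (slc κ T) w) a) := by
      intro a
      rw [pr_push]
      rfl
    rw [Finset.sum_congr rfl (fun a _ => h3 a)]
    by_cases h : push (slc κ T) w = 0
    · rw [if_pos h, h]
      have h4 : ∀ a : Sl × V → ZMod 2, sg (pr (0 : Sl × V → ZMod 2) a) = 1 := by
        intro a
        rw [pr_zero_left, sg_zero]
      rw [Finset.sum_congr rfl (fun a _ => h4 a), Finset.sum_const, Finset.card_univ,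
        Fintype.card_fun, ZMod.card, Fintype.card_prod, nsmul_eq_mul, ← pow_mul]
      push_cast
      rw [mul_comm (Fintype.card V)]
    · rw [if_neg h, sum_sg_pr _ h]
      push_cast
      ring
  have hsum : ∀ a : Sl × V → ZMod 2, ∑ T : X → V, sg (∑ x, w x * a (κ x, T x)) =
      (Fintype.card (X → V) : ℝ) * ∏ i, beta (fun v => a (i, v)) ^ wtS κ w i := by
    intro a
    have h1 : ∀ T : X → V, sg (∑ x, w x * a (κ x, T x)) = ∏ x, sg (w x * a (κ x, T x)) :=
      fun T => sg_sum _ _
    rw [Finset.sum_congr rfl (fun T _ => h1 T)]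
    have h3 : ∑ T : X → V, ∏ x, sg (w x * a (κ x, T x)) = ∏ x, ∑ v, sg (w x * a (κ x, v)) :=
      (Fintype.prod_sum (fun x v => sg (w x * a (κ x, v)))).symm
    rw [h3]
    have h4 : ∀ x, ∑ v, sg (w x * a (κ x, v)) = (Fintype.card V : ℝ) *
        (if w x ≠ 0 then beta (fun v => a (κ x, v)) else 1) := by
      intro x
      by_cases hx : w x = 0
      · rw [if_neg (not_not.2 hx), mul_one]
        simp_rw [hx, zero_mul, sg_zero]
        rw [Finset.sum_const, Finset.card_univ, nsmul_eq_mul, mul_one]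
      · have hx1 : w x = 1 := (zmod2_cases _).resolve_left hx
        rw [if_pos hx]
        simp_rw [hx1, one_mul]
        rcases Nat.eq_zero_or_pos (Fintype.card V) with hV | hV
        · have : IsEmpty V := Fintype.card_eq_zero_iff.mp hV
          rw [Fintype.sum_empty, hV, Nat.cast_zero, zero_mul]
        · have hVr : (Fintype.card V : ℝ) ≠ 0 := by positivity
          unfold beta
          rw [mul_div_cancel₀ _ hVr]
          rfl
    rw [Finset.prod_congr rfl (fun x _ => h4 x), Finset.prod_mul_distrib, Finset.prod_const,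
      Finset.card_univ, Fintype.card_fun, Nat.cast_pow]
    congr 1
    rw [Finset.prod_ite, Finset.prod_const_one, mul_one]
    rw [← Finset.prod_fiberwise_of_maps_to (g := κ) (t := univ) (fun x _ => Finset.mem_univ _)]
    apply Finset.prod_congr rfl
    intro i _
    rw [Finset.filter_filter]
    have h5 : ∀ x ∈ univ.filter (fun x => w x ≠ 0 ∧ κ x = i),
        beta (fun v => a (κ x, v)) = beta (fun v => a (i, v)) := by
      intro x hx
      rw [(Finset.mem_filter.1 hx).2.2]
    rw [Finset.prod_congr rfl h5, Finset.prod_const]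
    rfl
  have h5 : ((2 : ℝ) ^ Fintype.card V) ^ Fintype.card Sl *
      ((univ.filter fun T : X → V => push (slc κ T) w = 0).card : ℝ) ≤
      (2 ^ Fintype.card V) ^ Fintype.card Sl *
        ((∏ i, pp V (wtS κ w i)) * Fintype.card (X → V)) := by
    rw [key, Finset.sum_comm]
    have h6 : ((2 : ℝ) ^ Fintype.card V) ^ Fintype.card Sl * ∏ i, pp V (wtS κ w i)
        = ∑ a : Sl × V → ZMod 2, ∏ i, |beta (fun v => a (i, v))| ^ wtS κ w i := by
      have h7 : ∀ i, pp V (wtS κ w i) * 2 ^ Fintype.card V =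
          ∑ a : V → ZMod 2, |beta a| ^ wtS κ w i := by
        intro i
        unfold pp
        rw [div_mul_cancel₀]
        positivity
      have h8 : ((2 : ℝ) ^ Fintype.card V) ^ Fintype.card Sl * ∏ i, pp V (wtS κ w i) =
          ∏ i, (pp V (wtS κ w i) * 2 ^ Fintype.card V) := by
        rw [Finset.prod_mul_distrib, Finset.prod_const, Finset.card_univ, mul_comm]
      rw [h8, Finset.prod_congr rfl (fun i _ => h7 i), Fintype.prod_sum]
      exact (Equiv.sum_comp (Equiv.curry Sl V (ZMod 2))
        (fun f => ∏ i, |beta (f i)| ^ wtS κ w i)).symm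
    rw [← mul_assoc, h6, Finset.sum_mul]
    apply Finset.sum_le_sum
    intro a _
    rw [hsum, mul_comm]
    apply mul_le_mul_of_nonneg_right _ (Nat.cast_nonneg _)
    refine (le_abs_self _).trans (le_of_eq ?_)
    rw [Finset.abs_prod]
    apply Finset.prod_congr rfl
    intro i _
    rw [abs_pow]
  exact le_of_mul_le_mul_left h5 h2

theorem pp_zero : pp V 0 = 1 := by
  unfold pp
  simp only [pow_zero]
  rw [Finset.sum_const, Finset.card_univ, Fintype.card_fun, ZMod.card, nsmul_eq_mul, mul_one]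
  push_cast
  exact div_self (by positivity)

theorem prod_pp_le (hV : 0 < Fintype.card V) (κ : X → Sl) (w : X → ZMod 2) (W : ℕ)
    (hW : wt w ≤ W) :
    ∏ i, pp V (wtS κ w i) ≤ (2 * √((W : ℝ) / Fintype.card V)) ^ wt w := by
  rw [← sum_wtS κ w, ← Finset.prod_pow_eq_pow_sum]
  apply Finset.prod_le_prod (fun i _ => pp_nonneg _)
  intro i _
  have hle : wtS κ w i ≤ W := by
    refine le_trans ?_ hW
    rw [← sum_wtS κ w]
    exact Finset.single_le_sum (f := fun i => wtS κ w i) (fun _ _ => Nat.zero_le _)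
      (Finset.mem_univ i)
  rcases Nat.eq_zero_or_pos (wtS κ w i) with h | h
  · rw [h, pp_zero, pow_zero]
  · have h1 := pp_le_small (V := V) hV h
    refine h1.trans ?_
    rw [mul_pow 2]
    apply mul_le_mul _ _ (by positivity) (by positivity)
    · calc (2 : ℝ) = 2 ^ 1 := (pow_one 2).symm
        _ ≤ 2 ^ wtS κ w i := pow_le_pow_right₀ (by norm_num) h
    · apply pow_le_pow_left₀ (by positivity)
      calc √((wtS κ w i : ℝ) / Fintype.card V) * Real.exp (-(1 / 2))
          ≤ √((wtS κ w i : ℝ) / Fintype.card V) * 1 := by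
            apply mul_le_mul_of_nonneg_left _ (Real.sqrt_nonneg _)
            rw [Real.exp_le_one_iff]
            norm_num
        _ ≤ √((W : ℝ) / Fintype.card V) := by
            rw [mul_one]
            apply Real.sqrt_le_sqrt
            apply div_le_div_of_nonneg_right _ (Nat.cast_nonneg _)
            exact_mod_cast hle

end count

section terms

/-- the estimate for one size -/
theorem term_slc (n m l s2 ρ f z : ℕ) (hn : 0 < n) (hl : 0 < l) (hρ : 1 ≤ ρ)
    (hm : m ≤ ρ * n) (hf : f ≤ z) (hz2 : z ≤ s2)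
    (hs : 4096 * l * 26244 ^ l * ρ ^ 2 * s2 ≤ n) :
    (m.choose f : ℝ) * ((2 ^ l) ^ z : ℕ) * (2 * √(((l * z : ℕ) : ℝ) / n)) ^ (z + 2 * f) ≤
      (1 / 32) ^ z := by
  have hn0 : (0 : ℝ) < n := by exact_mod_cast hn
  have hρ0 : (0 : ℝ) < ρ := by exact_mod_cast (by omega : 0 < ρ)
  set y : ℝ := 2 * √(((l * z : ℕ) : ℝ) / n) with hy
  have hy0 : 0 ≤ y := by positivity
  have hy2 : y ^ 2 = 4 * (((l * z : ℕ) : ℝ) / n) := by
    rw [hy, mul_pow, Real.sq_sqrt (by positivity)]
    norm_num
  have h3 : (m.choose f : ℝ) ≤ (m : ℝ) ^ f / f.factorial := Nat.choose_le_pow_div f m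
  have hmn : (m : ℝ) ≤ ρ * n := by exact_mod_cast hm
  -- the factor with the binomial coefficient
  have h4 : (m.choose f : ℝ) * (y ^ 2) ^ f ≤ (ρ * 81 ^ l) ^ z := by
    rw [hy2]
    calc (m.choose f : ℝ) * (4 * (((l * z : ℕ) : ℝ) / n)) ^ f
        ≤ ((m : ℝ) ^ f / f.factorial) * (4 * (((l * z : ℕ) : ℝ) / n)) ^ f :=
          mul_le_mul_of_nonneg_right h3 (by positivity)
      _ = (m / n) ^ f * ((4 * ((l * z : ℕ) : ℝ)) ^ f / f.factorial) := by
          rw [mul_div_assoc', div_pow, div_pow]
          ring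
      _ ≤ (ρ : ℝ) ^ f * Real.exp (4 * ((l * z : ℕ) : ℝ)) := by
          apply mul_le_mul _ _ (by positivity) (by positivity)
          · apply pow_le_pow_left₀ (by positivity)
            rw [div_le_iff₀ hn0]
            exact hmn
          · exact Real.pow_div_factorial_le_exp _ (by positivity) f
      _ ≤ (ρ : ℝ) ^ z * (81 ^ l) ^ z := by
          apply mul_le_mul _ _ (by positivity) (by positivity)
          · apply pow_le_pow_right₀ _ hf
            exact_mod_cast hρ
          · have h5 : 4 * ((l * z : ℕ) : ℝ) = ((4 * l * z : ℕ) : ℝ) * 1 := by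
              push_cast
              ring
            rw [h5, Real.exp_nat_mul, ← pow_mul]
            have h6 : Real.exp 1 ^ (4 * l * z) = (Real.exp 1 ^ 4) ^ (l * z) := by
              rw [← pow_mul, mul_assoc]
            rw [h6]
            apply pow_le_pow_left₀ (by positivity)
            have h7 := Real.exp_one_lt_d9
            calc Real.exp 1 ^ 4 ≤ (3 : ℝ) ^ 4 :=
                  pow_le_pow_left₀ (Real.exp_pos 1).le (by linarith) 4
              _ = 81 := by norm_num
      _ = _ := by rw [mul_pow]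
  -- the square root is small
  have h5 : y ≤ 1 / (32 * 2 ^ l * ρ * 81 ^ l) := by
    apply le_of_sq_le_sq _ (by positivity)
    have h6 : ((4096 * l * 26244 ^ l * ρ ^ 2 * s2 : ℕ) : ℝ) ≤ n := by exact_mod_cast hs
    have h7 : (z : ℝ) ≤ s2 := by exact_mod_cast hz2
    have h8 : ((32 : ℝ) * 2 ^ l * ρ * 81 ^ l) ^ 2 = 1024 * 26244 ^ l * ρ ^ 2 := by
      have e1 : ((2 : ℝ) ^ l) ^ 2 * (81 ^ l) ^ 2 = 26244 ^ l := by
        have e2 : (26244 : ℝ) = 2 ^ 2 * 81 ^ 2 := by norm_num
        rw [e2, mul_pow, ← pow_mul, ← pow_mul, ← pow_mul, ← pow_mul, mul_comm 2 l]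
      calc ((32 : ℝ) * 2 ^ l * ρ * 81 ^ l) ^ 2 = 1024 * ((2 ^ l) ^ 2 * (81 ^ l) ^ 2) * ρ ^ 2 := by
            ring
        _ = _ := by rw [e1]
    rw [hy2, div_pow, one_pow, h8, mul_div_assoc', div_le_div_iff₀ hn0 (by positivity), one_mul]
    calc 4 * ((l * z : ℕ) : ℝ) * (1024 * 26244 ^ l * (ρ : ℝ) ^ 2)
        = (4096 * (l : ℝ) * 26244 ^ l * (ρ : ℝ) ^ 2) * (z : ℝ) := by
          push_cast
          ring
      _ ≤ (4096 * (l : ℝ) * 26244 ^ l * (ρ : ℝ) ^ 2) * (s2 : ℝ) :=
          mul_le_mul_of_nonneg_left h7 (by positivity)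
      _ = ((4096 * l * 26244 ^ l * ρ ^ 2 * s2 : ℕ) : ℝ) := by
          push_cast
          ring
      _ ≤ n := h6
  have h9 : y ^ (z + 2 * f) = (y ^ 2) ^ f * y ^ z := by
    rw [← pow_mul, ← pow_add]
    congr 1
    omega
  calc (m.choose f : ℝ) * ((2 ^ l) ^ z : ℕ) * y ^ (z + 2 * f)
      = ((m.choose f : ℝ) * (y ^ 2) ^ f) * ((2 ^ l) ^ z * y ^ z) := by
        rw [h9]
        push_cast
        ring
    _ ≤ (ρ * 81 ^ l) ^ z * ((2 ^ l) ^ z * (1 / (32 * 2 ^ l * ρ * 81 ^ l)) ^ z) := by
        apply mul_le_mul h4 _ (by positivity) (by positivity)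
        apply mul_le_mul_of_nonneg_left _ (by positivity)
        exact pow_le_pow_left₀ hy0 h5 z
    _ = (1 / 32) ^ z := by
        rw [← mul_pow, ← mul_pow]
        congr 1
        field_simp

/-- the base of the estimate is at most one -/
theorem base_slc (n l s2 ρ z : ℕ) (hn : 0 < n) (hρ : 1 ≤ ρ)
    (hz2 : z ≤ s2) (hs : 4096 * l * 26244 ^ l * ρ ^ 2 * s2 ≤ n) :
    2 * √(((l * z : ℕ) : ℝ) / n) ≤ 1 := by
  have hn0 : (0 : ℝ) < n := by exact_mod_cast hn
  apply le_of_sq_le_sq _ (by norm_num)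
  rw [mul_pow, Real.sq_sqrt (by positivity), one_pow, mul_div_assoc', div_le_one hn0]
  have h1 : 4 * (l * z) ≤ 4096 * l * 26244 ^ l * ρ ^ 2 * s2 := by
    have h2 : 1 ≤ 26244 ^ l := Nat.one_le_pow _ _ (by norm_num)
    have h3 : 1 ≤ ρ ^ 2 := Nat.one_le_pow _ _ hρ
    calc 4 * (l * z) ≤ 4096 * (l * s2) := Nat.mul_le_mul (by norm_num) (Nat.mul_le_mul_left l hz2)
      _ = 4096 * l * 1 * 1 * s2 := by ring
      _ ≤ 4096 * l * 26244 ^ l * ρ ^ 2 * s2 := by
          apply Nat.mul_le_mul_right
          apply Nat.mul_le_mul _ h3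
          exact Nat.mul_le_mul_left _ h2
  have h4 : ((4 * (l * z) : ℕ) : ℝ) ≤ n := by exact_mod_cast h1.trans hs
  push_cast at h4 ⊢
  linarith

end terms

section few

variable {E L V Sl : Type} [Fintype E] [DecidableEq E] [Fintype L] [DecidableEq L]
  [Fintype V] [DecidableEq V] [Fintype Sl] [DecidableEq Sl] {a : ℕ}

theorem wt_le (w : E × L → ZMod 2) : wt w ≤ Fintype.card L * (tch w).card := by
  have h1 : wt w ≤ ((tch w) ×ˢ (univ : Finset L)).card := by
    unfold wt
    apply Finset.card_le_card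
    intro x hx
    rw [Finset.mem_filter] at hx
    rw [Finset.mem_product, mem_tch]
    exact ⟨⟨x.2, hx.2⟩, Finset.mem_univ _⟩
  rw [Finset.card_product, Finset.card_univ, mul_comm] at h1
  exact h1

open Classical in
/-- **The union bound for sliced systems.** -/
theorem few_slc {lam : L → Fin a → ZMod 2} (h0 : ∀ l, lam l ≠ 0) (hi : Function.Injective lam)
    (hL : 0 < Fintype.card L) (κ : E × L → Sl)
    (hV : 0 < Fintype.card V) (s ρ : ℕ) (hρ : 1 ≤ ρ)
    (hm : Fintype.card E ≤ ρ * Fintype.card V)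
    (hs : 4096 * Fintype.card L * 26244 ^ Fintype.card L * ρ ^ 2 * (2 * s) ≤ Fintype.card V) :
    Few lam (fun T : E × L → V => slc κ T) s := by
  intro s1 q
  set N : ℝ := (Fintype.card (E × L → V) : ℝ) with hN
  have hN0 : 0 ≤ N := Nat.cast_nonneg _
  set l := Fintype.card L with hl
  set n := Fintype.card V with hn
  set s2 := 2 * s with hs2
  let Y : ℕ → ℝ := fun z => 2 * √(((l * z : ℕ) : ℝ) / n)
  have hY0 : ∀ z, 0 ≤ Y z := fun z => by positivity
  set 𝒲 : Finset (E × L → ZMod 2) := univ.filter fun w => ev lam w = q ∧ s1 < (tch w).card ∧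
    (tch w).card ≤ s2 with h𝒲
  have h1 : (univ.filter fun T : E × L → V => ∃ w, push (slc κ T) w = 0 ∧ ev lam w = q ∧
      s1 < (tch w).card ∧ (tch w).card ≤ s2) ⊆
      𝒲.biUnion fun w => univ.filter fun T : E × L → V => push (slc κ T) w = 0 := by
    intro T hT
    rw [Finset.mem_filter] at hT
    obtain ⟨w, hw1, hw2⟩ := hT.2
    rw [Finset.mem_biUnion]
    exact ⟨w, Finset.mem_filter.2 ⟨Finset.mem_univ _, hw2⟩,
      Finset.mem_filter.2 ⟨Finset.mem_univ _, hw1⟩⟩
  set Q := tchE q with hQ
  let F : Finset E → ℝ := fun Z => ((2 ^ l) ^ Z.card : ℕ) * Y Z.card ^ (Z.card + 2 * (Z \ Q).card)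
  have hF0 : ∀ Z, 0 ≤ F Z := fun Z => mul_nonneg (Nat.cast_nonneg _) (pow_nonneg (hY0 _) _)
  have h2 : ((univ.filter fun T : E × L → V => ∃ w, push (slc κ T) w = 0 ∧ ev lam w = q ∧
      s1 < (tch w).card ∧ (tch w).card ≤ s2).card : ℝ) ≤
      (∑ Z ∈ univ.filter (fun Z : Finset E => Q ⊆ Z ∧ s1 < Z.card ∧ Z.card ≤ s2), F Z) * N := by
    calc ((univ.filter fun T : E × L → V => ∃ w, push (slc κ T) w = 0 ∧ ev lam w = q ∧
        s1 < (tch w).card ∧ (tch w).card ≤ s2).card : ℝ)
        ≤ ((𝒲.biUnion fun w => univ.filter fun T : E × L → V =>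
            push (slc κ T) w = 0).card : ℝ) := by
          exact_mod_cast Finset.card_le_card h1
      _ ≤ ∑ w ∈ 𝒲, ((univ.filter fun T : E × L → V => push (slc κ T) w = 0).card : ℝ) := by
          exact_mod_cast Finset.card_biUnion_le
      _ ≤ ∑ w ∈ 𝒲, Y (tch w).card ^ ((tch w).card + 2 * (tch w \ Q).card) * N := by
          apply Finset.sum_le_sum
          intro w hw
          rw [h𝒲, Finset.mem_filter] at hw
          refine (count_slc κ w).trans ?_
          apply mul_le_mul_of_nonneg_right _ hN0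
          refine (prod_pp_le hV κ w (l * (tch w).card) (wt_le w)).trans ?_
          apply pow_le_pow_of_le_one (hY0 _)
          · exact base_slc n l s2 ρ (tch w).card hV hρ hw.2.2.2 hs
          · have := wt_ge h0 hi w
            rw [hw.2.1] at this
            exact this
      _ = (∑ w ∈ 𝒲, Y (tch w).card ^ ((tch w).card + 2 * (tch w \ Q).card)) * N := by
          rw [Finset.sum_mul]
      _ ≤ _ := by
          apply mul_le_mul_of_nonneg_right _ hN0
          have hmap : ∀ w ∈ 𝒲, tch w ∈
              univ.filter (fun Z : Finset E => Q ⊆ Z ∧ s1 < Z.card ∧ Z.card ≤ s2) := by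
            intro w hw
            rw [h𝒲, Finset.mem_filter] at hw
            rw [Finset.mem_filter]
            refine ⟨Finset.mem_univ _, ?_, hw.2.2⟩
            have := tchE_sub (lam := lam) w
            rw [hw.2.1] at this
            exact this
          rw [← Finset.sum_fiberwise_of_maps_to hmap]
          apply Finset.sum_le_sum
          intro Z _
          have h3 : ∀ w ∈ 𝒲.filter (fun w => tch w = Z),
              Y (tch w).card ^ ((tch w).card + 2 * (tch w \ Q).card) =
                Y Z.card ^ (Z.card + 2 * (Z \ Q).card) := by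
            intro w hw
            rw [(Finset.mem_filter.1 hw).2]
          rw [Finset.sum_congr rfl h3, Finset.sum_const, nsmul_eq_mul]
          apply mul_le_mul_of_nonneg_right _ (pow_nonneg (hY0 _) _)
          have h4 : (𝒲.filter (fun w => tch w = Z)).card ≤ (2 ^ l) ^ Z.card := by
            refine le_trans (Finset.card_le_card ?_) (card_tch (L := L) Z)
            intro w hw
            rw [Finset.mem_filter] at hw ⊢
            exact ⟨Finset.mem_univ _, hw.2⟩
          exact_mod_cast h4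
  refine h2.trans (mul_le_mul_of_nonneg_right ?_ hN0)
  -- pass to the sets outside `Q`
  set b := Q.card with hb
  let G : ℕ → ℝ := fun f => if s1 < b + f ∧ b + f ≤ s2 then
    ((2 ^ l) ^ (b + f) : ℕ) * Y (b + f) ^ (b + f + 2 * f) else 0
  have hGf : ∀ f, G f = if s1 < b + f ∧ b + f ≤ s2 then
      ((2 ^ l) ^ (b + f) : ℕ) * Y (b + f) ^ (b + f + 2 * f) else 0 := fun f => rfl
  have hG0 : ∀ f, 0 ≤ G f := by
    intro f
    rw [hGf]
    split_ifs
    · exact mul_nonneg (Nat.cast_nonneg _) (pow_nonneg (hY0 _) _)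
    · exact le_refl _
  have h5 : ∑ Z ∈ univ.filter (fun Z : Finset E => Q ⊆ Z ∧ s1 < Z.card ∧ Z.card ≤ s2), F Z ≤
      ∑ Z : Finset E, G Z.card := by
    have h6 : ∀ Z ∈ univ.filter (fun Z : Finset E => Q ⊆ Z ∧ s1 < Z.card ∧ Z.card ≤ s2),
        F Z = G (Z \ Q).card := by
      intro Z hZ
      rw [Finset.mem_filter] at hZ
      have h7 : b + (Z \ Q).card = Z.card := by
        rw [hb, add_comm, Finset.card_sdiff_add_card_eq_card hZ.2.1]
      rw [hGf, h7, if_pos hZ.2.2]
    rw [Finset.sum_congr rfl h6]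
    rw [← Finset.sum_image (f := fun Z => G Z.card) (g := fun Z : Finset E => Z \ Q)]
    · exact Finset.sum_le_sum_of_subset_of_nonneg (Finset.subset_univ _)
        (fun Z _ _ => hG0 _)
    · intro Z hZ Z' hZ' h
      rw [Finset.mem_coe, Finset.mem_filter] at hZ hZ'
      simp only at h
      rw [← Finset.sdiff_union_of_subset hZ.2.1, ← Finset.sdiff_union_of_subset hZ'.2.1, h]
  have h8 : ∑ Z : Finset E, G Z.card =
      ∑ f ∈ range (Fintype.card E + 1), ((Fintype.card E).choose f : ℝ) * G f := by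
    have h := Finset.sum_powerset_apply_card G (x := (univ : Finset E))
    rw [Finset.powerset_univ, Finset.card_univ] at h
    rw [h]
    apply Finset.sum_congr rfl
    intro f _
    rw [nsmul_eq_mul]
  refine h5.trans (h8.le.trans ?_)
  have h9 : ∀ f, ((Fintype.card E).choose f : ℝ) * G f ≤
      if s1 < b + f ∧ b + f ≤ s2 then (1 / 32 : ℝ) ^ (b + f) else 0 := by
    intro f
    rw [hGf]
    by_cases hf : s1 < b + f ∧ b + f ≤ s2
    · rw [if_pos hf, if_pos hf, ← mul_assoc]
      exact term_slc n (Fintype.card E) l s2 ρ f (b + f) hV hL hρ hm (by omega) hf.2 hs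
    · rw [if_neg hf, if_neg hf, mul_zero]
  have h10 : ∑ f ∈ range (Fintype.card E + 1), ((Fintype.card E).choose f : ℝ) * G f ≤
      (1 / 32) ^ (s1 + 1) / (1 - 1 / 32) := by
    calc ∑ f ∈ range (Fintype.card E + 1), ((Fintype.card E).choose f : ℝ) * G f
        ≤ ∑ f ∈ range (Fintype.card E + 1),
          (if s1 < b + f ∧ b + f ≤ s2 then (1 / 32 : ℝ) ^ (b + f) else 0) :=
          Finset.sum_le_sum fun f _ => h9 f
      _ = ∑ f ∈ (range (Fintype.card E + 1)).filter (fun f => s1 < b + f ∧ b + f ≤ s2),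
          (1 / 32 : ℝ) ^ (b + f) := by
          rw [Finset.sum_filter]
      _ = ∑ z ∈ ((range (Fintype.card E + 1)).filter
          (fun f => s1 < b + f ∧ b + f ≤ s2)).image (fun f => b + f), (1 / 32 : ℝ) ^ z := by
          rw [Finset.sum_image]
          intro f _ f' _ h
          exact Nat.add_left_cancel h
      _ ≤ ∑ z ∈ Finset.Ico (s1 + 1) (s2 + 1), (1 / 32 : ℝ) ^ z := by
          refine Finset.sum_le_sum_of_subset_of_nonneg ?_ fun z _ _ => by positivity
          intro z hz
          rw [Finset.mem_image] at hz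
          obtain ⟨f, hf, rfl⟩ := hz
          rw [Finset.mem_filter] at hf
          rw [Finset.mem_Ico]
          omega
      _ ≤ _ := geom_sum_Ico_le_of_lt_one (by norm_num) (by norm_num)
  refine h10.trans ?_
  have h11 : (0 : ℝ) ≤ (1 / 32) ^ (s1 + 1) / (1 - 1 / 32) :=
    div_nonneg (by positivity) (by norm_num)
  linarith

end few

end Pool.Agent.H550R2.Cl
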