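import Pool.Agent.H550R2.Cl.Templ

set_option autoImplicit false
set_option linter.unusedSectionVars false

/-! Exhaustive search as a symmetric linear program. -/

namespace Pool.Agent.H550R2.Cl

open Finset Matrix Pool.Agent.H550R2.Lift

section hull

variable {I : Type} [Fintype I] [DecidableEq I]

/-- the linear program for the convex hull of the sets with a property -/
def hullLP (Q : Finset I → Prop) : SDP I (Finset I) where
  L :=
    { carrier := {q | (∀ X X', X ≠ X' → q.2 X X' = 0) ∧ (∀ X, ¬ Q X → q.2 X X = 0) ∧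
        (∑ X, q.2 X X = 1) ∧ ∀ i, ∑ X, (if i ∈ X then q.2 X X else 0) = q.1 i}
      smul_vsub_vadd_mem' := by
        rintro c p1 p2 p3 ⟨h1, h1a, h1b, h1c⟩ ⟨h2, h2a, h2b, h2c⟩ ⟨h3, h3a, h3b, h3c⟩
        refine ⟨?_, ?_, ?_, ?_⟩
        · intro X X' hne
          show c * (p1.2 X X' - p2.2 X X') + p3.2 X X' = 0
          rw [h1 X X' hne, h2 X X' hne, h3 X X' hne]
          ring
        · intro X hX
          show c * (p1.2 X X - p2.2 X X) + p3.2 X X = 0
          rw [h1a X hX, h2a X hX, h3a X hX]
          ring
        · show ∑ X, (c * (p1.2 X X - p2.2 X X) + p3.2 X X) = 1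
          rw [Finset.sum_add_distrib, ← Finset.mul_sum, Finset.sum_sub_distrib, h1b, h2b, h3b]
          ring
        · intro i
          show ∑ X, (if i ∈ X then c * (p1.2 X X - p2.2 X X) + p3.2 X X else 0) =
            c * (p1.1 i - p2.1 i) + p3.1 i
          rw [← h1c i, ← h2c i, ← h3c i, ← Finset.sum_sub_distrib, Finset.mul_sum,
            ← Finset.sum_add_distrib]
          apply Finset.sum_congr rfl
          intro X _
          split_ifs <;> ring }

theorem hullLP_acc (Q : Finset I → Prop) (S : Finset I) :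
    (hullLP Q).Acc (ind (S : Set I)) ↔ Q S := by
  classical
  constructor
  · rintro ⟨Y, hY, h1, h2, h3, h4⟩
    have hdiag : ∀ X, 0 ≤ Y X X := fun X => hY.diag_nonneg
    have hex : ∃ X, Y X X ≠ 0 := by
      by_contra hn
      rw [not_exists] at hn
      have h5 : ∑ X, Y X X = 0 := Finset.sum_eq_zero fun X _ => not_not.1 (hn X)
      have h6 : ∑ X, Y X X = 1 := h3
      rw [h5] at h6
      exact zero_ne_one h6
    obtain ⟨X, hX⟩ := hex
    have hQ : Q X := by
      by_contra hn
      exact hX (h2 X hn)
    have hXS : X = S := by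
      ext i
      have h5 : ∑ X, (if i ∈ X then Y X X else 0) = ind (S : Set I) i := h4 i
      constructor
      · intro hi
        by_contra hn
        have h6 : ind (S : Set I) i = 0 := by
          unfold ind
          rw [Set.indicator_of_notMem]
          exact hn
        rw [h6] at h5
        have h7 := (Finset.sum_eq_zero_iff_of_nonneg (fun X _ => by
          split_ifs
          · exact hdiag X
          · exact le_rfl)).1 h5 X (Finset.mem_univ _)
        rw [if_pos hi] at h7
        exact hX h7
      · intro hi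
        by_contra hn
        have h6 : ind (S : Set I) i = 1 := by
          unfold ind
          rw [Set.indicator_of_mem (Finset.mem_coe.2 hi)]
          rfl
        rw [h6, ← (h3 : ∑ X, Y X X = 1), eq_comm, ← sub_eq_zero, ← Finset.sum_sub_distrib] at h5
        have h7 := (Finset.sum_eq_zero_iff_of_nonneg (fun X _ => by
          split_ifs
          · rw [sub_self]
          · rw [sub_zero]
            exact hdiag X)).1 h5 X (Finset.mem_univ _)
        rw [if_neg hn, sub_zero] at h7
        exact hX h7
    rwa [← hXS]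
  · intro hQ
    refine ⟨Matrix.diagonal fun X => if X = S then 1 else 0, ?_, ?_, ?_, ?_, ?_⟩
    · apply Matrix.PosSemidef.diagonal
      intro X
      show 0 ≤ if X = S then (1 : ℝ) else 0
      split_ifs <;> norm_num
    · intro X X' hne
      exact Matrix.diagonal_apply_ne _ hne
    · intro X hX
      show Matrix.diagonal (fun X => if X = S then (1 : ℝ) else 0) X X = 0
      rw [Matrix.diagonal_apply_eq, if_neg]
      rintro rfl
      exact hX hQ
    · show ∑ X, Matrix.diagonal (fun X => if X = S then (1 : ℝ) else 0) X X = 1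
      simp_rw [Matrix.diagonal_apply_eq]
      rw [Finset.sum_ite_eq', if_pos (Finset.mem_univ _)]
    · intro i
      show ∑ X, (if i ∈ X then Matrix.diagonal (fun X => if X = S then (1 : ℝ) else 0) X X
        else 0) = ind (S : Set I) i
      simp_rw [Matrix.diagonal_apply_eq]
      rw [Finset.sum_eq_single S]
      · rw [if_pos rfl]
        unfold ind
        rw [Set.indicator_apply]
        rfl
      · intro X _ hX
        rw [if_neg hX, ite_self]
      · intro h
        exact absurd (Finset.mem_univ _) h

theorem hullLP_sym (Q : Finset I → Prop) (p : Equiv.Perm I)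
    (hQ : ∀ X, Q (X.map p.toEmbedding) ↔ Q X) : ∃ O, (hullLP Q).IsAut p O := by
  classical
  let σ : Equiv.Perm (Finset I) := p.symm.finsetCongr
  refine ⟨pm σ, pm_orth σ, ?_⟩
  intro v Y
  rw [pm_conj]
  have hσ : ∀ X, σ X = X.map p.symm.toEmbedding := fun X => rfl
  have hmem : ∀ i X, i ∈ X ↔ p.symm i ∈ σ X := by
    intro i X
    rw [hσ, Finset.mem_map_equiv, Equiv.symm_symm, Equiv.apply_symm_apply]
  have hQσ : ∀ X, Q (σ X) ↔ Q X := by
    intro X
    have h := hQ (σ X)
    rw [← h, hσ, Finset.map_map]
    have : (p.symm.toEmbedding.trans p.toEmbedding) = Function.Embedding.refl _ := by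
      ext i
      show p (p.symm i) = i
      exact p.apply_symm_apply i
    rw [this, Finset.map_refl]
  have hsum : ∀ f : Finset I → ℝ, ∑ X, f (σ X) = ∑ X, f X := fun f => Equiv.sum_comp σ f
  constructor
  · rintro ⟨h1, h2, h3, h4⟩
    refine ⟨?_, ?_, ?_, ?_⟩
    · intro X X' hne
      exact h1 _ _ (fun h => hne (σ.injective h))
    · intro X hX
      exact h2 (σ X) (fun h => hX ((hQσ X).1 h))
    · show ∑ X, Y (σ X) (σ X) = 1
      rw [hsum (fun X => Y X X)]
      exact h3
    · intro i
      show ∑ X, (if i ∈ X then Y (σ X) (σ X) else 0) = v (p.symm i)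
      have h5 : ∑ X, (if p.symm i ∈ X then Y X X else 0) = v (p.symm i) := h4 (p.symm i)
      rw [← h5, ← hsum (fun X => if p.symm i ∈ X then Y X X else 0)]
      apply Finset.sum_congr rfl
      intro X _
      by_cases h : i ∈ X
      · rw [if_pos h, if_pos ((hmem i X).1 h)]
      · rw [if_neg h, if_neg (fun h' => h ((hmem i X).2 h'))]
  · rintro ⟨h1, h2, h3, h4⟩
    refine ⟨?_, ?_, ?_, ?_⟩
    · intro X X' hne
      have := h1 (σ.symm X) (σ.symm X') (fun h => hne (σ.symm.injective h))
      have h5 : Y (σ (σ.symm X)) (σ (σ.symm X')) = 0 := this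
      rwa [Equiv.apply_symm_apply, Equiv.apply_symm_apply] at h5
    · intro X hX
      have := h2 (σ.symm X) (fun h => hX (by
        have := (hQσ (σ.symm X)).2 h
        rwa [Equiv.apply_symm_apply] at this))
      have h5 : Y (σ (σ.symm X)) (σ (σ.symm X)) = 0 := this
      rwa [Equiv.apply_symm_apply] at h5
    · show ∑ X, Y X X = 1
      rw [← hsum (fun X => Y X X)]
      exact h3
    · intro i
      have h5 : ∑ X, (if p i ∈ X then Y (σ X) (σ X) else 0) = v (p.symm (p i)) := h4 (p i)
      rw [Equiv.symm_apply_apply] at h5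
      show ∑ X, (if i ∈ X then Y X X else 0) = v i
      rw [← h5, ← hsum (fun X => if i ∈ X then Y X X else 0)]
      apply Finset.sum_congr rfl
      intro X _
      have h6 := hmem (p i) X
      rw [Equiv.symm_apply_apply] at h6
      by_cases h : p i ∈ X
      · rw [if_pos h, if_pos (h6.1 h)]
      · rw [if_neg h, if_neg (fun h' => h (h6.2 h'))]

end hull

/-- **Exhaustive search**: a symmetric program of order two to the number of input bits. -/
theorem exh_upper {r : ℕ} (H : SimpleGraph (Fin r)) (k : ℝ) :
    ∃ (D : Type) (_ : Fintype D) (_ : DecidableEq D) (P : SDP (blow H).edgeSet D),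
      Fintype.card D = 2 ^ (blow H).edgeSet.ncard ∧ (∀ π, ∃ O, P.IsAut (epm H π) O) ∧
      ∀ G : SimpleGraph (Fin r × (Fin 2 → ZMod 2)), G ≤ blow H →
        (P.Acc (bvec H G) ↔ SmallVC G k) := by
  classical
  let Q : Finset (blow H).edgeSet → Prop := fun X =>
    ∃ G : SimpleGraph (Fin r × (Fin 2 → ZMod 2)), G ≤ blow H ∧
      (∀ e : (blow H).edgeSet, e ∈ X ↔ e.1 ∈ G.edgeSet) ∧ SmallVC G k
  refine ⟨Finset (blow H).edgeSet, inferInstance, inferInstance, hullLP Q, ?_, ?_, ?_⟩
  · rw [Fintype.card_finset, ← Nat.card_eq_fintype_card]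
    rfl
  · intro π
    apply hullLP_sym
    have h1 : ∀ (π : Fin r → Equiv.Perm (Fin 2 → ZMod 2)) (X : Finset (blow H).edgeSet), Q X →
        Q (X.map (epm H π).toEmbedding) := by
      rintro π X ⟨G, hG1, hG2, hG3⟩
      refine ⟨G.comap (cpm π).symm, ?_, ?_, small_perm _ hG3⟩
      · intro x y h
        rw [SimpleGraph.comap_adj] at h
        have h2 := hG1 h
        have h3 := (blow_cpm H π ((cpm π).symm x) ((cpm π).symm y)).2 h2
        rwa [Equiv.apply_symm_apply, Equiv.apply_symm_apply] at h3
      · intro e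
        rw [Finset.mem_map_equiv, hG2, epm_symm_val]
        obtain ⟨e, he⟩ := e
        induction e using Sym2.ind with
        | _ x y =>
          show Sym2.map (cpm π).symm s(x, y) ∈ G.edgeSet ↔ s(x, y) ∈ _
          rw [Sym2.map_mk, SimpleGraph.mem_edgeSet, SimpleGraph.mem_edgeSet,
            SimpleGraph.comap_adj]
    intro X
    refine ⟨fun h => ?_, h1 π X⟩
    have h2 := h1 π⁻¹ _ h
    rw [Finset.map_map] at h2
    have h3 : (epm H π).toEmbedding.trans (epm H π⁻¹).toEmbedding = Function.Embedding.refl _ := by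
      apply Function.Embedding.ext
      intro e
      apply Subtype.ext
      show ((epm H π⁻¹) ((epm H π) e)).1 = e.1
      rw [← Equiv.Perm.mul_apply, ← epm_mul, inv_mul_cancel]
      obtain ⟨e, he⟩ := e
      induction e using Sym2.ind with
      | _ x y => rfl
    rwa [h3, Finset.map_refl] at h2
  · intro G hG
    have h1 : bvec H G = ind ((univ.filter fun e : (blow H).edgeSet => e.1 ∈ G.edgeSet :
        Finset (blow H).edgeSet) : Set (blow H).edgeSet) := by
      unfold bvec
      congr 1
      ext e
      rw [Finset.mem_coe, Finset.mem_filter]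
      exact ⟨fun h => ⟨Finset.mem_univ _, h⟩, fun h => h.2⟩
    rw [h1, hullLP_acc]
    constructor
    · rintro ⟨G', hG1, hG2, hG3⟩
      have h2 : G' = G := by
        ext x y
        constructor
        · intro h
          have h3 : s(x, y) ∈ (blow H).edgeSet := (SimpleGraph.mem_edgeSet _).2 (hG1 h)
          have h4 := (hG2 ⟨s(x, y), h3⟩).2 ((SimpleGraph.mem_edgeSet _).2 h)
          exact (SimpleGraph.mem_edgeSet _).1 (Finset.mem_filter.1 h4).2
        · intro h
          have h3 : s(x, y) ∈ (blow H).edgeSet := (SimpleGraph.mem_edgeSet _).2 (hG h)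
          exact (SimpleGraph.mem_edgeSet _).1 ((hG2 ⟨s(x, y), h3⟩).1
            (Finset.mem_filter.2 ⟨Finset.mem_univ _, (SimpleGraph.mem_edgeSet _).2 h⟩))
      rwa [← h2]
    · intro h
      refine ⟨G, hG, fun e => ?_, h⟩
      rw [Finset.mem_filter]
      exact ⟨fun h => h.2, fun h => ⟨Finset.mem_univ _, h⟩⟩

end Pool.Agent.H550R2.Cl
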