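import Pool.Agent.H550R2.Cl.Par

set_option autoImplicit false
set_option linter.unusedSectionVars false

/-! No symmetric random semidefinite programs of order `f(k) n^(o(k))` for cliques. -/

namespace Pool.Agent.H550R2.Cl

open Finset Pool.Agent.H550R2.Lift Filter
open Pool.Agent.H550R2.Neg (RSDP)

theorem fpt_lower (ε : ℝ) (hε : 0 < ε) (f : ℕ → ℕ) (g : ℕ → ℝ)
    (hg : Tendsto (fun k : ℕ => g k / k) atTop (nhds 0)) : ∃ k b : ℕ, 0 < k ∧
    ∀ (W : Type) [Fintype W] (blk : Fin k × (Fin b → ZMod 2) ↪ W) (R : RSDP (Sym2 W)),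
    TransSym R blk → SepClique R k (ε * k) →
    ∃ ω, (f k : ℝ) * ((k * 2 ^ b : ℕ) : ℝ) ^ g k < Fintype.card (R.D ω) := by
  obtain ⟨C, hC, hlow⟩ := par_lower ε hε
  have hCR : (1 : ℝ) ≤ C := by exact_mod_cast hC
  have h1 : ∀ᶠ k : ℕ in atTop, g k / k < 1 / (8 * C) :=
    hg.eventually_lt_const (by positivity)
  obtain ⟨k, hk1, hk2⟩ := (h1.and (eventually_ge_atTop C)).exists
  have hk0 : 0 < k := by omega
  have hkR : (C : ℝ) ≤ k := by exact_mod_cast hk2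
  have hkpos : (0 : ℝ) < k := by exact_mod_cast hk0
  rw [div_lt_iff₀ hkpos] at hk1
  obtain ⟨b, hb⟩ : ∃ b, b = C + k + 2 * f k + 8 := ⟨_, rfl⟩
  have hkb : k ≤ 2 ^ b := by
    have : b < 2 ^ b := Nat.lt_two_pow_self
    omega
  refine ⟨k, b, hk0, fun W _ blk R hR hsep => ?_⟩
  by_contra hn
  rw [not_exists] at hn
  obtain ⟨N, hN⟩ : ∃ N, N = ⌊(f k : ℝ) * ((k * 2 ^ b : ℕ) : ℝ) ^ g k⌋₊ := ⟨_, rfl⟩
  have hlow2 := hlow k b hk2 (by omega) W blk R hR hsep N (fun ω => by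
    rw [hN]
    exact Nat.le_floor (not_lt.1 (hn ω)))
  have hbase : (1 : ℝ) ≤ ((k * 2 ^ b : ℕ) : ℝ) := by
    exact_mod_cast Nat.mul_pos hk0 (by positivity)
  have hpow : ((k * 2 ^ b : ℕ) : ℝ) ^ g k ≤ (2 : ℝ) ^ ((b : ℝ) * k / (4 * C)) := by
    calc ((k * 2 ^ b : ℕ) : ℝ) ^ g k ≤ ((k * 2 ^ b : ℕ) : ℝ) ^ (1 / (8 * C) * k : ℝ) :=
          Real.rpow_le_rpow_of_exponent_le hbase hk1.le
      _ ≤ ((2 : ℝ) ^ (2 * b)) ^ (1 / (8 * C) * k : ℝ) := by
          apply Real.rpow_le_rpow (by positivity) _ (by positivity)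
          have h2 : k * 2 ^ b ≤ 2 ^ (2 * b) := by
            rw [two_mul, pow_add]
            exact Nat.mul_le_mul_right _ hkb
          exact_mod_cast h2
      _ = (2 : ℝ) ^ ((b : ℝ) * k / (4 * C)) := by
          rw [← Real.rpow_natCast, ← Real.rpow_mul (by norm_num)]
          congr 1
          push_cast
          field_simp
          ring
  have hNle : (N : ℝ) ≤ f k * (2 : ℝ) ^ ((b : ℝ) * k / (4 * C)) := by
    rw [hN]
    refine (Nat.floor_le (by positivity)).trans ?_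
    exact mul_le_mul_of_nonneg_left hpow (Nat.cast_nonneg _)
  have hexp : (b : ℝ) * k / (4 * C) + (b : ℝ) / 2 ≤ ((k * b / C : ℕ) : ℝ) := by
    have h3 : k * b < C * (k * b / C + 1) := Nat.lt_mul_div_succ _ hC
    have h4 : (k : ℝ) * b < C * (((k * b / C : ℕ) : ℝ) + 1) := by exact_mod_cast h3
    have h5 : (8 : ℝ) ≤ b := by
      exact_mod_cast (by omega : 8 ≤ b)
    have h6 : (b : ℝ) * k / (4 * C) = ((k : ℝ) * b / C) / 4 := by
      field_simp
    have h7 : (k : ℝ) * b / C < ((k * b / C : ℕ) : ℝ) + 1 := by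
      rw [div_lt_iff₀ (by linarith)]
      linarith
    have h8 : (b : ℝ) ≤ (k : ℝ) * b / C := by
      rw [le_div_iff₀ (by linarith)]
      nlinarith
    rw [h6]
    linarith
  have hfk : (f k : ℝ) < (2 : ℝ) ^ ((b : ℝ) / 2) := by
    have h3 : f k < 2 ^ f k := Nat.lt_two_pow_self
    have h4 : (f k : ℝ) < (2 : ℝ) ^ ((f k : ℕ) : ℝ) := by
      rw [Real.rpow_natCast]
      exact_mod_cast h3
    refine lt_of_lt_of_le h4 (Real.rpow_le_rpow_of_exponent_le (by norm_num) ?_)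
    have h5 : 2 * f k ≤ b := by omega
    have h6 : (2 : ℝ) * f k ≤ b := by exact_mod_cast h5
    linarith
  have h2 : ((2 ^ (k * b / C) : ℕ) : ℝ) ≤ N := by exact_mod_cast hlow2
  have h3 : ((2 ^ (k * b / C) : ℕ) : ℝ) = (2 : ℝ) ^ (((k * b / C : ℕ)) : ℝ) := by
    rw [Real.rpow_natCast]
    push_cast
    rfl
  have h4 : (f k : ℝ) * (2 : ℝ) ^ ((b : ℝ) * k / (4 * C)) <
      (2 : ℝ) ^ (((k * b / C : ℕ)) : ℝ) := by
    calc (f k : ℝ) * (2 : ℝ) ^ ((b : ℝ) * k / (4 * C))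
        < (2 : ℝ) ^ ((b : ℝ) / 2) * (2 : ℝ) ^ ((b : ℝ) * k / (4 * C)) :=
          mul_lt_mul_of_pos_right hfk (by positivity)
      _ = (2 : ℝ) ^ ((b : ℝ) * k / (4 * C) + (b : ℝ) / 2) := by
          rw [← Real.rpow_add (by norm_num)]
          congr 1
          ring
      _ ≤ _ := Real.rpow_le_rpow_of_exponent_le (by norm_num) hexp
  rw [h3] at h2
  linarith

end Pool.Agent.H550R2.Cl
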