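import Pool.Agent.H550R2.Cl.LocB
import Pool.Agent.H550R2.Cl.HG

set_option autoImplicit false
set_option linter.unusedSectionVars false

/-! Programs that are symmetric on most of the blocks: the general form; locality of the graphs of
consistent partial solutions. -/

namespace Pool.Agent.H550R2.Cl

open Finset Pool.Agent.H550R2.Lift

section rb

variable {E L V J D I : Type} [Fintype E] [DecidableEq E] [Fintype L] [DecidableEq L]
  [Fintype V] [DecidableEq V] [Fintype J] [DecidableEq J] [Fintype D] [DecidableEq D] {a : ℕ}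

/-- **Transfer** for programs that are symmetric on the blocks in `B`. -/
theorem loc_transferC (P : SDP I D) (A : (J → ZMod 2) → Equiv.Perm I)
    (hA : ∀ γ γ', A (γ + γ') = A γ * A γ') (B : Finset E)
    (hsym : ∀ γ, ∃ O, P.IsAut (A γ) O)
    (lam : L → Fin a → ZMod 2)
    (τ : (E × Fin a → ZMod 2) → (J → ZMod 2)) (Tp : (J → ZMod 2) → (E × Fin a → ZMod 2))
    (hτ : ∀ p y, pr p (τ y) = pr (Tp p) y) (hTp : ∀ p q, Tp (p + q) = Tp p + Tp q)
    (T : E × L → V) (s : ℕ) (c c' : E × L → ZMod 2)
    (hO : OkB lam T s B (c + c'))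
    (hgap : ∀ p q, IsChar P A p → IsChar P A q →
      ∀ w, push T w = 0 → rB B (ev lam w) = rB B (Tp (p + q)) → s < (tch w).card →
      (tch w).card ≤ 2 * s → False)
    (S : (E × L → ZMod 2) → Set I)
    (hS1 : ∀ c y i, (A (τ y)).symm i ∈ S c ↔ i ∈ S (c + dlt lam (rB B y)))
    (hS2 : Local T s S) (hacc : P.Acc (ind (S c))) :
    P.Acc (ind (S c')) := by
  classical
  refine coreF P A hA hsym τ Tp hτ (eB lam T s B (c + c')) (eB_zero hO) ?_
    (ind (S c)) (ind (S c')) hacc ?_
  · intro p q r hp hq hr h1 h2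
    obtain ⟨w, hw1, hw2, hw3⟩ := eB_ne h1
    obtain ⟨w', hw1', hw2', hw3'⟩ := eB_ne h2
    have h3 : push T (w + w') = 0 := by rw [push_add, hw1, hw1', add_zero]
    have h4 : rB B (ev lam (w + w')) = rB B (Tp p + Tp r) := by
      rw [ev_add, rB_add, hw2, hw2', ← rB_add]
      congr 1
      ext z
      simp only [Pi.add_apply]
      have := CharTwo.add_self_eq_zero (Tp q z)
      linear_combination this
    have h5 : (tch (w + w')).card ≤ s := by
      by_contra hn
      have h6 := tch_add_card w w'
      exact hgap p r hp hr (w + w') h3 (by rw [h4, hTp]) (not_le.1 hn) (by omega)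
    rw [eB_eq hO h3 h4 h5, eB_eq hO hw1 hw2 hw3, eB_eq hO hw1' hw2' hw3',
      pr_add_left, sg_add]
  · intro i
    obtain ⟨Xs, hXs, hinv⟩ := hS2 i
    let F : (E × L → ZMod 2) → ℝ := fun d => ind (S (c + d)) i
    have hFinv : ∀ d0 : E × L → ZMod 2,
        (∀ x x' : E × L, x.1 ∈ Xs → x'.1 ∈ Xs → T x = T x' → d0 x = d0 x') →
        ∀ d, F (d + d0) = F d := by
      intro d0 hd0 d
      show ind (S (c + (d + d0))) i = ind (S (c + d)) i
      have h1 := hinv (c + d) d0 hd0
      rw [← add_assoc]
      unfold ind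
      rw [Set.indicator_apply, Set.indicator_apply]
      by_cases h : i ∈ S (c + d)
      · rw [if_pos h, if_pos (h1.2 h)]
      · rw [if_neg h, if_neg (fun h2 => h (h1.1 h2))]
    have hclosed : ∀ w, fc F w ≠ 0 → push T w = 0 ∧ (tch w).card ≤ s := by
      intro w hw
      have hpr : ∀ d0 : E × L → ZMod 2,
          (∀ x x' : E × L, x.1 ∈ Xs → x'.1 ∈ Xs → T x = T x' → d0 x = d0 x') →
          pr w d0 = 0 := by
        intro d0 hd0
        by_contra hne
        exact hw (fc_zero (hFinv d0 hd0) hne)
      have hsub : ∀ x : E × L, x.1 ∉ Xs → w x = 0 := by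
        intro x hx
        have h1 := hpr (Pi.single x 1) (by
          intro x1 x2 h1 h2 _
          rw [Pi.single_eq_of_ne, Pi.single_eq_of_ne]
          · rintro rfl
            exact hx h2
          · rintro rfl
            exact hx h1)
        rwa [pr_comm, pr_single_left] at h1
      constructor
      · ext v
        have h1 := hpr (fun x => if T x = v then 1 else 0) (by
          intro x1 x2 _ _ h3
          show (if T x1 = v then (1 : ZMod 2) else 0) = if T x2 = v then 1 else 0
          rw [h3])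
        refine Eq.trans ?_ h1
        show ∑ x, (if T x = v then w x else 0) = ∑ x, w x * (if T x = v then 1 else 0)
        apply Finset.sum_congr rfl
        intro x _
        by_cases h : T x = v
        · rw [if_pos h, if_pos h, mul_one]
        · rw [if_neg h, if_neg h, mul_zero]
      · refine (Finset.card_le_card ?_).trans hXs
        intro j hj
        rw [mem_tch] at hj
        obtain ⟨l, hl⟩ := hj
        by_contra hn
        exact hl (hsub (j, l) hn)
    refine ⟨E × L → ZMod 2, inferInstance, fc F, fun w => rB B (ev lam w), ?_, ?_⟩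
    · intro y
      have h1 : ind (S c) ((A (τ y)).symm i) = F (dlt lam (rB B y)) := by
        show ind (S c) ((A (τ y)).symm i) = ind (S (c + dlt lam (rB B y))) i
        unfold ind
        rw [Set.indicator_apply, Set.indicator_apply]
        by_cases h : i ∈ S (c + dlt lam (rB B y))
        · rw [if_pos h, if_pos ((hS1 c _ i).2 h)]
          rfl
        · rw [if_neg h, if_neg (fun h2 => h ((hS1 c _ i).1 h2))]
      rw [h1, fc_inv F]
      apply Finset.sum_congr rfl
      intro w _
      rw [pr_rB, pr_dlt]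
    · have h1 : ind (S c') i = F (c + c') := by
        show ind (S c') i = ind (S (c + (c + c'))) i
        have : c + (c + c') = c' := by
          ext x
          simp only [Pi.add_apply]
          have := CharTwo.add_self_eq_zero (c x)
          linear_combination this
        rw [this]
      rw [h1, fc_inv F]
      apply Finset.sum_congr rfl
      intro w _
      by_cases h : fc F w = 0
      · rw [h, zero_mul, zero_mul]
      · obtain ⟨h2, h3⟩ := hclosed w h
        rw [eB_eq hO h2 (rB_rB B _).symm h3]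

end rb

section cg

variable {E L V B β W : Type} [Fintype E] [DecidableEq E] [Fintype L] [DecidableEq L]
  [Fintype V] [DecidableEq V] [Fintype B] [DecidableEq B] [Fintype β] [DecidableEq β] {a t : ℕ}

theorem cg_shift (blk : B × (β → ZMod 2) ↪ W) {lam : L → Fin a → ZMod 2}
    {g : Fin t × Fin a → β} (hginj : Function.Injective g) (σ : B → Fin t → E) (T : E × L → V)
    (c : E × L → ZMod 2) (y : E × Fin a → ZMod 2) (u w : W) :
    (cg blk lam g σ T c).Adj (tp blk (tau g σ y) u) (tp blk (tau g σ y) w) ↔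
      (cg blk lam g σ T (c + dlt lam y)).Adj u w := by
  constructor
  · rintro ⟨x, x', h1, h2, h3, h4⟩
    refine ⟨sh (tau g σ y) x, sh (tau g σ y) x', ?_, ?_, h3, ?_⟩
    · rw [← tp_apply, h1, tp_tp]
    · rw [← tp_apply, h2, tp_tp]
    · rw [← cons_shift hginj, sh_sh, sh_sh]
      exact h4
  · rintro ⟨x, x', h1, h2, h3, h4⟩
    refine ⟨sh (tau g σ y) x, sh (tau g σ y) x', ?_, ?_, h3, ?_⟩
    · rw [← tp_apply, h1]
    · rw [← tp_apply, h2]
    · rw [cons_shift hginj]
      exact h4

theorem cg_sym (blk : B × (β → ZMod 2) ↪ W) {lam : L → Fin a → ZMod 2}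
    {g : Fin t × Fin a → β} (hginj : Function.Injective g) (σ : B → Fin t → E) (T : E × L → V)
    (c : E × L → ZMod 2) (y : E × Fin a → ZMod 2) (i : Sym2 W) :
    (edPerm (tp blk (tau g σ y))).symm i ∈ (cg blk lam g σ T c).edgeSet ↔
      i ∈ (cg blk lam g σ T (c + dlt lam y)).edgeSet := by
  induction i using Sym2.ind with
  | _ u w =>
    rw [edPerm_symm, SimpleGraph.mem_edgeSet, SimpleGraph.mem_edgeSet]
    exact cg_shift blk hginj σ T c y u w

theorem cg_loc (blk : B × (β → ZMod 2) ↪ W) (lam : L → Fin a → ZMod 2)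
    (g : Fin t × Fin a → β) (σ : B → Fin t → E) (T : E × L → V) (s : ℕ) (hst : 2 * t ≤ s)
    (u w : W) : ∃ Xs : Finset E, Xs.card ≤ s ∧ ∀ c d : E × L → ZMod 2,
    (∀ x x' : E × L, x.1 ∈ Xs → x'.1 ∈ Xs → T x = T x' → d x = d x') →
      ((cg blk lam g σ T (c + d)).Adj u w ↔ (cg blk lam g σ T c).Adj u w) := by
  by_cases h : ∃ x x', blk x = u ∧ blk x' = w
  · obtain ⟨x, x', rfl, rfl⟩ := h
    refine ⟨(univ : Finset (Bool × Fin t)).image (fun q => σ (cond q.1 x.1 x'.1) q.2), ?_, ?_⟩
    · refine Finset.card_image_le.trans ?_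
      rw [Finset.card_univ, Fintype.card_prod, Fintype.card_bool, Fintype.card_fin]
      exact hst
    · intro c d hd
      rw [cg_adj, cg_adj, cons_congr]
      intro o o' hoo
      have hmem : ∀ o : Bool × Fin t × L, (pos σ x.1 x'.1 o).1 ∈
          (univ : Finset (Bool × Fin t)).image (fun q => σ (cond q.1 x.1 x'.1) q.2) := by
        intro o
        rw [Finset.mem_image]
        exact ⟨(o.1, o.2.1), Finset.mem_univ _, rfl⟩
      exact hd _ _ (hmem o) (hmem o') hoo
  · refine ⟨∅, Nat.zero_le _, fun c d _ => ?_⟩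
    constructor
    · rintro ⟨x, x', h1, h2, -⟩
      exact absurd ⟨x, x', h1, h2⟩ h
    · rintro ⟨x, x', h1, h2, -⟩
      exact absurd ⟨x, x', h1, h2⟩ h

theorem cg_local (blk : B × (β → ZMod 2) ↪ W) (lam : L → Fin a → ZMod 2)
    (g : Fin t × Fin a → β) (σ : B → Fin t → E) (T : E × L → V) (s : ℕ) (hst : 2 * t ≤ s) :
    Local T s (fun c => (cg blk lam g σ T c).edgeSet) := by
  intro i
  induction i using Sym2.ind with
  | _ u w =>
    obtain ⟨Xs, h1, h2⟩ := cg_loc blk lam g σ T s hst u w
    refine ⟨Xs, h1, fun c d hd => ?_⟩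
    rw [SimpleGraph.mem_edgeSet, SimpleGraph.mem_edgeSet]
    exact h2 c d hd

end cg

end Pool.Agent.H550R2.Cl
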