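import Pool.Agent.H550R2.Cl.QuadU

set_option autoImplicit false
set_option linter.unusedSectionVars false

/-! Programs that are symmetric on most of the blocks. -/

namespace Pool.Agent.H550R2.Cl

open Finset Pool.Agent.H550R2.Lift

section rb

variable {E L V : Type} [Fintype E] [DecidableEq E] [Fintype L] [DecidableEq L]
  [Fintype V] [DecidableEq V] {a : ℕ}

/-- restriction of a functional to some constraints -/
def rB (B : Finset E) (q : E × Fin a → ZMod 2) : E × Fin a → ZMod 2 :=
  fun x => if x.1 ∈ B then q x else 0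

theorem rB_add (B : Finset E) (p q : E × Fin a → ZMod 2) :
    rB B (p + q) = rB B p + rB B q := by
  ext x
  show (if x.1 ∈ B then (p + q) x else 0) = (if x.1 ∈ B then p x else 0) +
    (if x.1 ∈ B then q x else 0)
  split_ifs
  · rfl
  · rw [add_zero]

theorem rB_rB (B : Finset E) (q : E × Fin a → ZMod 2) : rB B (rB B q) = rB B q := by
  ext x
  show (if x.1 ∈ B then (if x.1 ∈ B then q x else 0) else 0) = if x.1 ∈ B then q x else 0
  split_ifs <;> rfl

theorem pr_rB (B : Finset E) (p y : E × Fin a → ZMod 2) : pr (rB B p) y = pr p (rB B y) := by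
  unfold pr
  apply Finset.sum_congr rfl
  intro x _
  show (if x.1 ∈ B then p x else 0) * y x = p x * (if x.1 ∈ B then y x else 0)
  split_ifs
  · rfl
  · rw [zero_mul, mul_zero]

theorem rB_zero_apply {B : Finset E} {q : E × Fin a → ZMod 2} (h : rB B q = 0) {x : E × Fin a}
    (hx : x.1 ∈ B) : q x = 0 := by
  have h1 : (if x.1 ∈ B then q x else 0) = 0 := congrFun h x
  rwa [if_pos hx] at h1

theorem tchE_of_rB {B : Finset E} {q : E × Fin a → ZMod 2} (h : rB B q = 0) : tchE q ⊆ Bᶜ := by
  intro j hj
  rw [mem_tchE] at hj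
  obtain ⟨k, hk⟩ := hj
  rw [Finset.mem_compl]
  intro hB
  exact hk (rB_zero_apply h hB)

/-- The constants `cc` are consistent on the constraints outside `B`. -/
structure OkB (lam : L → Fin a → ZMod 2) (T : E × L → V) (s : ℕ) (B : Finset E)
    (cc : E × L → ZMod 2) : Prop where
  gap0 : ∀ w, push T w = 0 → rB B (ev lam w) = 0 → s < (tch w).card →
    (tch w).card ≤ 2 * s → False
  cons : ∀ w, push T w = 0 → rB B (ev lam w) = 0 → (tch w).card ≤ s → pr w cc = 0

open Classical in
/-- the pseudo-expectation of a character -/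
noncomputable def eB (lam : L → Fin a → ZMod 2) (T : E × L → V) (s : ℕ) (B : Finset E)
    (cc : E × L → ZMod 2) (q : E × Fin a → ZMod 2) : ℝ :=
  if h : ∃ w, push T w = 0 ∧ rB B (ev lam w) = rB B q ∧ (tch w).card ≤ s then
    sg (pr h.choose cc) else 0

theorem eB_eq {lam : L → Fin a → ZMod 2} {T : E × L → V} {s : ℕ} {B : Finset E}
    {cc : E × L → ZMod 2} (hO : OkB lam T s B cc) {w : E × L → ZMod 2}
    {q : E × Fin a → ZMod 2} (h1 : push T w = 0) (h2 : rB B (ev lam w) = rB B q)
    (h3 : (tch w).card ≤ s) : eB lam T s B cc q = sg (pr w cc) := by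
  have hex : ∃ w, push T w = 0 ∧ rB B (ev lam w) = rB B q ∧ (tch w).card ≤ s := ⟨w, h1, h2, h3⟩
  unfold eB
  rw [dif_pos hex]
  obtain ⟨g1, g2, g3⟩ := hex.choose_spec
  set w' := hex.choose
  have e1 : push T (w + w') = 0 := by rw [push_add, h1, g1, add_zero]
  have e2 : rB B (ev lam (w + w')) = 0 := by
    rw [ev_add, rB_add, h2, g2]
    ext x
    exact CharTwo.add_self_eq_zero _
  have e3 : (tch (w + w')).card ≤ s := by
    by_contra hn
    have h6 := tch_add_card w w'
    exact hO.gap0 _ e1 e2 (not_le.1 hn) (by omega)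
  have e4 := hO.cons _ e1 e2 e3
  rw [pr_add_left] at e4
  have h7 : ∀ s t : ZMod 2, s + t = 0 → t = s := by decide
  rw [h7 _ _ e4]

theorem eB_ne {lam : L → Fin a → ZMod 2} {T : E × L → V} {s : ℕ} {B : Finset E}
    {cc : E × L → ZMod 2} {q : E × Fin a → ZMod 2} (h : eB lam T s B cc q ≠ 0) :
    ∃ w, push T w = 0 ∧ rB B (ev lam w) = rB B q ∧ (tch w).card ≤ s := by
  by_contra hn
  apply h
  unfold eB
  exact dif_neg hn

theorem eB_zero {lam : L → Fin a → ZMod 2} {T : E × L → V} {s : ℕ} {B : Finset E}
    {cc : E × L → ZMod 2} (hO : OkB lam T s B cc) : eB lam T s B cc 0 = 1 := by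
  have := eB_eq hO (w := 0) (q := 0) (push_zero T) (by rw [ev_zero])
    (by rw [tch_zero, Finset.card_empty]; exact Nat.zero_le _)
  rw [this, pr_zero_left, sg_zero]

variable {D I : Type} [Fintype D] [DecidableEq D]

/-- **Transfer** for programs that are symmetric on the blocks in `B`. -/
theorem loc_transferB (P : SDP I D) (A : (E × Fin a → ZMod 2) → Equiv.Perm I)
    (hA : ∀ γ γ', A (γ + γ') = A γ * A γ') (B : Finset E)
    (hsym : ∀ γ, ∃ O, P.IsAut (A (rB B γ)) O)
    (lam : L → Fin a → ZMod 2) (T : E × L → V) (s : ℕ) (c c' : E × L → ZMod 2)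
    (hO : OkB lam T s B (c + c'))
    (hgap : ∀ p q, IsChar P (fun γ => A (rB B γ)) p → IsChar P (fun γ => A (rB B γ)) q →
      ∀ w, push T w = 0 → rB B (ev lam w) = rB B (p + q) → s < (tch w).card →
      (tch w).card ≤ 2 * s → False)
    (S : (E × L → ZMod 2) → Set I)
    (hS1 : ∀ c y i, (A y).symm i ∈ S c ↔ i ∈ S (c + dlt lam y))
    (hS2 : Local T s S) (hacc : P.Acc (ind (S c))) :
    P.Acc (ind (S c')) := by
  classical
  refine coreF P (fun γ => A (rB B γ)) (fun γ γ' => by rw [rB_add, hA]) hsym
    (fun y => y) (fun p => p) (fun _ _ => rfl) (eB lam T s B (c + c')) (eB_zero hO) ?_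
    (ind (S c)) (ind (S c')) hacc ?_
  · intro p q r hp hq hr h1 h2
    obtain ⟨w, hw1, hw2, hw3⟩ := eB_ne h1
    obtain ⟨w', hw1', hw2', hw3'⟩ := eB_ne h2
    have h3 : push T (w + w') = 0 := by rw [push_add, hw1, hw1', add_zero]
    have h4 : rB B (ev lam (w + w')) = rB B (p + r) := by
      rw [ev_add, rB_add, hw2, hw2', ← rB_add]
      congr 1
      ext z
      simp only [Pi.add_apply]
      have := CharTwo.add_self_eq_zero (q z)
      linear_combination this
    have h5 : (tch (w + w')).card ≤ s := by
      by_contra hn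
      have h6 := tch_add_card w w'
      exact hgap p r hp hr (w + w') h3 h4 (not_le.1 hn) (by omega)
    rw [eB_eq hO h3 h4 h5, eB_eq hO hw1 hw2 hw3, eB_eq hO hw1' hw2' hw3',
      pr_add_left, sg_add]
  · intro i
    obtain ⟨Xs, hXs, hinv⟩ := hS2 i
    let F : (E × L → ZMod 2) → ℝ := fun d => ind (S (c + d)) i
    have hFinv : ∀ d0 : E × L → ZMod 2,
        (∀ x x' : E × L, x.1 ∈ Xs → x'.1 ∈ Xs → T x = T x' → d0 x = d0 x') →
        ∀ d, F (d + d0) = F d := by
      intro d0 hd0 d
      show ind (S (c + (d + d0))) i = ind (S (c + d)) i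
      have h1 := hinv (c + d) d0 hd0
      rw [← add_assoc]
      unfold ind
      rw [Set.indicator_apply, Set.indicator_apply]
      by_cases h : i ∈ S (c + d)
      · rw [if_pos h, if_pos (h1.2 h)]
      · rw [if_neg h, if_neg (fun h2 => h (h1.1 h2))]
    have hclosed : ∀ w, fc F w ≠ 0 → push T w = 0 ∧ (tch w).card ≤ s := by
      intro w hw
      have hpr : ∀ d0 : E × L → ZMod 2,
          (∀ x x' : E × L, x.1 ∈ Xs → x'.1 ∈ Xs → T x = T x' → d0 x = d0 x') →
          pr w d0 = 0 := by
        intro d0 hd0
        by_contra hne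
        exact hw (fc_zero (hFinv d0 hd0) hne)
      have hsub : ∀ x : E × L, x.1 ∉ Xs → w x = 0 := by
        intro x hx
        have h1 := hpr (Pi.single x 1) (by
          intro x1 x2 h1 h2 _
          rw [Pi.single_eq_of_ne, Pi.single_eq_of_ne]
          · rintro rfl
            exact hx h2
          · rintro rfl
            exact hx h1)
        rwa [pr_comm, pr_single_left] at h1
      constructor
      · ext v
        have h1 := hpr (fun x => if T x = v then 1 else 0) (by
          intro x1 x2 _ _ h3
          show (if T x1 = v then (1 : ZMod 2) else 0) = if T x2 = v then 1 else 0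
          rw [h3])
        refine Eq.trans ?_ h1
        show ∑ x, (if T x = v then w x else 0) = ∑ x, w x * (if T x = v then 1 else 0)
        apply Finset.sum_congr rfl
        intro x _
        by_cases h : T x = v
        · rw [if_pos h, if_pos h, mul_one]
        · rw [if_neg h, if_neg h, mul_zero]
      · refine (Finset.card_le_card ?_).trans hXs
        intro j hj
        rw [mem_tch] at hj
        obtain ⟨l, hl⟩ := hj
        by_contra hn
        exact hl (hsub (j, l) hn)
    refine ⟨E × L → ZMod 2, inferInstance, fc F, fun w => rB B (ev lam w), ?_, ?_⟩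
    · intro y
      have h1 : ind (S c) ((A (rB B y)).symm i) = F (dlt lam (rB B y)) := by
        show ind (S c) ((A (rB B y)).symm i) = ind (S (c + dlt lam (rB B y))) i
        unfold ind
        rw [Set.indicator_apply, Set.indicator_apply]
        by_cases h : i ∈ S (c + dlt lam (rB B y))
        · rw [if_pos h, if_pos ((hS1 c _ i).2 h)]
          rfl
        · rw [if_neg h, if_neg (fun h2 => h ((hS1 c _ i).1 h2))]
      show ind (S c) ((A (rB B y)).symm i) = _
      rw [h1, fc_inv F]
      apply Finset.sum_congr rfl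
      intro w _
      rw [pr_rB, pr_dlt]
    · have h1 : ind (S c') i = F (c + c') := by
        show ind (S c') i = ind (S (c + (c + c'))) i
        have : c + (c + c') = c' := by
          ext x
          simp only [Pi.add_apply]
          have := CharTwo.add_self_eq_zero (c x)
          linear_combination this
        rw [this]
      rw [h1, fc_inv F]
      apply Finset.sum_congr rfl
      intro w _
      by_cases h : fc F w = 0
      · rw [h, zero_mul, zero_mul]
      · obtain ⟨h2, h3⟩ := hclosed w h
        rw [eB_eq hO h2 (rB_rB B _).symm h3]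

end rb

section shift

variable {E L V : Type} [Fintype E] [DecidableEq E] [Fintype L] [DecidableEq L]
  [Fintype V] [DecidableEq V] {a : ℕ}

/-- The constants can be made consistent on the constraints outside `B` by shifting these
constraints. -/
theorem exists_shift {lam : L → Fin a → ZMod 2} {T : E × L → V} {s : ℕ} {B : Finset E}
    (hI : Inj lam T s)
    (hg : ∀ w, push T w = 0 → rB B (ev lam w) = 0 → s < (tch w).card →
      (tch w).card ≤ 2 * s → False) (c : E × L → ZMod 2) :
    ∃ y : E × Fin a → ZMod 2, rB B y = 0 ∧ OkB lam T s B (c + dlt lam y) := by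
  classical
  let Z : Submodule (ZMod 2) (E × L → ZMod 2) :=
    { carrier := {w | push T w = 0 ∧ rB B (ev lam w) = 0 ∧ (tch w).card ≤ s}
      add_mem' := by
        rintro w w' ⟨h1, h2, h3⟩ ⟨h1', h2', h3'⟩
        have e1 : push T (w + w') = 0 := by rw [push_add, h1, h1', add_zero]
        have e2 : rB B (ev lam (w + w')) = 0 := by rw [ev_add, rB_add, h2, h2', add_zero]
        refine ⟨e1, e2, ?_⟩
        by_contra hn
        have h6 := tch_add_card w w'
        exact hg _ e1 e2 (not_le.1 hn) (by omega)
      zero_mem' := by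
        refine ⟨push_zero T, ?_, ?_⟩
        · rw [ev_zero]
          ext x
          exact ite_self _
        · rw [tch_zero, Finset.card_empty]
          exact Nat.zero_le _
      smul_mem' := by
        intro t w hw
        rcases zmod2_cases t with rfl | rfl
        · rw [zero_smul]
          refine ⟨push_zero T, ?_, ?_⟩
          · rw [ev_zero]
            ext x
            exact ite_self _
          · rw [tch_zero, Finset.card_empty]
            exact Nat.zero_le _
        · rw [one_smul]
          exact hw }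
  let evL : (E × L → ZMod 2) →ₗ[ZMod 2] (E × Fin a → ZMod 2) :=
    { toFun := ev lam
      map_add' := ev_add lam
      map_smul' := by
        intro t w
        ext z
        show ∑ l, (t • w) (z.1, l) * lam l z.2 = t • ∑ l, w (z.1, l) * lam l z.2
        rw [smul_eq_mul, Finset.mul_sum]
        apply Finset.sum_congr rfl
        intro l _
        rw [Pi.smul_apply, smul_eq_mul, mul_assoc] }
  let prL : (E × L → ZMod 2) →ₗ[ZMod 2] ZMod 2 :=
    { toFun := fun w => pr w c
      map_add' := fun w w' => pr_add_left w w' c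
      map_smul' := by
        intro t w
        show ∑ x, (t • w) x * c x = t • ∑ x, w x * c x
        rw [smul_eq_mul, Finset.mul_sum]
        apply Finset.sum_congr rfl
        intro x _
        rw [Pi.smul_apply, smul_eq_mul, mul_assoc] }
  have hinj : LinearMap.ker (evL.comp Z.subtype) = ⊥ := by
    rw [LinearMap.ker_eq_bot]
    intro w w' h
    apply Subtype.ext
    exact hI w.1 w'.1 w.2.1 w'.2.1 h w.2.2.2 w'.2.2.2
  obtain ⟨g, hgl⟩ := LinearMap.exists_leftInverse_of_injective _ hinj
  let φ : (E × Fin a → ZMod 2) →ₗ[ZMod 2] ZMod 2 := (prL.comp Z.subtype).comp g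
  have hφ : ∀ w (hw : w ∈ Z), φ (ev lam w) = pr w c := by
    intro w hw
    have h1 : g (evL.comp Z.subtype ⟨w, hw⟩) = ⟨w, hw⟩ := LinearMap.congr_fun hgl ⟨w, hw⟩
    show prL (g (evL.comp Z.subtype ⟨w, hw⟩)).1 = _
    rw [h1]
    rfl
  let y1 : E × Fin a → ZMod 2 := fun x => φ (Pi.single x 1)
  have hy1 : ∀ q, pr q y1 = φ q := by
    intro q
    conv_rhs => rw [pi_eq_sum_univ' q]
    rw [map_sum]
    apply Finset.sum_congr rfl
    intro x _
    rw [map_smul, smul_eq_mul]
  let y : E × Fin a → ZMod 2 := fun x => if x.1 ∈ B then 0 else y1 x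
  refine ⟨y, ?_, hg, ?_⟩
  · ext x
    show (if x.1 ∈ B then (if x.1 ∈ B then 0 else y1 x) else 0) = 0
    split_ifs <;> rfl
  · intro w h1 h2 h3
    rw [pr_add_right, ← pr_dlt]
    have h4 : pr (ev lam w) y = pr (ev lam w) y1 := by
      unfold pr
      apply Finset.sum_congr rfl
      intro x _
      by_cases hx : x.1 ∈ B
      · rw [rB_zero_apply h2 hx, zero_mul, zero_mul]
      · show _ * (if x.1 ∈ B then 0 else y1 x) = _
        rw [if_neg hx]
    rw [h4, hy1, hφ w ⟨h1, h2, h3⟩]
    exact CharTwo.add_self_eq_zero _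

end shift

end Pool.Agent.H550R2.Cl
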