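import Pool.Agent.H550R2.Cl.Univ

set_option autoImplicit false
set_option linter.unusedSectionVars false

/-! Systems of constraints with three variables: a satisfiable and a far from satisfiable system
that no program that is symmetric under even permutations of the blocks distinguishes. -/

namespace Pool.Agent.H550R2.Cl

open Finset Pool.Agent.H550R2.Lift

section equiv

variable {V I D : Type} [Fintype V] [DecidableEq V] [Fintype D] [DecidableEq D] {r : ℕ}

theorem tpd_s1 (p : Fin r × Fin 2 → ZMod 2) : tpd g1 s1 p = p := by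
  ext z
  unfold tpd
  rw [Finset.sum_eq_single z.1]
  · rw [Finset.sum_eq_single 0]
    · exact if_pos rfl
    · intro s _ hs
      exact absurd (Subsingleton.elim s 0) hs
    · intro h
      exact absurd (Finset.mem_univ _) h
  · intro i _ hi
    apply Finset.sum_eq_zero
    intro s _
    rw [if_neg]
    exact hi
  · intro h
    exact absurd (Finset.mem_univ _) h

/-- A good system: no small symmetric program sees the constants. -/
theorem GoodU.transfer {T : Fin r × Fin 3 → V} {s u : ℕ} (hs : 2 ≤ s)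
    (h : GoodU lam3 T s (4 * u)) (P : SDP I D) (A : (Fin r × Fin 2 → ZMod 2) → Equiv.Perm I)
    (hA : ∀ γ γ', A (γ + γ') = A γ * A γ') (hsym : ∀ γ, ∃ O, P.IsAut (A γ) O)
    (hrot : ∀ e : Fin r → Fin 3, ∃ ρ O, P.IsAut ρ O ∧ ∀ γ, A γ * ρ = ρ * A (rtB e γ))
    (hD : Fintype.card D ≤ 2 ^ u)
    (S : (Fin r × Fin 3 → ZMod 2) → Set I)
    (hS1 : ∀ c y i, (A (tau g1 s1 y)).symm i ∈ S c ↔ i ∈ S (c + dlt lam3 y))
    (hS2 : Local T 2 S) (c c' : Fin r × Fin 3 → ZMod 2) (hacc : P.Acc (ind (S c))) :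
    P.Acc (ind (S c')) := by
  have hw : ∀ p, IsChar P A p → (tchE p).card ≤ 2 * u := by
    intro p hp
    have h1 := char_weight P A hsym hrot hp
    by_contra hn
    rw [not_le] at hn
    have h2 : 3 ^ (2 * u + 1) ≤ (2 ^ u) ^ 2 :=
      (Nat.pow_le_pow_right (by norm_num) hn).trans (h1.trans (Nat.pow_le_pow_left hD 2))
    have h3 : (2 ^ u) ^ 2 ≤ 3 ^ (2 * u) := by
      rw [← pow_mul, mul_comm u 2]
      exact Nat.pow_le_pow_left (by norm_num) _
    have h4 : 3 ^ (2 * u) < 3 ^ (2 * u + 1) := Nat.pow_lt_pow_right (by norm_num) (by omega)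
    omega
  refine loc_transfer P A hA hsym lam3 (tau g1 s1) (tpd g1 s1) (pr_tau g1 s1) (tpd_add g1 s1)
    T s h.inj ?_ S hS1 (hS2.mono hs) c c' hacc
  intro p q hp hq w h1 h2 h3 h4
  apply h.gap w h1 _ h3 h4
  rw [h2, tpd_s1]
  have h5 := tchE_add p q
  have h6 := hw p hp
  have h7 := hw q hq
  omega

end equiv

open Classical in
/-- **A universal pair of systems.** -/
theorem quad_univ (γ : ℝ) (hγ : 0 < γ) : ∃ C : ℕ, 0 < C ∧ ∀ (r : ℕ), C ≤ r →
    ∃ (n : ℕ) (T : Fin r × Fin 3 → Fin n) (c : Fin r × Fin 3 → ZMod 2) (s : ℕ),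
      coin T ≤ C * r ∧
      (∀ x : Fin n → ZMod 2, ((univ.filter fun i : Fin r => SatBl lam3 T c x (s1 i)).card : ℝ) ≤
        (1 / 2 + γ) * r) ∧ 2 ≤ s ∧ GoodU lam3 T s (4 * (r / C)) := by
  obtain ⟨ρ, hρ⟩ := exists_nat_ge (1 / γ ^ 2)
  have hγ2 : 0 < γ ^ 2 := by positivity
  have hρ0 : 0 < ρ := by
    have h1 : (0 : ℝ) < ρ := lt_of_lt_of_le (by positivity) hρ
    exact_mod_cast h1
  have hργ : 1 ≤ ρ * γ ^ 2 := by
    rwa [div_le_iff₀ hγ2] at hρ
  obtain ⟨K, hK⟩ : ∃ K : ℕ, K = 1354752 * 4 ^ 3 * (2 * ρ) ^ 2 * 2 := ⟨_, rfl⟩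
  have hK0 : 0 < K := by
    rw [hK]
    positivity
  have hK1 : 72 ≤ K := by
    rw [hK]
    have : 1 ≤ (2 * ρ) ^ 2 := Nat.one_le_pow _ _ (by omega)
    nlinarith
  obtain ⟨M, hM⟩ : ∃ M : ℕ, M = ρ * K := ⟨_, rfl⟩
  have hM0 : 0 < M := by
    rw [hM]
    positivity
  obtain ⟨C, hC⟩ : ∃ C : ℕ, C = 64 * M ^ 2 := ⟨_, rfl⟩
  have hC0 : 0 < C := by
    rw [hC]
    positivity
  have hMC : M ≤ C := by
    rw [hC]
    nlinarith
  refine ⟨C, hC0, fun r hr => ?_⟩
  have hr0 : 0 < r := lt_of_lt_of_le hC0 hr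
  have hρr : ρ ≤ r := by
    refine le_trans ?_ hr
    refine le_trans ?_ hMC
    rw [hM]
    exact Nat.le_mul_of_pos_right _ hK0
  obtain ⟨n, hn⟩ : ∃ n, n = r / ρ := ⟨_, rfl⟩
  have hn0 : 0 < n := by
    rw [hn]
    exact Nat.div_pos hρr hρ0
  have hnr : r ≤ 2 * ρ * n := by
    have h1 : r < ρ * (r / ρ + 1) := Nat.lt_mul_div_succ r hρ0
    rw [← hn] at h1
    have h2 : ρ * (n + 1) ≤ 2 * ρ * n := by
      calc ρ * (n + 1) ≤ ρ * (2 * n) := Nat.mul_le_mul_left _ (by omega)
        _ = 2 * ρ * n := by ring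
    omega
  obtain ⟨s, hs⟩ : ∃ s, s = r / M := ⟨_, rfl⟩
  have hsK : K * s ≤ n := by
    rw [hs, hn, hM, ← Nat.div_div_eq_div_mul, mul_comm]
    exact Nat.div_mul_le_self _ _
  have hs64 : 64 ≤ s := by
    rw [hs, Nat.le_div_iff_mul_le hM0]
    refine le_trans ?_ hr
    rw [hC]
    nlinarith
  have hsr : r ≤ 2 * M * s := by
    have h1 : r < M * (r / M + 1) := Nat.lt_mul_div_succ r hM0
    rw [← hs] at h1
    have h2 : M * (s + 1) ≤ 2 * M * s := by
      calc M * (s + 1) ≤ M * (2 * s) := Nat.mul_le_mul_left _ (by omega)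
        _ = 2 * M * s := by ring
    omega
  obtain ⟨u, hu⟩ : ∃ u, u = r / C := ⟨_, rfl⟩
  have hus : 64 * M * u ≤ s := by
    rw [hs, Nat.le_div_iff_mul_le hM0, hu]
    calc 64 * M * (r / C) * M = r / C * (64 * M ^ 2) := by ring
      _ = r / C * C := by rw [← hC]
      _ ≤ r := Nat.div_mul_le_self _ _
  have hcardV : Fintype.card (Fin n) = n := Fintype.card_fin n
  have hF : Few lam3 (fun T : Fin r × Fin 3 → Fin n => T) s := by
    apply few_all lam3_ne lam3_inj (by rw [hcardV]; exact hn0) s (2 * ρ) (by omega)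
    · rw [hcardV, Fintype.card_fin]
      exact hnr
    · rw [hcardV, Fintype.card_fin]
      calc 1354752 * 4 ^ 3 * (2 * ρ) ^ 2 * (2 * s) = K * s := by rw [hK]; ring
        _ ≤ n := hsK
  have hcount : ((univ.filter fun q : Fin r × Fin 2 → ZMod 2 =>
      (tchE q).card ≤ 4 * u).card : ℝ) ≤ 8 ^ s := by
    refine (card_few (4 * u) (16 * M) (by positivity)).trans ?_
    rw [Fintype.card_fin]
    have h1 : (1 + 2 ^ 2 / ((16 * M : ℕ) : ℝ)) ^ r ≤ (2 : ℝ) ^ s := by
      have hMr : (0 : ℝ) < M := by exact_mod_cast hM0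
      have h2 : 1 + 2 ^ 2 / ((16 * M : ℕ) : ℝ) ≤ Real.exp (1 / (4 * M)) := by
        have h3 := Real.add_one_le_exp (1 / (4 * (M : ℝ)))
        have h4 : (2 : ℝ) ^ 2 / ((16 * M : ℕ) : ℝ) = 1 / (4 * M) := by
          push_cast
          field_simp
          norm_num
        rw [h4]
        linarith
      calc (1 + 2 ^ 2 / ((16 * M : ℕ) : ℝ)) ^ r ≤ (Real.exp (1 / (4 * M))) ^ r :=
            pow_le_pow_left₀ (by positivity) h2 r
        _ = Real.exp (r * (1 / (4 * M))) := by rw [← Real.exp_nat_mul]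
        _ ≤ Real.exp (s * Real.log 2) := by
            apply Real.exp_le_exp.2
            have h5 : (r : ℝ) ≤ 2 * M * s := by exact_mod_cast hsr
            have h6 : (0.69 : ℝ) < Real.log 2 := by
              have := Real.log_two_gt_d9
              linarith
            have h7 : (r : ℝ) * (1 / (4 * M)) ≤ s / 2 := by
              rw [mul_one_div, div_le_div_iff₀ (by positivity) (by norm_num)]
              nlinarith
            have h8 : (0 : ℝ) ≤ s := Nat.cast_nonneg s
            nlinarith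
        _ = (2 : ℝ) ^ s := by
            rw [mul_comm, Real.exp_mul, Real.exp_log (by norm_num), Real.rpow_natCast]
    have h2 : (((16 * M : ℕ) : ℝ)) ^ (4 * u) ≤ (4 : ℝ) ^ s := by
      have h3 : ((16 * M : ℕ) : ℝ) ≤ 2 ^ (16 * M) := by
        exact_mod_cast Nat.lt_two_pow_self.le
      calc (((16 * M : ℕ) : ℝ)) ^ (4 * u) ≤ ((2 : ℝ) ^ (16 * M)) ^ (4 * u) :=
            pow_le_pow_left₀ (Nat.cast_nonneg _) h3 _
        _ = 2 ^ (64 * M * u) := by
            rw [← pow_mul]
            congr 1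
            ring
        _ ≤ 2 ^ (2 * s) := pow_le_pow_right₀ (by norm_num) (by omega)
        _ = 4 ^ s := by
            rw [pow_mul]
            norm_num
    calc (((16 * M : ℕ) : ℝ)) ^ (4 * u) * (1 + 2 ^ 2 / ((16 * M : ℕ) : ℝ)) ^ r ≤
          4 ^ s * 2 ^ s := mul_le_mul h2 h1 (by positivity) (by positivity)
      _ = 8 ^ s := by
          rw [← mul_pow]
          norm_num
  have hbad := badU_le hF (4 * u) hcount
  have hne : Nonempty (Fin n) := ⟨⟨0, hn0⟩⟩
  obtain ⟨T, hT1, hT2⟩ : ∃ T : Fin r × Fin 3 → Fin n, coin T ≤ 72 * ρ * r ∧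
      GoodU lam3 T s (4 * u) := by
    by_contra hno
    rw [not_exists] at hno
    have h1 := few_coin (V := Fin n) hr0 ρ (by rw [hcardV]; exact hnr)
    set N := Fintype.card (Fin r × Fin 3 → Fin n) with hN
    have hN0 : 0 < N := Fintype.card_pos
    have h2 : N ≤ (univ.filter fun T : Fin r × Fin 3 → Fin n => ¬ coin T ≤ 72 * ρ * r).card +
        (univ.filter fun T : Fin r × Fin 3 → Fin n => ¬ GoodU lam3 T s (4 * u)).card := by
      rw [hN, ← Finset.card_univ]
      refine (Finset.card_le_card ?_).trans (Finset.card_union_le _ _)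
      intro T _
      rw [Finset.mem_union, Finset.mem_filter, Finset.mem_filter]
      by_cases h3 : coin T ≤ 72 * ρ * r
      · exact Or.inr ⟨Finset.mem_univ _, fun h4 => hno T ⟨h3, h4⟩⟩
      · exact Or.inl ⟨Finset.mem_univ _, h3⟩
    have h3 : (N : ℝ) ≤ N / 2 + 4 / 31 * N := by
      have h4 : (N : ℝ) ≤
          ((univ.filter fun T : Fin r × Fin 3 → Fin n => ¬ coin T ≤ 72 * ρ * r).card : ℝ) +
          ((univ.filter fun T : Fin r × Fin 3 → Fin n => ¬ GoodU lam3 T s (4 * u)).card : ℝ) := by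
        exact_mod_cast h2
      have h5 : 2 * ((univ.filter fun T : Fin r × Fin 3 → Fin n =>
          ¬ coin T ≤ 72 * ρ * r).card : ℝ) ≤ N := by
        have h6 : 2 * (univ.filter fun T : Fin r × Fin 3 → Fin n =>
            ¬ coin T ≤ 72 * ρ * r).card ≤ N := by
          refine le_trans (le_of_eq ?_) h1
          congr 2
        exact_mod_cast h6
      linarith
    have h4 : (0 : ℝ) < N := by exact_mod_cast hN0
    linarith
  -- the constants
  obtain ⟨b, hb⟩ := Pool.Agent.H30R2.NS.exists_far (V := Fin n) (m := r) hγ (by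
    rw [hcardV]
    have h1 : (n : ℝ) ≤ r / ρ := by
      rw [hn]
      exact Nat.cast_div_le
    have h2 : (r : ℝ) / ρ ≤ γ ^ 2 * r := by
      rw [div_le_iff₀ (by exact_mod_cast hρ0)]
      have h3 : (0 : ℝ) ≤ r := Nat.cast_nonneg r
      nlinarith
    have h4 : Real.log 2 < 0.7 := by
      have := Real.log_two_lt_d9
      linarith
    have h5 : (0 : ℝ) < γ ^ 2 * r := by positivity
    have h6 : (0 : ℝ) < Real.log 2 := Real.log_pos (by norm_num)
    calc Real.log 2 * n ≤ 0.7 * (γ ^ 2 * r) := by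
          apply mul_le_mul h4.le (h1.trans h2) (Nat.cast_nonneg _) (by norm_num)
      _ < 2 * γ ^ 2 * r := by nlinarith) T
  refine ⟨n, T, fun x => if x.2 = 0 then b x.1 else 0, s, ?_, ?_, by omega, ?_⟩
  · refine hT1.trans ?_
    apply Nat.mul_le_mul_right
    refine le_trans ?_ hMC
    rw [hM, mul_comm ρ K]
    exact Nat.mul_le_mul_right _ hK1
  · intro x
    have h1 := hb x
    have h2 : (univ.filter fun i : Fin r => SatBl lam3 T
        (fun x => if x.2 = 0 then b x.1 else 0) x (s1 i)) ⊆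
        univ.filter fun i : Fin r => ¬ (Pool.Agent.H30R2.NS.A T x + b) i ≠ 0 := by
      intro i hi
      rw [Finset.mem_filter] at hi ⊢
      refine ⟨Finset.mem_univ _, not_not.2 ?_⟩
      obtain ⟨u, hu⟩ := hi.2 0
      have e0 := hu 0
      have e1 := hu 1
      have e2 := hu 2
      have h3 := lam3_sum u
      have h4 : (Pool.Agent.H30R2.NS.A T x + b) i = x (T (i, 0)) + x (T (i, 1)) + x (T (i, 2)) +
          b i := by
        show ∑ k, x (T (i, k)) + b i = _
        rw [Fin.sum_univ_three]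
      rw [h4]
      have f0 : x (T (i, 0)) = pr (lam3 0) u + b i := e0
      have f1 : x (T (i, 1)) = pr (lam3 1) u + 0 := e1
      have f2 : x (T (i, 2)) = pr (lam3 2) u + 0 := e2
      rw [f0, f1, f2]
      have h5 := CharTwo.add_self_eq_zero (b i)
      linear_combination h3 + h5
    have h3 := Finset.card_filter_add_card_filter_not (s := (univ : Finset (Fin r)))
      (fun i => (Pool.Agent.H30R2.NS.A T x + b) i ≠ 0)
    rw [Finset.card_univ, Fintype.card_fin] at h3
    have h4 : (Pool.Agent.H30R2.NS.wt (Pool.Agent.H30R2.NS.A T x + b)) =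
      (univ.filter fun i => (Pool.Agent.H30R2.NS.A T x + b) i ≠ 0).card := rfl
    have h5 : ((univ.filter fun i : Fin r => SatBl lam3 T
        (fun x => if x.2 = 0 then b x.1 else 0) x (s1 i)).card : ℝ) ≤
        ((univ.filter fun i : Fin r => ¬ (Pool.Agent.H30R2.NS.A T x + b) i ≠ 0).card : ℝ) := by
      exact_mod_cast Finset.card_le_card h2
    have h6 : ((univ.filter fun i => (Pool.Agent.H30R2.NS.A T x + b) i ≠ 0).card : ℝ) +
        ((univ.filter fun i : Fin r => ¬ (Pool.Agent.H30R2.NS.A T x + b) i ≠ 0).card : ℝ) = r := by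
      exact_mod_cast h3
    rw [h4] at h1
    linarith
  · rw [← hu]
    exact hT2

end Pool.Agent.H550R2.Cl
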