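import Pool.Agent.H550R2.Cl.VC
import Pool.Agent.H550R2.Lift.GISym

set_option autoImplicit false
set_option linter.unusedSectionVars false

/-! Robust graph isomorphism and semidefinite programs that are symmetric on quadruples of
vertices of the first graph. -/

namespace Pool.Agent.H550R2.Cl

open Finset Pool.Agent.H550R2.Lift
open Pool.Agent.H550R2.Neg (RSDP acc_close)

/-- The number of pairs of vertices on which the bijection `f` does not respect the graphs: edges
that are mapped to non-edges and non-edges that are mapped to edges. -/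
noncomputable def errs {W : Type} (f : Equiv.Perm W) (G H : SimpleGraph W) : ℕ :=
  {e : Sym2 W | ¬ (e ∈ G.edgeSet ↔ edPerm f e ∈ H.edgeSet)}.ncard

/-- Every bijection makes at least `K` errors. -/
def FarIso {W : Type} (K : ℝ) (G H : SimpleGraph W) : Prop :=
  ∀ f : Equiv.Perm W, K ≤ (errs f G H : ℝ)

/-- The graph has at most `M` edges. -/
def FewEdges {W : Type} (M : ℝ) (G : SimpleGraph W) : Prop := (G.edgeSet.ncard : ℝ) ≤ M

/-- The random program tells isomorphic graphs from graphs between which every bijection makes at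
least `K` errors, for graphs with at most `M` edges and with error at most `1 / 3`: it accepts the
former pairs and rejects the latter, or the other way around. -/
def SepGI {W : Type} (R : RSDP (Sym2 (W ⊕ W))) (M K : ℝ) : Prop :=
  (∀ G H : SimpleGraph W, FewEdges M G → FewEdges M H →
    (Nonempty (G ≃g H) → 2 / 3 ≤ R.acc (G ⊕g H).edgeSet) ∧
    (FarIso K G H → R.acc (G ⊕g H).edgeSet ≤ 1 / 3)) ∨
  ∀ G H : SimpleGraph W, FewEdges M G → FewEdges M H →
    (Nonempty (G ≃g H) → R.acc (G ⊕g H).edgeSet ≤ 1 / 3) ∧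
    (FarIso K G H → 2 / 3 ≤ R.acc (G ⊕g H).edgeSet)

/-- The same for one program. -/
def DecGI {W D : Type} [Fintype D] [DecidableEq D] (P : SDP (Sym2 (W ⊕ W)) D) (M K : ℝ) : Prop :=
  (∀ G H : SimpleGraph W, FewEdges M G → FewEdges M H →
    (Nonempty (G ≃g H) → P.Acc (gvec (G ⊕g H))) ∧ (FarIso K G H → ¬ P.Acc (gvec (G ⊕g H)))) ∨
  ∀ G H : SimpleGraph W, FewEdges M G → FewEdges M H →
    (Nonempty (G ≃g H) → ¬ P.Acc (gvec (G ⊕g H))) ∧ (FarIso K G H → P.Acc (gvec (G ⊕g H)))

section fst

variable {B β W : Type}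

/-- the copies of the blocks in the first graph -/
def fstBl (blk : B × (β → ZMod 2) ↪ W) : B × (β → ZMod 2) ↪ W ⊕ W :=
  blk.trans Function.Embedding.inl

theorem tp_inl (blk : B × (β → ZMod 2) ↪ W) (γ : B × β → ZMod 2) (u : W) :
    tp (fstBl blk) γ (Sum.inl u) = Sum.inl (tp blk γ u) := by
  by_cases hu : u ∈ Set.range blk
  · obtain ⟨x, rfl⟩ := hu
    rw [tp_apply]
    exact tp_apply (fstBl blk) γ x
  · rw [tp_notMem blk _ hu, tp_notMem]
    rintro ⟨x, hx⟩
    exact hu ⟨x, Sum.inl_injective hx⟩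

theorem tp_inr (blk : B × (β → ZMod 2) ↪ W) (γ : B × β → ZMod 2) (u : W) :
    tp (fstBl blk) γ (Sum.inr u) = Sum.inr u := by
  rw [tp_notMem]
  rintro ⟨x, hx⟩
  have h : (Sum.inl (blk x) : W ⊕ W) = Sum.inr u := hx
  exact absurd h (by simp)

theorem sum_comap (blk : B × (β → ZMod 2) ↪ W) (γ : B × β → ZMod 2) (G H : SimpleGraph W) :
    (G ⊕g H).comap (tp (fstBl blk) γ) = (G.comap (tp blk γ)) ⊕g H := by
  ext a b
  rw [SimpleGraph.comap_adj]
  rcases a with a | a <;> rcases b with b | b
  · rw [tp_inl, tp_inl]; exact Iff.rfl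
  · rw [tp_inl, tp_inr]; exact Iff.rfl
  · rw [tp_inr, tp_inl]; exact Iff.rfl
  · rw [tp_inr, tp_inr]; exact Iff.rfl

end fst

section edges

variable {V W : Type} [Fintype V] [DecidableEq V] {r : ℕ}

open Classical in
/-- The graphs have few edges. -/
theorem hg_edges (blk : Fin r × (Fin 2 → ZMod 2) ↪ W) (T : Fin r × Fin 3 → V)
    (c : Fin r × Fin 3 → ZMod 2) :
    (hg blk lam3 g1 s1 T c).edgeSet.ncard ≤ 16 * r + 32 * coin T := by
  set P1 := univ.filter fun π : (Fin r × Fin 3) × (Fin r × Fin 3) =>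
    π.1 ≠ π.2 ∧ T π.1 = T π.2 with hP1
  set P2 := univ.filter fun π : (Fin r × Fin 3) × (Fin r × Fin 3) =>
      π.1 ≠ π.2 ∧ π.1.1 = π.2.1 ∧ T π.1 = T π.2 with hP2
  have hcoin : coin T = P1.card + r * P2.card := by
    unfold coin
    rw [hP1, hP2]
  let Q1 : Finset (Fin r × Fin r) := univ.image fun i => (i, i)
  let Q2 : Finset (Fin r × Fin r) := P1.image fun π => (π.1.1, π.2.1)
  let Q3 : Finset (Fin r × Fin r) := (P2 ×ˢ univ).image fun π => (π.1.1.1, π.2)
  let Q4 : Finset (Fin r × Fin r) := (P2 ×ˢ univ).image fun π => (π.2, π.1.1.1)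
  let Q : Finset (Fin r × Fin r) := (Q1 ∪ Q2) ∪ (Q3 ∪ Q4)
  have hQ : Q.card ≤ r + P1.card + (r * P2.card + r * P2.card) := by
    refine (Finset.card_union_le _ _).trans (Nat.add_le_add
      ((Finset.card_union_le _ _).trans (Nat.add_le_add ?_ Finset.card_image_le))
      ((Finset.card_union_le _ _).trans (Nat.add_le_add ?_ ?_)))
    · refine Finset.card_image_le.trans (le_of_eq ?_)
      rw [Finset.card_univ, Fintype.card_fin]
    · refine Finset.card_image_le.trans (le_of_eq ?_)
      rw [Finset.card_product, Finset.card_univ, Fintype.card_fin, mul_comm]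
    · refine Finset.card_image_le.trans (le_of_eq ?_)
      rw [Finset.card_product, Finset.card_univ, Fintype.card_fin, mul_comm]
  let F : Finset (Sym2 W) :=
    (Q ×ˢ (univ : Finset ((Fin 2 → ZMod 2) × (Fin 2 → ZMod 2)))).image fun p =>
      s(blk (p.1.1, p.2.1), blk (p.1.2, p.2.2))
  have hF : F.card ≤ Q.card * 16 := by
    refine Finset.card_image_le.trans (le_of_eq ?_)
    rw [Finset.card_product, Finset.card_univ, Fintype.card_prod, Fintype.card_fun, ZMod.card,
      Fintype.card_fin]
    norm_num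
  have hsub : (hg blk lam3 g1 s1 T c).edgeSet ⊆ ↑F := by
    intro e he
    induction e using Sym2.ind with
    | _ u w =>
      obtain ⟨x, y, rfl, rfl, h1, h2⟩ := (SimpleGraph.mem_edgeSet _).1 he
      rw [Finset.mem_coe, Finset.mem_image]
      refine ⟨((x.1, y.1), (x.2, y.2)), ?_, rfl⟩
      rw [Finset.mem_product]
      refine ⟨?_, Finset.mem_univ _⟩
      show (x.1, y.1) ∈ (Q1 ∪ Q2) ∪ (Q3 ∪ Q4)
      by_cases hxy : x.1 = y.1
      · refine Finset.mem_union_left _ (Finset.mem_union_left _ ?_)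
        rw [Finset.mem_image]
        exact ⟨x.1, Finset.mem_univ _, by rw [← hxy]⟩
      · have h3 := h2.resolve_left hxy
        unfold Cons at h3
        rw [not_forall] at h3
        obtain ⟨o, h3⟩ := h3
        rw [not_forall] at h3
        obtain ⟨o', h3⟩ := h3
        rw [Classical.not_imp] at h3
        obtain ⟨h4, h5⟩ := h3
        have hpne : pos s1 x.1 y.1 o ≠ pos s1 x.1 y.1 o' := by
          intro h6
          apply h5
          have h7 : o = o' := by
            obtain ⟨b, s, l⟩ := o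
            obtain ⟨b', s', l'⟩ := o'
            have e1 : cond b x.1 y.1 = cond b' x.1 y.1 := congrArg Prod.fst h6
            have e2 : l = l' := congrArg Prod.snd h6
            have e3 : b = b' := by
              cases b <;> cases b'
              · rfl
              · exact absurd e1 (Ne.symm hxy)
              · exact absurd e1 hxy
              · rfl
            rw [e2, e3, Subsingleton.elim s s']
          rw [h7]
        obtain ⟨b, s, l⟩ := o
        obtain ⟨b', s', l'⟩ := o'
        cases b <;> cases b'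
        · refine Finset.mem_union_right _ (Finset.mem_union_right _ ?_)
          rw [Finset.mem_image]
          refine ⟨(((y.1, l), (y.1, l')), x.1), ?_, rfl⟩
          rw [Finset.mem_product, hP2, Finset.mem_filter]
          exact ⟨⟨Finset.mem_univ _, hpne, rfl, h4⟩, Finset.mem_univ _⟩
        · refine Finset.mem_union_left _ (Finset.mem_union_right _ ?_)
          rw [Finset.mem_image]
          refine ⟨((x.1, l'), (y.1, l)), ?_, rfl⟩
          rw [hP1, Finset.mem_filter]
          exact ⟨Finset.mem_univ _, Ne.symm hpne, h4.symm⟩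
        · refine Finset.mem_union_left _ (Finset.mem_union_right _ ?_)
          rw [Finset.mem_image]
          refine ⟨((x.1, l), (y.1, l')), ?_, rfl⟩
          rw [hP1, Finset.mem_filter]
          exact ⟨Finset.mem_univ _, hpne, h4⟩
        · refine Finset.mem_union_right _ (Finset.mem_union_left _ ?_)
          rw [Finset.mem_image]
          refine ⟨(((x.1, l), (x.1, l')), y.1), ?_, rfl⟩
          rw [Finset.mem_product, hP2, Finset.mem_filter]
          exact ⟨⟨Finset.mem_univ _, hpne, rfl, h4⟩, Finset.mem_univ _⟩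
  have h1 : (hg blk lam3 g1 s1 T c).edgeSet.ncard ≤ F.card := by
    rw [← Set.ncard_coe_finset]
    exact Set.ncard_le_ncard hsub (Finset.finite_toSet F)
  have h2 : Q.card * 16 ≤ 16 * r + 32 * coin T := by
    rw [hcoin]
    have h3 := Nat.mul_le_mul_right 16 hQ
    refine h3.trans ?_
    nlinarith [Nat.zero_le P1.card]
  exact h1.trans (hF.trans h2)

end edges

section far

variable {W : Type} [Finite W]

open Classical in
/-- A gap for vertex covers is a gap for isomorphism. -/
theorem far_of_vc {G H : SimpleGraph W} {k K : ℝ} (hH : SmallVC H k) (hG : LargeVC G K) :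
    FarIso (K - k) G H := by
  intro f
  obtain ⟨S, hS1, hS2⟩ := hH
  have hfin : {e : Sym2 W | ¬ (e ∈ G.edgeSet ↔ edPerm f e ∈ H.edgeSet)}.Finite := Set.toFinite _
  set X : Finset (Sym2 W) := hfin.toFinset with hX
  have hXc : errs f G H = X.card := by
    unfold errs
    rw [hX, Set.ncard_eq_toFinset_card _ hfin]
  set S' : Finset W := S.map f.symm.toEmbedding ∪ X.image (fun e => (Quot.out e).1) with hS'
  have h1 : G.IsVertexCover S' := by
    intro u w hadj
    by_cases he : s(u, w) ∈ X
    · have h2 : (Quot.out s(u, w)).1 ∈ s(u, w) := Sym2.out_fst_mem _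
      have h3 : (Quot.out s(u, w)).1 ∈ S' := by
        rw [hS']
        exact Finset.mem_union_right _ (Finset.mem_image_of_mem _ he)
      rcases Sym2.mem_iff.1 h2 with h4 | h4
      · left
        rw [h4] at h3
        exact Finset.mem_coe.2 h3
      · right
        rw [h4] at h3
        exact Finset.mem_coe.2 h3
    · have h2 : s(u, w) ∈ G.edgeSet ↔ edPerm f s(u, w) ∈ H.edgeSet := by
        by_contra hn
        apply he
        rw [hX, Set.Finite.mem_toFinset]
        exact hn
      have h3 := h2.1 ((SimpleGraph.mem_edgeSet _).2 hadj)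
      rw [edPerm_mk, SimpleGraph.mem_edgeSet] at h3
      rcases hS1 h3 with h4 | h4
      · left
        rw [Finset.mem_coe, hS', Finset.mem_union, Finset.mem_map_equiv, Equiv.symm_symm]
        exact Or.inl h4
      · right
        rw [Finset.mem_coe, hS', Finset.mem_union, Finset.mem_map_equiv, Equiv.symm_symm]
        exact Or.inl h4
  have h2 := hG S' h1
  have h3 : S'.card ≤ S.card + X.card := by
    rw [hS']
    refine (Finset.card_union_le _ _).trans (Nat.add_le_add (le_of_eq ?_) Finset.card_image_le)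
    rw [Finset.card_map]
  have h4 : (S'.card : ℝ) ≤ S.card + X.card := by exact_mod_cast h3
  rw [hXc]
  linarith

end far

/-- **Lower bound.** -/
theorem gi_lower (ε : ℝ) (hε : 0 < ε) : ∃ C : ℕ, 0 < C ∧ ∀ r : ℕ, C ≤ r →
    ∀ (W : Type) [Finite W] (blk : Fin r × (Fin 2 → ZMod 2) ↪ W) (R : RSDP (Sym2 (W ⊕ W))),
    TransSym R (fstBl blk) → SepGI R (C * r) ((1 / 2 - ε) * r) →
    ∀ N : ℕ, (∀ ω, Fintype.card (R.D ω) ≤ N) → 2 ^ (r / C) ≤ N := by
  classical
  obtain ⟨C, hC0, hC⟩ := quad_pair ε hε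
  refine ⟨16 + 32 * C, by omega, fun r hr W _ blk R hR hsep N hN => ?_⟩
  by_contra hcon
  rw [not_le] at hcon
  have h1 : r / (16 + 32 * C) ≤ r / C := Nat.div_le_div_left (by omega) hC0
  obtain ⟨n, T, c, h0, h2, h3⟩ := hC r (by omega) (Sym2 (W ⊕ W)) R
    (fun γ => edPerm (tp (fstBl blk) γ))
    (fun γ γ' => by rw [tp_add, edPerm_mul]) hR (fun ω => (hN ω).trans
      (hcon.le.trans (Nat.pow_le_pow_right (by norm_num) h1)))
  have hfew : ∀ d, FewEdges ((16 + 32 * C : ℕ) * r) (hg blk lam3 g1 s1 T d) := by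
    intro d
    have h4 := (hg_edges blk T d).trans
      (Nat.add_le_add_left (Nat.mul_le_mul_left 32 h0) (16 * r))
    have h5 : 16 * r + 32 * (C * r) = (16 + 32 * C) * r := by ring
    rw [h5] at h4
    unfold FewEdges
    exact_mod_cast h4
  have hS1 : ∀ d y i, (edPerm (tp (fstBl blk) (tau g1 s1 y))).symm i ∈
      ((hg blk lam3 g1 s1 T d) ⊕g (hg blk lam3 g1 s1 T 0)).edgeSet ↔
      i ∈ ((hg blk lam3 g1 s1 T (d + dlt lam3 y)) ⊕g (hg blk lam3 g1 s1 T 0)).edgeSet := by
    intro d y i
    induction i using Sym2.ind with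
    | _ u w =>
      rw [edPerm_symm, SimpleGraph.mem_edgeSet, SimpleGraph.mem_edgeSet]
      rcases u with u | u <;> rcases w with w | w
      · rw [tp_inl, tp_inl]
        exact hg_shift blk g1_inj s1 T d y u w
      · rw [tp_inl, tp_inr]; exact Iff.rfl
      · rw [tp_inr, tp_inl]; exact Iff.rfl
      · rw [tp_inr, tp_inr]; exact Iff.rfl
  have hS2 : Local T 2 fun d =>
      ((hg blk lam3 g1 s1 T d) ⊕g (hg blk lam3 g1 s1 T 0)).edgeSet := by
    intro i
    induction i using Sym2.ind with
    | _ u w =>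
      rcases u with u | u <;> rcases w with w | w
      · obtain ⟨Xs, e1, e2⟩ := hg_loc blk lam3 g1 s1 T 2 (by norm_num) u w
        refine ⟨Xs, e1, fun d d' hd => ?_⟩
        rw [SimpleGraph.mem_edgeSet, SimpleGraph.mem_edgeSet]
        exact e2 d d' hd
      · exact ⟨∅, Nat.zero_le _, fun d d' _ => Iff.rfl⟩
      · exact ⟨∅, Nat.zero_le _, fun d d' _ => Iff.rfl⟩
      · exact ⟨∅, Nat.zero_le _, fun d d' _ => Iff.rfl⟩
  obtain ⟨h4, h5⟩ := h3 (fun d =>
    ((hg blk lam3 g1 s1 T d) ⊕g (hg blk lam3 g1 s1 T 0)).edgeSet) hS1 hS2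
  have h6 : Nonempty (hg blk lam3 g1 s1 T 0 ≃g hg blk lam3 g1 s1 T 0) := ⟨RelIso.refl _⟩
  have h7 : FarIso ((1 / 2 - ε) * r) (hg blk lam3 g1 s1 T c) (hg blk lam3 g1 s1 T 0) := by
    have := far_of_vc (small_cover blk T) (large_cover blk T c ε hε (by omega) h2)
    intro f
    have h8 := this f
    linarith
  rcases hsep with h | h
  · have e1 := (h _ _ (hfew 0) (hfew 0)).1 h6
    have e2 := (h _ _ (hfew c) (hfew 0)).2 h7
    linarith
  · have e1 := (h _ _ (hfew 0) (hfew 0)).1 h6
    have e2 := (h _ _ (hfew c) (hfew 0)).2 h7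
    linarith

section conv

variable {W : Type}

theorem comap_edges (G : SimpleGraph W) (p : Equiv.Perm W) :
    (G.comap p).edgeSet = edPerm p ⁻¹' G.edgeSet := by
  ext i
  induction i using Sym2.ind with
  | _ u w =>
    rw [Set.mem_preimage, edPerm_mk, SimpleGraph.mem_edgeSet, SimpleGraph.mem_edgeSet,
      SimpleGraph.comap_adj]

theorem few_comap {G : SimpleGraph W} {M : ℝ} (p : Equiv.Perm W) (h : FewEdges M G) :
    FewEdges M (G.comap p) := by
  unfold FewEdges at h ⊢
  rw [comap_edges, Set.ncard_preimage_of_injective_subset_range (edPerm p).injective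
    (by rw [(edPerm p).surjective.range_eq]; exact Set.subset_univ _)]
  exact h

theorem far_comap {G H : SimpleGraph W} {K : ℝ} (p : Equiv.Perm W) (h : FarIso K G H) :
    FarIso K (G.comap p) H := by
  intro f
  have h1 := h (f * p⁻¹)
  refine h1.trans (le_of_eq ?_)
  congr 1
  unfold errs
  have h2 : {e : Sym2 W | ¬ (e ∈ (G.comap p).edgeSet ↔ edPerm f e ∈ H.edgeSet)} =
      edPerm p ⁻¹' {e : Sym2 W | ¬ (e ∈ G.edgeSet ↔ edPerm (f * p⁻¹) e ∈ H.edgeSet)} := by
    ext e
    rw [Set.mem_preimage, Set.mem_ofPred_eq, Set.mem_ofPred_eq, comap_edges, Set.mem_preimage,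
      ← Equiv.Perm.mul_apply, ← edPerm_mul, inv_mul_cancel_right]
  rw [h2, Set.ncard_preimage_of_injective_subset_range (edPerm p).injective
    (by rw [(edPerm p).surjective.range_eq]; exact Set.subset_univ _)]

/-- **Converse.** -/
theorem gi_conv {r : ℕ} (blk : Fin r × (Fin 2 → ZMod 2) ↪ W) (M K : ℝ) (D : Type) [Fintype D]
    [DecidableEq D] (P : SDP (Sym2 (W ⊕ W)) D) (hP : DecGI P M K) :
    ∃ (D' : Type) (_ : Fintype D') (_ : DecidableEq D') (P' : SDP (Sym2 (W ⊕ W)) D'),
      Fintype.card D' = 4 ^ r * Fintype.card D ∧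
      (∀ γ, ∃ O, P'.IsAut (edPerm (tp (fstBl blk) γ)) O) ∧ DecGI P' M K := by
  classical
  let G0 := Multiplicative (Fin r × Fin 2 → ZMod 2)
  let A : G0 → Equiv.Perm (Sym2 (W ⊕ W)) := fun γ => edPerm (tp (fstBl blk) γ.toAdd)
  have hA : ∀ g h, A (g * h) = A g * A h := by
    intro g h
    show edPerm (tp (fstBl blk) (g.toAdd + h.toAdd)) = _
    rw [tp_add, edPerm_mul]
  have hacc : ∀ G H : SimpleGraph W, (P.symG A).Acc (gvec (G ⊕g H)) ↔
      ∀ γ : G0, P.Acc (gvec ((G.comap (tp blk γ.toAdd)) ⊕g H)) := by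
    intro G H
    rw [SDP.symG_acc]
    have h1 : ∀ γ : G0, (fun i => gvec (G ⊕g H) (A γ i)) =
        gvec ((G.comap (tp blk γ.toAdd)) ⊕g H) := by
      intro γ
      rw [← sum_comap]
      exact gvec_perm _ _
    simp_rw [h1]
  have hiso : ∀ (G H : SimpleGraph W) (p : Equiv.Perm W), Nonempty (G ≃g H) →
      Nonempty (G.comap p ≃g H) := by
    rintro G H p ⟨f⟩
    obtain ⟨g⟩ := comap_iso G p
    exact ⟨g.trans f⟩
  refine ⟨G0 × D, inferInstance, inferInstance, P.symG A, ?_, ?_, ?_⟩
  · rw [Fintype.card_prod]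
    congr 1
    have h1 : Fintype.card G0 = Fintype.card (Fin r × Fin 2 → ZMod 2) :=
      Fintype.card_congr Multiplicative.toAdd
    rw [h1, Fintype.card_fun, ZMod.card, Fintype.card_prod, Fintype.card_fin, Fintype.card_fin,
      mul_comm, pow_mul]
    norm_num
  · intro γ
    exact P.symG_sym A hA (Multiplicative.ofAdd γ)
  · rcases hP with h | h
    · left
      intro G H hG hH
      refine ⟨fun h1 => ?_, fun h1 => ?_⟩
      · rw [hacc]
        intro γ
        exact (h _ _ (few_comap _ hG) hH).1 (hiso _ _ _ h1)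
      · rw [hacc]
        intro h2
        exact (h _ _ (few_comap _ hG) hH).2 (far_comap _ h1) (h2 1)
    · right
      intro G H hG hH
      refine ⟨fun h1 => ?_, fun h1 => ?_⟩
      · rw [hacc]
        intro h2
        exact (h _ _ (few_comap _ hG) hH).1 (hiso _ _ _ h1) (h2 1)
      · rw [hacc]
        intro γ
        exact (h _ _ (few_comap _ hG) hH).2 (far_comap _ h1)

end conv

end Pool.Agent.H550R2.Cl
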