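import Pool.Agent.H550R2.Cl.Quad
import Pool.Agent.H550R2.Lift.SymG

set_option autoImplicit false
set_option linter.unusedSectionVars false

/-! Vertex covers and semidefinite programs that are symmetric on quadruples of vertices. -/

namespace Pool.Agent.H550R2.Cl

open Finset Pool.Agent.H550R2.Lift
open Pool.Agent.H550R2.Neg (RSDP acc_close)

/-- The graph has a vertex cover with at most `k` vertices. -/
def SmallVC {W : Type} (G : SimpleGraph W) (k : ℝ) : Prop :=
  ∃ S : Finset W, G.IsVertexCover S ∧ (S.card : ℝ) ≤ k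

/-- All vertex covers of the graph have at least `K` vertices. -/
def LargeVC {W : Type} (G : SimpleGraph W) (K : ℝ) : Prop :=
  ∀ S : Finset W, G.IsVertexCover S → K ≤ (S.card : ℝ)

/-- The random program tells graphs with a vertex cover of at most `k` vertices from graphs all of
whose vertex covers have at least `K` vertices, with error at most `1 / 3`: it accepts the former
and rejects the latter, or the other way around. -/
def SepVC {W : Type} (R : RSDP (Sym2 W)) (k K : ℝ) : Prop :=
  (∀ G : SimpleGraph W, (SmallVC G k → 2 / 3 ≤ R.acc G.edgeSet) ∧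
    (LargeVC G K → R.acc G.edgeSet ≤ 1 / 3)) ∨
  ∀ G : SimpleGraph W, (SmallVC G k → R.acc G.edgeSet ≤ 1 / 3) ∧
    (LargeVC G K → 2 / 3 ≤ R.acc G.edgeSet)

/-- The program accepts graphs with a vertex cover of at most `k` vertices and rejects graphs all
of whose vertex covers have at least `K` vertices, or the other way around. -/
def DecVC {W D : Type} [Fintype D] [DecidableEq D] (P : SDP (Sym2 W) D) (k K : ℝ) : Prop :=
  (∀ G : SimpleGraph W, (SmallVC G k → P.Acc (gvec G)) ∧ (LargeVC G K → ¬ P.Acc (gvec G))) ∨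
  ∀ G : SimpleGraph W, (SmallVC G k → ¬ P.Acc (gvec G)) ∧ (LargeVC G K → P.Acc (gvec G))

section lower

variable {V W : Type} [Fintype V] [DecidableEq V] {r : ℕ}

/-- a small vertex cover in the satisfiable case -/
theorem small_cover (blk : Fin r × (Fin 2 → ZMod 2) ↪ W) (T : Fin r × Fin 3 → V) :
    SmallVC (hg blk lam3 g1 s1 T 0) (3 * r) := by
  classical
  refine ⟨(univ.filter fun x : Fin r × (Fin 2 → ZMod 2) => x.2 ≠ 0).map blk, ?_, ?_⟩
  · rintro u w ⟨x, y, rfl, rfl, h⟩
    by_contra hn
    rw [not_or] at hn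
    have hx : x.2 = 0 := by
      by_contra hx
      exact hn.1 (Finset.mem_coe.2 (Finset.mem_map_of_mem blk
        (Finset.mem_filter.2 ⟨Finset.mem_univ _, hx⟩)))
    have hy : y.2 = 0 := by
      by_contra hy
      exact hn.2 (Finset.mem_coe.2 (Finset.mem_map_of_mem blk
        (Finset.mem_filter.2 ⟨Finset.mem_univ _, hy⟩)))
    have hx' : x = (x.1, 0) := Prod.ext rfl hx
    have hy' : y = (y.1, 0) := Prod.ext rfl hy
    apply zero_indep blk lam3 g1 s1 T x.1 y.1
    rw [hg_adj, ← hx', ← hy']
    exact h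
  · rw [Finset.card_map]
    have h1 : (univ.filter fun x : Fin r × (Fin 2 → ZMod 2) => x.2 ≠ 0) =
        (univ : Finset (Fin r)) ×ˢ (univ.filter fun z : Fin 2 → ZMod 2 => z ≠ 0) := by
      ext x
      rw [Finset.mem_filter, Finset.mem_product, Finset.mem_filter]
      exact ⟨fun h => ⟨Finset.mem_univ _, Finset.mem_univ _, h.2⟩,
        fun h => ⟨Finset.mem_univ _, h.2.2⟩⟩
    have h2 : (univ.filter fun z : Fin 2 → ZMod 2 => z ≠ 0).card = 3 := by decide
    rw [h1, Finset.card_product, h2, Finset.card_univ, Fintype.card_fin]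
    push_cast
    linarith

open Classical in
/-- all vertex covers are large in the other case -/
theorem large_cover (blk : Fin r × (Fin 2 → ZMod 2) ↪ W) (T : Fin r × Fin 3 → V)
    (c : Fin r × Fin 3 → ZMod 2) (γ : ℝ) (hγ : 0 < γ) (hr : 2 ≤ r)
    (h : ∀ x : V → ZMod 2, ((univ.filter fun i : Fin r => SatBl lam3 T c x (s1 i)).card : ℝ) ≤
      (1 / 2 + γ) * r) :
    LargeVC (hg blk lam3 g1 s1 T c) ((7 / 2 - γ) * r) := by
  intro S hS
  set S' : Finset W := (univ.map blk) \ S with hS'
  have h1 : S'.card ≤ ⌊(1 / 2 + γ) * r⌋₊ := by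
    apply indep_sol (blk := blk) (lam := lam3) (g := g1) (σ := s1) (T := T) (c := c)
    · intro v hv w hw hadj
      rcases hS hadj with h2 | h2
      · exact (Finset.mem_sdiff.1 hv).2 (Finset.mem_coe.1 h2)
      · exact (Finset.mem_sdiff.1 hw).2 (Finset.mem_coe.1 h2)
    · intro v hv
      obtain ⟨x, -, hx⟩ := Finset.mem_map.1 (Finset.mem_sdiff.1 hv).1
      exact ⟨x, hx⟩
    · rw [Nat.le_floor_iff (by positivity)]
      have h2 : (2 : ℝ) ≤ r := by exact_mod_cast hr
      push_cast
      nlinarith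
    · intro x
      rw [Nat.le_floor_iff (by positivity)]
      exact h x
  have h2 : (S'.card : ℝ) ≤ (1 / 2 + γ) * r :=
    (Nat.le_floor_iff (by positivity)).1 h1
  have h3 : ((univ : Finset (Fin r × (Fin 2 → ZMod 2))).map blk).card = 4 * r := by
    rw [Finset.card_map, Finset.card_univ, Fintype.card_prod, Fintype.card_fin, Fintype.card_fun,
      ZMod.card, Fintype.card_fin]
    ring
  have h4 : ((univ : Finset (Fin r × (Fin 2 → ZMod 2))).map blk).card ≤ S'.card + S.card := by
    rw [hS']
    exact (Finset.card_le_card (fun v hv => by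
      rw [Finset.mem_union, Finset.mem_sdiff]
      by_cases hvS : v ∈ S
      · exact Or.inr hvS
      · exact Or.inl ⟨hv, hvS⟩)).trans (Finset.card_union_le _ _)
  rw [h3] at h4
  have h5 : ((4 * r : ℕ) : ℝ) ≤ S'.card + S.card := by exact_mod_cast h4
  push_cast at h5
  linarith

/-- **Lower bound.** -/
theorem vc_lower (ε : ℝ) (hε : 0 < ε) : ∃ C : ℕ, 0 < C ∧ ∀ r : ℕ, C ≤ r →
    ∀ (W : Type) (blk : Fin r × (Fin 2 → ZMod 2) ↪ W) (R : RSDP (Sym2 W)),
    TransSym R blk → SepVC R (3 * r) ((7 / 2 - ε) * r) →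
    ∀ N : ℕ, (∀ ω, Fintype.card (R.D ω) ≤ N) → 2 ^ (r / C) ≤ N := by
  classical
  obtain ⟨C, hC0, hC⟩ := quad_pair ε hε
  refine ⟨C + 2, by omega, fun r hr W blk R hR hsep N hN => ?_⟩
  by_contra hcon
  rw [not_le] at hcon
  have h1 : r / (C + 2) ≤ r / C := Nat.div_le_div_left (by omega) hC0
  obtain ⟨n, T, c, -, h2, h3⟩ := hC r (by omega) (Sym2 W) R (fun γ => edPerm (tp blk γ))
    (fun γ γ' => by rw [tp_add, edPerm_mul]) hR (fun ω => (hN ω).trans
      (hcon.le.trans (Nat.pow_le_pow_right (by norm_num) h1)))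
  obtain ⟨h4, h5⟩ := h3 (fun c => (hg blk lam3 g1 s1 T c).edgeSet)
    (fun c y i => hg_sym blk g1_inj s1 T c y i) (hg_local blk lam3 g1 s1 T 2 (by norm_num))
  have h6 := small_cover blk T
  have h7 := large_cover blk T c ε hε (by omega) h2
  rcases hsep with h | h
  · have e1 := (h _).1 h6
    have e2 := (h _).2 h7
    linarith
  · have e1 := (h _).1 h6
    have e2 := (h _).2 h7
    linarith

end lower

section conv

variable {W : Type}

theorem gvec_perm (G : SimpleGraph W) (p : Equiv.Perm W) :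
    (fun i => gvec G (edPerm p i)) = gvec (G.comap p) := by
  classical
  ext i
  unfold gvec ind
  rw [Set.indicator_apply, Set.indicator_apply]
  induction i using Sym2.ind with
  | _ u w =>
    have h : edPerm p s(u, w) ∈ G.edgeSet ↔ s(u, w) ∈ (G.comap p).edgeSet := by
      rw [edPerm_mk, SimpleGraph.mem_edgeSet, SimpleGraph.mem_edgeSet, SimpleGraph.comap_adj]
    by_cases h1 : edPerm p s(u, w) ∈ G.edgeSet
    · rw [if_pos h1, if_pos (h.1 h1)]
      rfl
    · rw [if_neg h1, if_neg (fun h2 => h1 (h.2 h2))]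

theorem small_perm {G : SimpleGraph W} {k : ℝ} (p : Equiv.Perm W) (h : SmallVC G k) :
    SmallVC (G.comap p) k := by
  obtain ⟨S, h1, h2⟩ := h
  refine ⟨S.map p.symm.toEmbedding, ?_, by rwa [Finset.card_map]⟩
  intro u w hadj
  rw [SimpleGraph.comap_adj] at hadj
  rcases h1 hadj with h3 | h3
  · left
    rw [Finset.mem_coe, Finset.mem_map_equiv, Equiv.symm_symm]
    exact h3
  · right
    rw [Finset.mem_coe, Finset.mem_map_equiv, Equiv.symm_symm]
    exact h3

theorem large_perm {G : SimpleGraph W} {K : ℝ} (p : Equiv.Perm W) (h : LargeVC G K) :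
    LargeVC (G.comap p) K := by
  intro S hS
  have h1 := h (S.map p.toEmbedding) (by
    intro u w hadj
    have h2 : (G.comap p).Adj (p.symm u) (p.symm w) := by
      rw [SimpleGraph.comap_adj, Equiv.apply_symm_apply, Equiv.apply_symm_apply]
      exact hadj
    rcases hS h2 with h3 | h3
    · left
      rw [Finset.mem_coe, Finset.mem_map_equiv]
      exact h3
    · right
      rw [Finset.mem_coe, Finset.mem_map_equiv]
      exact h3)
  rwa [Finset.card_map] at h1

/-- **Converse.** -/
theorem vc_conv {r : ℕ} (blk : Fin r × (Fin 2 → ZMod 2) ↪ W) (k K : ℝ) (D : Type) [Fintype D]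
    [DecidableEq D] (P : SDP (Sym2 W) D) (hP : DecVC P k K) :
    ∃ (D' : Type) (_ : Fintype D') (_ : DecidableEq D') (P' : SDP (Sym2 W) D'),
      Fintype.card D' = 4 ^ r * Fintype.card D ∧
      (∀ γ, ∃ O, P'.IsAut (edPerm (tp blk γ)) O) ∧ DecVC P' k K := by
  classical
  let G0 := Multiplicative (Fin r × Fin 2 → ZMod 2)
  let A : G0 → Equiv.Perm (Sym2 W) := fun γ => edPerm (tp blk γ.toAdd)
  have hA : ∀ g h, A (g * h) = A g * A h := by
    intro g h
    show edPerm (tp blk (g.toAdd + h.toAdd)) = _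
    rw [tp_add, edPerm_mul]
  have hacc : ∀ G : SimpleGraph W, (P.symG A).Acc (gvec G) ↔
      ∀ γ : G0, P.Acc (gvec (G.comap (tp blk γ.toAdd))) := by
    intro G
    rw [SDP.symG_acc]
    have h1 : ∀ γ : G0, (fun i => gvec G (A γ i)) = gvec (G.comap (tp blk γ.toAdd)) :=
      fun γ => gvec_perm G _
    simp_rw [h1]
  refine ⟨G0 × D, inferInstance, inferInstance, P.symG A, ?_, ?_, ?_⟩
  · rw [Fintype.card_prod]
    congr 1
    have h1 : Fintype.card G0 = Fintype.card (Fin r × Fin 2 → ZMod 2) :=
      Fintype.card_congr Multiplicative.toAdd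
    rw [h1, Fintype.card_fun, ZMod.card, Fintype.card_prod, Fintype.card_fin, Fintype.card_fin,
      mul_comm, pow_mul]
    norm_num
  · intro γ
    exact P.symG_sym A hA (Multiplicative.ofAdd γ)
  · rcases hP with h | h
    · left
      intro G
      refine ⟨fun h1 => ?_, fun h1 => ?_⟩
      · rw [hacc]
        intro γ
        exact (h _).1 (small_perm _ h1)
      · rw [hacc]
        intro h2
        exact (h _).2 (large_perm _ h1) (h2 1)
    · right
      intro G
      refine ⟨fun h1 => ?_, fun h1 => ?_⟩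
      · rw [hacc]
        intro h2
        exact (h _).1 (small_perm _ h1) (h2 1)
      · rw [hacc]
        intro γ
        exact (h _).2 (large_perm _ h1)

end conv

end Pool.Agent.H550R2.Cl
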