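import Pool.Agent.H550R2.Cl.QuadU
import Pool.Agent.H550R2.Cl.VC

set_option autoImplicit false
set_option linter.unusedSectionVars false

/-! Vertex cover on the subgraphs of a fixed sparse graph. -/

namespace Pool.Agent.H550R2.Cl

open Finset Matrix Pool.Agent.H550R2.Lift

section blow

variable {r : ℕ}

/-- The blow-up of a graph: every vertex is replaced by four mutually adjacent copies (indexed by
the plane over the field with two elements) and every edge by all edges between the copies. -/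
def blow (H : SimpleGraph (Fin r)) : SimpleGraph (Fin r × (Fin 2 → ZMod 2)) where
  Adj x y := x ≠ y ∧ (x.1 = y.1 ∨ H.Adj x.1 y.1)
  symm := by
    constructor
    rintro x y ⟨h1, h2⟩
    exact ⟨h1.symm, h2.imp Eq.symm fun h => h.symm⟩
  loopless := ⟨fun _ h => h.1 rfl⟩

/-- The permutation of the vertices of the blow-up given by permutations of the four copies of
each vertex. -/
def cpm (π : Fin r → Equiv.Perm (Fin 2 → ZMod 2)) : Equiv.Perm (Fin r × (Fin 2 → ZMod 2)) :=
  Equiv.prodShear (Equiv.refl _) π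

theorem cpm_apply (π : Fin r → Equiv.Perm (Fin 2 → ZMod 2)) (x : Fin r × (Fin 2 → ZMod 2)) :
    cpm π x = (x.1, π x.1 x.2) := rfl

theorem cpm_mul (π π' : Fin r → Equiv.Perm (Fin 2 → ZMod 2)) :
    cpm (π * π') = cpm π * cpm π' := rfl

theorem blow_cpm (H : SimpleGraph (Fin r)) (π : Fin r → Equiv.Perm (Fin 2 → ZMod 2))
    (x y : Fin r × (Fin 2 → ZMod 2)) : (blow H).Adj (cpm π x) (cpm π y) ↔ (blow H).Adj x y := by
  show cpm π x ≠ cpm π y ∧ (x.1 = y.1 ∨ H.Adj x.1 y.1) ↔ x ≠ y ∧ (x.1 = y.1 ∨ H.Adj x.1 y.1)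
  rw [(cpm π).injective.ne_iff]

theorem mem_blow (H : SimpleGraph (Fin r)) (π : Fin r → Equiv.Perm (Fin 2 → ZMod 2))
    (e : Sym2 (Fin r × (Fin 2 → ZMod 2))) :
    edPerm (cpm π) e ∈ (blow H).edgeSet ↔ e ∈ (blow H).edgeSet := by
  induction e using Sym2.ind with
  | _ x y =>
    rw [edPerm_mk, SimpleGraph.mem_edgeSet, SimpleGraph.mem_edgeSet, blow_cpm]

/-- The action of permutations of the copies on the edges of the blow-up. -/
def epm (H : SimpleGraph (Fin r)) (π : Fin r → Equiv.Perm (Fin 2 → ZMod 2)) :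
    Equiv.Perm (blow H).edgeSet :=
  (edPerm (cpm π)).subtypePerm (mem_blow H π)

theorem epm_val (H : SimpleGraph (Fin r)) (π : Fin r → Equiv.Perm (Fin 2 → ZMod 2))
    (e : (blow H).edgeSet) : (epm H π e).1 = edPerm (cpm π) e.1 := rfl

theorem epm_symm_val (H : SimpleGraph (Fin r)) (π : Fin r → Equiv.Perm (Fin 2 → ZMod 2))
    (e : (blow H).edgeSet) : ((epm H π).symm e).1 = (edPerm (cpm π)).symm e.1 := rfl

theorem epm_mul (H : SimpleGraph (Fin r)) (π π' : Fin r → Equiv.Perm (Fin 2 → ZMod 2)) :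
    epm H (π * π') = epm H π * epm H π' := by
  ext e
  rw [Equiv.Perm.mul_apply, epm_val, epm_val, epm_val, cpm_mul, edPerm_mul]
  rfl

/-- The input vector of a subgraph of the blow-up: one bit for each edge of the blow-up. -/
noncomputable def bvec (H : SimpleGraph (Fin r)) (G : SimpleGraph (Fin r × (Fin 2 → ZMod 2))) :
    (blow H).edgeSet → ℝ := ind {e | e.1 ∈ G.edgeSet}

/-- All even permutations of the four copies of every vertex extend to automorphisms of the
program. -/
def EvenSym {H : SimpleGraph (Fin r)} {D : Type} [Fintype D] [DecidableEq D]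
    (P : SDP (blow H).edgeSet D) : Prop :=
  ∀ π : Fin r → Equiv.Perm (Fin 2 → ZMod 2), (∀ i, Equiv.Perm.sign (π i) = 1) →
    ∃ O, P.IsAut (epm H π) O

end blow

section perms

/-- a translation of the four copies -/
def trE (v : Fin 2 → ZMod 2) : Equiv.Perm (Fin 2 → ZMod 2) := Equiv.addRight v

/-- a rotation of the four copies -/
def rtE (a : Fin 3) : Equiv.Perm (Fin 2 → ZMod 2) where
  toFun := rt (-a)
  invFun := rt a
  left_inv := by
    revert a
    unfold rt Function.LeftInverse
    decide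
  right_inv := by
    revert a
    unfold rt Function.RightInverse Function.LeftInverse
    decide

theorem trE_sign (v : Fin 2 → ZMod 2) : Equiv.Perm.sign (trE v) = 1 := by
  revert v
  decide +kernel

theorem rtE_sign (a : Fin 3) : Equiv.Perm.sign (rtE a) = 1 := by
  revert a
  decide +kernel

/-- the translations of all copies -/
def trA2 {r : ℕ} (γ : Fin r × Fin 2 → ZMod 2) : Fin r → Equiv.Perm (Fin 2 → ZMod 2) :=
  fun i => trE fun k => γ (i, k)

theorem trA2_add {r : ℕ} (γ γ' : Fin r × Fin 2 → ZMod 2) :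
    trA2 (γ + γ') = trA2 γ * trA2 γ' := by
  ext i v k
  show v k + (γ (i, k) + γ' (i, k)) = v k + γ' (i, k) + γ (i, k)
  ring

theorem trA2_rot {r : ℕ} (e : Fin r → Fin 3) (γ : Fin r × Fin 2 → ZMod 2) :
    trA2 γ * (fun i => rtE (e i)) = (fun i => rtE (e i)) * trA2 (rtB e γ) := by
  funext i
  apply Equiv.ext
  intro v
  show rt (-(e i)) v + (fun k => γ (i, k)) =
    rt (-(e i)) (v + rt (e i) (fun k => γ (i, k)))
  have h : ∀ (a : Fin 3) (v u : Fin 2 → ZMod 2), rt (-a) v + u = rt (-a) (v + rt a u) := by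
    unfold rt
    decide
  exact h _ _ _

theorem cpm_tp {r : ℕ} (γ : Fin r × Fin 2 → ZMod 2) :
    cpm (trA2 γ) = tp (Function.Embedding.refl _) γ := by
  apply Equiv.ext
  intro x
  exact (tp_apply (Function.Embedding.refl _) γ x).symm

end perms

section templ

variable {V : Type} [Fintype V] [DecidableEq V] {r : ℕ}

/-- Two constraints are adjacent if there are inconsistent partial solutions. -/
def tmpl (T : Fin r × Fin 3 → V) : SimpleGraph (Fin r) where
  Adj i j := i ≠ j ∧ ∃ (c : Fin r × Fin 3 → ZMod 2) (x y : Fin r × (Fin 2 → ZMod 2)),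
    x.1 = i ∧ y.1 = j ∧ ¬ Cons lam3 g1 s1 T c x y
  symm := by
    constructor
    rintro i j ⟨h1, c, x, y, h2, h3, h4⟩
    exact ⟨h1.symm, c, y, x, h3, h2, fun h => h4 h.symm⟩
  loopless := ⟨fun _ h => h.1 rfl⟩

theorem hg_le (T : Fin r × Fin 3 → V) (c : Fin r × Fin 3 → ZMod 2) :
    hg (Function.Embedding.refl _) lam3 g1 s1 T c ≤ blow (tmpl T) := by
  rintro u w ⟨x, y, rfl, rfl, h1, h2⟩
  refine ⟨h1, ?_⟩
  by_cases hxy : x.1 = y.1
  · exact Or.inl hxy
  · exact Or.inr ⟨hxy, c, x, y, rfl, rfl, h2.resolve_left hxy⟩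

open Classical in
/-- The blow-up has few edges. -/
theorem blow_edges (T : Fin r × Fin 3 → V) :
    (blow (tmpl T)).edgeSet.ncard ≤ 16 * r + 32 * coin T := by
  set P1 := univ.filter fun π : (Fin r × Fin 3) × (Fin r × Fin 3) =>
    π.1 ≠ π.2 ∧ T π.1 = T π.2 with hP1
  set P2 := univ.filter fun π : (Fin r × Fin 3) × (Fin r × Fin 3) =>
      π.1 ≠ π.2 ∧ π.1.1 = π.2.1 ∧ T π.1 = T π.2 with hP2
  have hcoin : coin T = P1.card + r * P2.card := by
    unfold coin
    rw [hP1, hP2]
  let Q1 : Finset (Fin r × Fin r) := univ.image fun i => (i, i)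
  let Q2 : Finset (Fin r × Fin r) := P1.image fun π => (π.1.1, π.2.1)
  let Q3 : Finset (Fin r × Fin r) := (P2 ×ˢ univ).image fun π => (π.1.1.1, π.2)
  let Q4 : Finset (Fin r × Fin r) := (P2 ×ˢ univ).image fun π => (π.2, π.1.1.1)
  let Q : Finset (Fin r × Fin r) := (Q1 ∪ Q2) ∪ (Q3 ∪ Q4)
  have hQ : Q.card ≤ r + P1.card + (r * P2.card + r * P2.card) := by
    refine (Finset.card_union_le _ _).trans (Nat.add_le_add
      ((Finset.card_union_le _ _).trans (Nat.add_le_add ?_ Finset.card_image_le))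
      ((Finset.card_union_le _ _).trans (Nat.add_le_add ?_ ?_)))
    · refine Finset.card_image_le.trans (le_of_eq ?_)
      rw [Finset.card_univ, Fintype.card_fin]
    · refine Finset.card_image_le.trans (le_of_eq ?_)
      rw [Finset.card_product, Finset.card_univ, Fintype.card_fin, mul_comm]
    · refine Finset.card_image_le.trans (le_of_eq ?_)
      rw [Finset.card_product, Finset.card_univ, Fintype.card_fin, mul_comm]
  let F : Finset (Sym2 (Fin r × (Fin 2 → ZMod 2))) :=
    (Q ×ˢ (univ : Finset ((Fin 2 → ZMod 2) × (Fin 2 → ZMod 2)))).image fun p =>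
      s((p.1.1, p.2.1), (p.1.2, p.2.2))
  have hF : F.card ≤ Q.card * 16 := by
    refine Finset.card_image_le.trans (le_of_eq ?_)
    rw [Finset.card_product, Finset.card_univ, Fintype.card_prod, Fintype.card_fun, ZMod.card,
      Fintype.card_fin]
    norm_num
  have hsub : (blow (tmpl T)).edgeSet ⊆ ↑F := by
    intro e he
    induction e using Sym2.ind with
    | _ x0 y0 =>
      obtain ⟨h1, h2⟩ := (SimpleGraph.mem_edgeSet _).1 he
      rw [Finset.mem_coe, Finset.mem_image]
      refine ⟨((x0.1, y0.1), (x0.2, y0.2)), ?_, rfl⟩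
      rw [Finset.mem_product]
      refine ⟨?_, Finset.mem_univ _⟩
      show (x0.1, y0.1) ∈ (Q1 ∪ Q2) ∪ (Q3 ∪ Q4)
      rcases h2 with hxy | ⟨hxy', c, x, y, hx, hy, h3⟩
      · refine Finset.mem_union_left _ (Finset.mem_union_left _ ?_)
        rw [Finset.mem_image]
        exact ⟨x0.1, Finset.mem_univ _, by rw [← hxy]⟩
      · rw [← hx, ← hy]
        have hxy : ¬ x.1 = y.1 := by
          rw [hx, hy]
          exact hxy'
        unfold Cons at h3
        rw [not_forall] at h3
        obtain ⟨o, h3⟩ := h3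
        rw [not_forall] at h3
        obtain ⟨o', h3⟩ := h3
        rw [Classical.not_imp] at h3
        obtain ⟨h4, h5⟩ := h3
        have hpne : pos s1 x.1 y.1 o ≠ pos s1 x.1 y.1 o' := by
          intro h6
          apply h5
          have h7 : o = o' := by
            obtain ⟨b, s, l⟩ := o
            obtain ⟨b', s', l'⟩ := o'
            have e1 : cond b x.1 y.1 = cond b' x.1 y.1 := congrArg Prod.fst h6
            have e2 : l = l' := congrArg Prod.snd h6
            have e3 : b = b' := by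
              cases b <;> cases b'
              · rfl
              · exact absurd e1 (Ne.symm hxy)
              · exact absurd e1 hxy
              · rfl
            rw [e2, e3, Subsingleton.elim s s']
          rw [h7]
        obtain ⟨b, s, l⟩ := o
        obtain ⟨b', s', l'⟩ := o'
        cases b <;> cases b'
        · refine Finset.mem_union_right _ (Finset.mem_union_right _ ?_)
          rw [Finset.mem_image]
          refine ⟨(((y.1, l), (y.1, l')), x.1), ?_, rfl⟩
          rw [Finset.mem_product, hP2, Finset.mem_filter]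
          exact ⟨⟨Finset.mem_univ _, hpne, rfl, h4⟩, Finset.mem_univ _⟩
        · refine Finset.mem_union_left _ (Finset.mem_union_right _ ?_)
          rw [Finset.mem_image]
          refine ⟨((x.1, l'), (y.1, l)), ?_, rfl⟩
          rw [hP1, Finset.mem_filter]
          exact ⟨Finset.mem_univ _, Ne.symm hpne, h4.symm⟩
        · refine Finset.mem_union_left _ (Finset.mem_union_right _ ?_)
          rw [Finset.mem_image]
          refine ⟨((x.1, l), (y.1, l')), ?_, rfl⟩
          rw [hP1, Finset.mem_filter]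
          exact ⟨Finset.mem_univ _, hpne, h4⟩
        · refine Finset.mem_union_right _ (Finset.mem_union_left _ ?_)
          rw [Finset.mem_image]
          refine ⟨(((x.1, l), (x.1, l')), y.1), ?_, rfl⟩
          rw [Finset.mem_product, hP2, Finset.mem_filter]
          exact ⟨⟨Finset.mem_univ _, hpne, rfl, h4⟩, Finset.mem_univ _⟩
  have h1 : (blow (tmpl T)).edgeSet.ncard ≤ F.card := by
    rw [← Set.ncard_coe_finset]
    exact Set.ncard_le_ncard hsub (Finset.finite_toSet F)
  have h2 : Q.card * 16 ≤ 16 * r + 32 * coin T := by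
    rw [hcoin]
    have h3 := Nat.mul_le_mul_right 16 hQ
    refine h3.trans ?_
    nlinarith [Nat.zero_le P1.card]
  exact h1.trans (hF.trans h2)

/-- **No small symmetric program sees the constants.** -/
theorem templ_transfer {T : Fin r × Fin 3 → V} {s u : ℕ} (hs : 2 ≤ s)
    (h : GoodU lam3 T s (4 * u)) {D : Type} [Fintype D] [DecidableEq D]
    (P : SDP (blow (tmpl T)).edgeSet D) (hP : EvenSym P) (hD : Fintype.card D ≤ 2 ^ u)
    (c c' : Fin r × Fin 3 → ZMod 2)
    (hacc : P.Acc (bvec (tmpl T) (hg (Function.Embedding.refl _) lam3 g1 s1 T c))) :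
    P.Acc (bvec (tmpl T) (hg (Function.Embedding.refl _) lam3 g1 s1 T c')) := by
  refine h.transfer hs P (fun γ => epm (tmpl T) (trA2 γ)) (fun γ γ' => ?_)
    (fun γ => hP _ fun i => trE_sign _) (fun e => ?_) hD
    (fun c => {e | e.1 ∈ (hg (Function.Embedding.refl _) lam3 g1 s1 T c).edgeSet})
    (fun c y i => ?_) (fun i => ?_) c c' hacc
  · rw [trA2_add, epm_mul]
  · obtain ⟨O, hO⟩ := hP (fun i => rtE (e i)) fun i => rtE_sign _
    refine ⟨_, O, hO, fun γ => ?_⟩
    rw [← epm_mul, ← epm_mul, trA2_rot]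
  · have h1 := hg_sym (lam := lam3) (Function.Embedding.refl _) g1_inj s1 T c y i.1
    rw [← cpm_tp] at h1
    exact h1
  · obtain ⟨Xs, h1, h2⟩ := hg_local (Function.Embedding.refl _) lam3 g1 s1 T 2 (by norm_num) i.1
    exact ⟨Xs, h1, fun c d hd => h2 c d hd⟩

end templ

/-- **A universal pair of graphs.** -/
theorem vc_univ (ε : ℝ) (hε : 0 < ε) : ∃ C : ℕ, 0 < C ∧ ∀ r : ℕ, C ≤ r →
    ∃ H : SimpleGraph (Fin r), (blow H).edgeSet.ncard ≤ C * r ∧
    ∃ G₀ G₁ : SimpleGraph (Fin r × (Fin 2 → ZMod 2)), G₀ ≤ blow H ∧ G₁ ≤ blow H ∧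
      SmallVC G₀ (3 * r) ∧ LargeVC G₁ ((7 / 2 - ε) * r) ∧
      ∀ (D : Type) [Fintype D] [DecidableEq D] (P : SDP (blow H).edgeSet D), EvenSym P →
        Fintype.card D ≤ 2 ^ (r / C) → (P.Acc (bvec H G₀) ↔ P.Acc (bvec H G₁)) := by
  obtain ⟨C, hC0, hC⟩ := quad_univ ε hε
  refine ⟨16 + 32 * C, by omega, fun r hr => ?_⟩
  obtain ⟨n, T, c, s, h1, h2, h3, h4⟩ := hC r (by omega)
  refine ⟨tmpl T, ?_, hg (Function.Embedding.refl _) lam3 g1 s1 T 0,
    hg (Function.Embedding.refl _) lam3 g1 s1 T c, hg_le T 0, hg_le T c, small_cover _ T,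
    large_cover _ T c ε hε (by omega) h2, fun D _ _ P hP hD => ?_⟩
  · refine (blow_edges T).trans ?_
    calc 16 * r + 32 * coin T ≤ 16 * r + 32 * (C * r) := by omega
      _ = (16 + 32 * C) * r := by ring
  · have h5 : r / (16 + 32 * C) ≤ r / C := Nat.div_le_div_left (by omega) hC0
    have h6 : Fintype.card D ≤ 2 ^ (r / C) :=
      hD.trans (Nat.pow_le_pow_right (by norm_num) h5)
    exact ⟨templ_transfer h3 h4 P hP h6 0 c, templ_transfer h3 h4 P hP h6 c 0⟩

end Pool.Agent.H550R2.Cl
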