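import Pool.Agent.H550R2.Cl.CharK

set_option autoImplicit false
set_option linter.unusedSectionVars false

/-! A universal pair of graphs for the clique number. -/

namespace Pool.Agent.H550R2.Cl

open Finset Matrix Pool.Agent.H550R2.Lift

section kk

variable {k t a b : ℕ} {L V : Type} [Fintype L] [DecidableEq L] [Fintype V] [DecidableEq V]

/-- the constraints of the blocks outside `M` -/
def BM (t : ℕ) (M : Finset (Fin k)) : Finset (Fin k × Fin t) := univ.filter fun x => x.1 ∉ M

theorem mem_BM (M : Finset (Fin k)) (x : Fin k × Fin t) : x ∈ BM t M ↔ x.1 ∉ M := by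
  unfold BM
  rw [Finset.mem_filter]
  exact ⟨fun h => h.2, fun h => ⟨Finset.mem_univ _, h⟩⟩

/-- the blocks that a functional touches -/
def tbE (q : (Fin k × Fin t) × Fin a → ZMod 2) : Finset (Fin k) :=
  univ.filter fun i => ∃ s κ, q ((i, s), κ) ≠ 0

theorem mem_tbE (q : (Fin k × Fin t) × Fin a → ZMod 2) (i : Fin k) :
    i ∈ tbE q ↔ ∃ s κ, q ((i, s), κ) ≠ 0 := by
  unfold tbE
  rw [Finset.mem_filter]
  exact ⟨fun h => h.2, fun h => ⟨Finset.mem_univ _, h⟩⟩

/-- each block holds its own constraints -/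
def sgm : Fin k → Fin t → Fin k × Fin t := fun i s => (i, s)

theorem tpd_sgm (g : Fin t × Fin a → Fin b) (p : Fin k × Fin b → ZMod 2) (i : Fin k) (s : Fin t)
    (κ : Fin a) : tpd g sgm p ((i, s), κ) = p (i, g (s, κ)) := by
  unfold tpd
  rw [Finset.sum_eq_single i]
  · rw [Finset.sum_eq_single s]
    · exact if_pos rfl
    · intro s' _ hs
      exact if_neg fun h => hs (congrArg Prod.snd h)
    · intro h
      exact absurd (Finset.mem_univ _) h
  · intro i' _ hi
    apply Finset.sum_eq_zero
    intro s' _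
    exact if_neg fun h => hi (congrArg Prod.fst h)
  · intro h
    exact absurd (Finset.mem_univ _) h

/-- The system is good. -/
structure GoodK (lam : L → Fin a → ZMod 2) (T : (Fin k × Fin t) × L → V) (s j : ℕ) : Prop where
  inj : Inj lam T s
  gap : ∀ w, push T w = 0 → (tbE (ev lam w)).card ≤ j → s < (tch w).card →
    (tch w).card ≤ 2 * s → False

theorem tbE_le {M : Finset (Fin k)} {g : Fin t × Fin a → Fin b}
    {q : (Fin k × Fin t) × Fin a → ZMod 2} {p p' : Fin k × Fin b → ZMod 2}
    (h : rB (BM t M) q = rB (BM t M) (tpd g sgm (p + p'))) :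
    (tbE q).card ≤ M.card + ((tbM M p).card + (tbM M p').card) := by
  have hsub : tbE q ⊆ M ∪ (tbM M p ∪ tbM M p') := by
    intro i hi
    rw [mem_tbE] at hi
    obtain ⟨s, κ, hq⟩ := hi
    rw [Finset.mem_union, Finset.mem_union, mem_tbM, mem_tbM]
    by_cases hM : i ∈ M
    · exact Or.inl hM
    · right
      have h1 := congrFun h ((i, s), κ)
      have h2 : rB (BM t M) q ((i, s), κ) = q ((i, s), κ) := if_pos ((mem_BM M _).2 hM)
      have h3 : rB (BM t M) (tpd g sgm (p + p')) ((i, s), κ) =
          tpd g sgm (p + p') ((i, s), κ) := if_pos ((mem_BM M _).2 hM)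
      rw [h2, h3, tpd_sgm, Pi.add_apply] at h1
      rw [h1] at hq
      by_cases h4 : p (i, g (s, κ)) = 0
      · right
        refine ⟨hM, g (s, κ), ?_⟩
        intro h5
        rw [h4, h5, add_zero] at hq
        exact hq rfl
      · left
        exact ⟨hM, g (s, κ), h4⟩
  exact (Finset.card_le_card hsub).trans ((Finset.card_union_le _ _).trans
    (Nat.add_le_add_left (Finset.card_union_le _ _) _))

theorem tbE_le0 {M : Finset (Fin k)} {q : (Fin k × Fin t) × Fin a → ZMod 2}
    (h : rB (BM t M) q = 0) : (tbE q).card ≤ M.card := by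
  apply Finset.card_le_card
  intro i hi
  rw [mem_tbE] at hi
  obtain ⟨s, κ, hq⟩ := hi
  by_contra hM
  exact hq (rB_zero_apply h ((mem_BM M (i, s)).2 hM))

theorem rK_tau (M : Finset (Fin k)) (g : Fin t × Fin a → Fin b)
    (y : (Fin k × Fin t) × Fin a → ZMod 2) :
    rK M (tau g sgm y) = tau g sgm (rB (BM t M) y) := by
  ext x
  show (if x.1 ∈ M then 0 else tau g sgm y x) = tau g sgm (rB (BM t M) y) x
  unfold tau
  by_cases hx : x.1 ∈ M
  · rw [if_pos hx]
    symm
    apply Finset.sum_eq_zero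
    intro p _
    have h1 : rB (BM t M) y (sgm x.1 p.1, p.2) = 0 :=
      if_neg (fun h => (mem_BM M (sgm x.1 p.1)).1 h hx)
    rw [h1, ite_self]
  · rw [if_neg hx]
    apply Finset.sum_congr rfl
    intro p _
    have h1 : rB (BM t M) y (sgm x.1 p.1, p.2) = y (sgm x.1 p.1, p.2) :=
      if_pos ((mem_BM M (sgm x.1 p.1)).2 hx)
    rw [h1]

variable {D : Type} [Fintype D] [DecidableEq D]

/-- **No small symmetric program sees the constants.** -/
theorem GoodK.transfer {lam : L → Fin a → ZMod 2} {T : (Fin k × Fin t) × L → V} {s j : ℕ}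
    (hG : GoodK lam T s j) {g : Fin t × Fin a → Fin b} (hg : Function.Injective g)
    (hst : 2 * t ≤ s) {M : Finset (Fin k)} {P : SDP (Sym2 (Fin k × (Fin b → ZMod 2))) D}
    (hP : SymK M P) (hj : ∀ p q, IsChar P (actK M) p → IsChar P (actK M) q →
      M.card + ((tbM M p).card + (tbM M q).card) ≤ j)
    (c c' : (Fin k × Fin t) × L → ZMod 2) (hO : OkB lam T s (BM t M) (c + c'))
    (hacc : P.Acc (ind (cg (Function.Embedding.refl _) lam g sgm T c).edgeSet)) :
    P.Acc (ind (cg (Function.Embedding.refl _) lam g sgm T c').edgeSet) := by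
  refine loc_transferC P (actK M) (actK_add M) (BM t M) hP.act lam (tau g sgm) (tpd g sgm)
    (pr_tau g sgm) (tpd_add g sgm) T s c c' hO ?_
    (fun c => (cg (Function.Embedding.refl _) lam g sgm T c).edgeSet) ?_
    (cg_local (Function.Embedding.refl _) lam g sgm T s hst) hacc
  · intro p q hp hq w h1 h2 h3 h4
    exact hG.gap w h1 ((tbE_le h2).trans (hj p q hp hq)) h3 h4
  · intro c y i
    have h1 := cg_sym (lam := lam) (Function.Embedding.refl _) hg sgm T c (rB (BM t M) y) i
    have h2 : actK M (tau g sgm y) =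
        edPerm (tp (Function.Embedding.refl _) (tau g sgm (rB (BM t M) y))) := by
      unfold actK
      rw [rK_tau, trk_tp]
    rw [h2]
    exact h1

/-- the shift of the free bits given by a translation of the blocks -/
def bits (g : Fin t × Fin a → Fin b) (γ : Fin k × Fin b → ZMod 2) :
    (Fin k × Fin t) × Fin a → ZMod 2 := fun x => γ (x.1.1, g (x.1.2, x.2))

theorem bits_tau {g : Fin t × Fin a → Fin b} (hg : Function.Injective g)
    (y : (Fin k × Fin t) × Fin a → ZMod 2) : bits g (tau g sgm y) = y := by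
  ext x
  exact tau_apply hg sgm y x.1.1 x.1.2 x.2

/-- Translating a graph. -/
theorem cg_comap {lam : L → Fin a → ZMod 2} {T : (Fin k × Fin t) × L → V}
    {g : Fin t × Fin a → Fin b} (hg : Function.Injective g) (c : (Fin k × Fin t) × L → ZMod 2)
    (γ : Fin k × Fin b → ZMod 2) :
    (cg (Function.Embedding.refl _) lam g sgm T c).comap (trk γ) =
      cg (Function.Embedding.refl _) lam g sgm T (c + dlt lam (bits g γ)) := by
  ext u w
  rw [← cg_shift (Function.Embedding.refl _) hg sgm T c (bits g γ) u w]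
  show (cg (Function.Embedding.refl _) lam g sgm T c).Adj (trk γ u) (trk γ w) ↔ _
  have h1 : ∀ x : Fin k × (Fin b → ZMod 2), ∀ s l,
      loc lam g (trk γ x).2 s l =
      loc lam g (tp (Function.Embedding.refl _) (tau g sgm (bits g γ)) x).2 s l := by
    intro x s l
    unfold loc
    congr 1
    ext κ
    have h2 : tp (Function.Embedding.refl _) (tau g sgm (bits g γ)) x =
        sh (tau g sgm (bits g γ)) x :=
      tp_apply (Function.Embedding.refl _) (tau g sgm (bits g γ)) x
    rw [h2]
    show x.2 (g (s, κ)) + γ (x.1, g (s, κ)) = x.2 (g (s, κ)) +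
      tau g sgm (bits g γ) (x.1, g (s, κ))
    rw [tau_apply hg]
    rfl
  have h3 : ∀ x : Fin k × (Fin b → ZMod 2),
      (tp (Function.Embedding.refl _) (tau g sgm (bits g γ)) x).1 = x.1 := by
    intro x
    have h2 : tp (Function.Embedding.refl _) (tau g sgm (bits g γ)) x =
        sh (tau g sgm (bits g γ)) x :=
      tp_apply (Function.Embedding.refl _) (tau g sgm (bits g γ)) x
    rw [h2]
    rfl
  have h4 := cg_adj (Function.Embedding.refl _) lam g sgm T c (trk γ u) (trk γ w)
  have h5 := cg_adj (Function.Embedding.refl _) lam g sgm T c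
    (tp (Function.Embedding.refl _) (tau g sgm (bits g γ)) u)
    (tp (Function.Embedding.refl _) (tau g sgm (bits g γ)) w)
  refine h4.trans (Iff.trans ?_ h5.symm)
  have h6 : (trk γ u).1 = (tp (Function.Embedding.refl _) (tau g sgm (bits g γ)) u).1 := by
    rw [h3]
    rfl
  have h7 : (trk γ w).1 = (tp (Function.Embedding.refl _) (tau g sgm (bits g γ)) w).1 := by
    rw [h3]
    rfl
  have hpos : ∀ o : Bool × Fin t × L, pos sgm (trk γ u).1 (trk γ w).1 o =
      pos sgm (tp (Function.Embedding.refl _) (tau g sgm (bits g γ)) u).1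
        (tp (Function.Embedding.refl _) (tau g sgm (bits g γ)) w).1 o := by
    intro o
    rw [h6, h7]
  have hvl : ∀ o : Bool × Fin t × L, vl lam g sgm c (trk γ u) (trk γ w) o =
      vl lam g sgm c (tp (Function.Embedding.refl _) (tau g sgm (bits g γ)) u)
        (tp (Function.Embedding.refl _) (tau g sgm (bits g γ)) w) o := by
    intro o
    unfold vl
    rw [hpos]
    congr 1
    obtain ⟨bb, s, l⟩ := o
    cases bb
    · exact h1 w s l
    · exact h1 u s l
  rw [h6, h7]
  apply and_congr_right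
  intro _
  unfold Cons
  constructor
  · intro h o o' hoo
    rw [← hpos, ← hpos] at hoo
    rw [← hvl, ← hvl]
    exact h o o' hoo
  · intro h o o' hoo
    rw [hpos, hpos] at hoo
    rw [hvl, hvl]
    exact h o o' hoo

theorem dlt_add (lam : L → Fin a → ZMod 2) (y y' : (Fin k × Fin t) × Fin a → ZMod 2) :
    dlt lam (y + y') = dlt lam y + dlt lam y' := by
  ext x
  show pr (lam x.2) ((fun k => y (x.1, k)) + fun k => y' (x.1, k)) = _
  rw [pr_add_right]
  rfl

end kk

section count

variable {k t a : ℕ}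

/-- The number of functionals that touch few blocks. -/
theorem card_tbE (j : ℕ) :
    (univ.filter fun q : (Fin k × Fin t) × Fin a → ZMod 2 => (tbE q).card ≤ j).card ≤
      2 ^ k * 2 ^ (t * a * j) := by
  classical
  let G : Finset (Fin k) → Finset ((Fin k × Fin t) × Fin a → ZMod 2) := fun J =>
    univ.filter fun q => tbE q ⊆ J
  have hG : ∀ J : Finset (Fin k), (G J).card ≤ 2 ^ (t * a * J.card) := by
    intro J
    have h1 : (G J).card ≤ (univ : Finset ({i // i ∈ J} × (Fin t × Fin a) → ZMod 2)).card := by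
      apply Finset.card_le_card_of_injOn
        (fun q x => q ((x.1.1, x.2.1), x.2.2)) (fun _ _ => Finset.mem_univ _)
      intro q hq q' hq' h
      ext x
      obtain ⟨⟨i, s⟩, κ⟩ := x
      by_cases hi : i ∈ J
      · exact congrFun h (⟨i, hi⟩, (s, κ))
      · have h2 : ∀ q'' ∈ G J, q'' ((i, s), κ) = 0 := by
          intro q'' hq''
          by_contra hne
          exact hi ((Finset.mem_filter.1 hq'').2 ((mem_tbE q'' i).2 ⟨s, κ, hne⟩))
        rw [h2 q hq, h2 q' hq']
    refine h1.trans (le_of_eq ?_)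
    rw [Finset.card_univ, Fintype.card_fun, ZMod.card, Fintype.card_prod, Fintype.card_prod,
      Fintype.card_coe, Fintype.card_fin, Fintype.card_fin, mul_comm]
  have hsub : (univ.filter fun q : (Fin k × Fin t) × Fin a → ZMod 2 => (tbE q).card ≤ j) ⊆
      (univ.filter fun J : Finset (Fin k) => J.card ≤ j).biUnion G := by
    intro q hq
    rw [Finset.mem_biUnion]
    exact ⟨tbE q, Finset.mem_filter.2 ⟨Finset.mem_univ _, (Finset.mem_filter.1 hq).2⟩,
      Finset.mem_filter.2 ⟨Finset.mem_univ _, Finset.Subset.refl _⟩⟩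
  calc (univ.filter fun q : (Fin k × Fin t) × Fin a → ZMod 2 => (tbE q).card ≤ j).card
      ≤ ((univ.filter fun J : Finset (Fin k) => J.card ≤ j).biUnion G).card :=
        Finset.card_le_card hsub
    _ ≤ ∑ J ∈ univ.filter fun J : Finset (Fin k) => J.card ≤ j, (G J).card :=
        Finset.card_biUnion_le
    _ ≤ ∑ _J ∈ univ.filter fun J : Finset (Fin k) => J.card ≤ j, 2 ^ (t * a * j) := by
        apply Finset.sum_le_sum
        intro J hJ
        refine (hG J).trans (Nat.pow_le_pow_right (by norm_num) ?_)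
        exact Nat.mul_le_mul_left _ (Finset.mem_filter.1 hJ).2
    _ = (univ.filter fun J : Finset (Fin k) => J.card ≤ j).card * 2 ^ (t * a * j) := by
        rw [Finset.sum_const, smul_eq_mul]
    _ ≤ 2 ^ k * 2 ^ (t * a * j) := by
        apply Nat.mul_le_mul_right
        refine (Finset.card_filter_le _ _).trans (le_of_eq ?_)
        rw [Finset.card_univ, Fintype.card_finset, Fintype.card_fin]

variable {L V : Type} [Fintype L] [DecidableEq L] [Fintype V] [DecidableEq V]

open Classical in
/-- **Few systems are bad.** -/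
theorem badK_le {lam : L → Fin a → ZMod 2} {s : ℕ}
    (hF : Few lam (fun T : (Fin k × Fin t) × L → V => T) s) (j : ℕ)
    (hj : k + t * a * j ≤ 5 * s) :
    ((univ.filter fun T : (Fin k × Fin t) × L → V => ¬ GoodK lam T s j).card : ℝ) ≤
      4 / 31 * Fintype.card ((Fin k × Fin t) × L → V) := by
  set N : ℝ := (Fintype.card ((Fin k × Fin t) × L → V) : ℝ) with hN
  have hN0 : 0 ≤ N := Nat.cast_nonneg _
  set Q : Finset ((Fin k × Fin t) × Fin a → ZMod 2) := univ.filter fun q => (tbE q).card ≤ j
    with hQ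
  let bad : ℕ → ((Fin k × Fin t) × Fin a → ZMod 2) → Finset ((Fin k × Fin t) × L → V) :=
    fun s1 q => univ.filter fun T => ∃ w, push T w = 0 ∧ ev lam w = q ∧ s1 < (tch w).card ∧
      (tch w).card ≤ 2 * s
  have hbad : ∀ s1 q, ((bad s1 q).card : ℝ) ≤
      2 * ((1 / 32) ^ (s1 + 1) / (1 - 1 / 32)) * N := fun s1 q => hF s1 q
  have hsub : (univ.filter fun T : (Fin k × Fin t) × L → V => ¬ GoodK lam T s j) ⊆
      (Q.biUnion fun q => bad s q) ∪ bad 0 0 := by
    intro θ hT
    rw [Finset.mem_filter] at hT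
    by_contra hn
    rw [Finset.mem_union, not_or] at hn
    apply hT.2
    refine ⟨inj_of_low ?_, ?_⟩
    · intro w h1 h2 h3 h4
      exact hn.2 (Finset.mem_filter.2 ⟨Finset.mem_univ _, w, h1, h2, h3, h4⟩)
    · intro w h1 h2 h3 h4
      apply hn.1
      rw [Finset.mem_biUnion]
      exact ⟨ev lam w, Finset.mem_filter.2 ⟨Finset.mem_univ _, h2⟩,
        Finset.mem_filter.2 ⟨Finset.mem_univ _, w, h1, rfl, h3, h4⟩⟩
  have hε0 : (0 : ℝ) ≤ 2 * ((1 / 32) ^ (s + 1) / (1 - 1 / 32)) := by
    apply mul_nonneg (by norm_num)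
    apply div_nonneg (by positivity) (by norm_num)
  have hQc : (Q.card : ℝ) ≤ 32 ^ s := by
    have h1 : Q.card ≤ 2 ^ (5 * s) := by
      refine (card_tbE j).trans ?_
      rw [← pow_add]
      exact Nat.pow_le_pow_right (by norm_num) hj
    have h2 : (Q.card : ℝ) ≤ 2 ^ (5 * s) := by exact_mod_cast h1
    rw [pow_mul] at h2
    norm_num at h2
    exact h2
  have hpow : (32 : ℝ) ^ s * (2 * ((1 / 32) ^ (s + 1) / (1 - 1 / 32))) ≤ 2 / 31 := by
    have h1 : (32 : ℝ) ^ s * (2 * ((1 / 32) ^ (s + 1) / (1 - 1 / 32))) =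
        2 / 31 * (32 * (1 / 32)) ^ s := by
      rw [mul_pow, pow_succ]
      ring
    rw [h1]
    norm_num
  calc ((univ.filter fun T : (Fin k × Fin t) × L → V => ¬ GoodK lam T s j).card : ℝ)
      ≤ (((Q.biUnion fun q => bad s q) ∪ bad 0 0).card : ℝ) := by
        exact_mod_cast Finset.card_le_card hsub
    _ ≤ ((Q.biUnion fun q => bad s q).card : ℝ) + ((bad 0 0).card : ℝ) := by
        exact_mod_cast Finset.card_union_le _ _
    _ ≤ ∑ q ∈ Q, ((bad s q).card : ℝ) + ((bad 0 0).card : ℝ) := by
        refine add_le_add ?_ le_rfl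
        exact_mod_cast Finset.card_biUnion_le
    _ ≤ ∑ _q ∈ Q, 2 * ((1 / 32) ^ (s + 1) / (1 - 1 / 32)) * N +
          2 * ((1 / 32) ^ (0 + 1) / (1 - 1 / 32)) * N :=
        add_le_add (Finset.sum_le_sum fun q _ => hbad s q) (hbad 0 0)
    _ = ((Q.card : ℝ) * (2 * ((1 / 32) ^ (s + 1) / (1 - 1 / 32)))) * N + 2 / 31 * N := by
        rw [Finset.sum_const, nsmul_eq_mul]
        norm_num
        ring
    _ ≤ (32 ^ s * (2 * ((1 / 32) ^ (s + 1) / (1 - 1 / 32)))) * N + 2 / 31 * N := by
        refine add_le_add ?_ le_rfl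
        apply mul_le_mul_of_nonneg_right _ hN0
        exact mul_le_mul_of_nonneg_right hQc hε0
    _ ≤ 2 / 31 * N + 2 / 31 * N := by
        refine add_le_add ?_ le_rfl
        exact mul_le_mul_of_nonneg_right hpow hN0
    _ = _ := by ring

end count

/-- **A universal pair of graphs for the clique number.** -/
theorem clique_univ (ε : ℝ) (hε : 0 < ε) : ∃ C : ℕ, 0 < C ∧ ∀ k b : ℕ, C ≤ k → C ≤ b →
    ∃ G₀ G₁ : SimpleGraph (Fin k × (Fin b → ZMod 2)), k ≤ G₀.cliqueNum ∧
      (G₁.cliqueNum : ℝ) ≤ ε * k ∧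
      ∀ M : Finset (Fin k), M.card ≤ k / C → ∃ y : Fin k × Fin b → ZMod 2,
        (∀ x, x.1 ∉ M → y x = 0) ∧ ∀ (γ : Fin k × Fin b → ZMod 2) (D : Type) [Fintype D]
          [DecidableEq D] (P : SDP (Sym2 (Fin k × (Fin b → ZMod 2))) D), SymK M P →
          Fintype.card D ≤ 2 ^ (k * b / C) →
          (P.Acc (ind (G₀.comap (trk γ)).edgeSet) ↔
            P.Acc (ind (G₁.comap (trk (γ + y))).edgeSet)) := by
  classical
  obtain ⟨a, ha3, haε⟩ : ∃ a : ℕ, 3 ≤ a ∧ 4 / ε ≤ a :=
    ⟨max 3 ⌈4 / ε⌉₊, le_max_left _ _, (Nat.le_ceil _).trans (by exact_mod_cast le_max_right _ _)⟩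
  have hKa := two_pow_ge a ha3
  set K : ℕ := 2 ^ a - 1 with hK
  have hKa' : a + 1 ≤ K - a := by omega
  have hKε : 4 ≤ ((K - a : ℕ) : ℝ) * ε := by
    have h1 : (a : ℝ) ≤ ((K - a : ℕ) : ℝ) := by
      exact_mod_cast (by omega : a ≤ K - a)
    have h2 : 4 / ε ≤ ((K - a : ℕ) : ℝ) := haε.trans h1
    rwa [div_le_iff₀ hε] at h2
  obtain ⟨C0, hC0⟩ : ∃ C0 : ℕ, C0 = 1354752 * 4 ^ K * 1 ^ 2 := ⟨_, rfl⟩
  have hC0pos : 0 < C0 := by
    rw [hC0]
    positivity
  obtain ⟨e0, he0⟩ := exists_nat_ge (1 / ε)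
  obtain ⟨C, hC⟩ : ∃ C : ℕ, C = 100 * a * C0 + e0 := ⟨_, rfl⟩
  have haC0 : 1 ≤ a * C0 := Nat.one_le_iff_ne_zero.2 (Nat.mul_ne_zero (by omega) (by omega))
  have haC0' : C0 ≤ a * C0 := Nat.le_mul_of_pos_left _ (by omega)
  have haC0'' : a ≤ a * C0 := Nat.le_mul_of_pos_right _ hC0pos
  have hC1 : 100 * (a * C0) ≤ C := by
    rw [hC, mul_assoc]
    exact Nat.le_add_right _ _
  refine ⟨C, by omega, fun k b hk hb => ?_⟩
  have hk4 : 4 * C0 ≤ k := by omega
  have hba : a ≤ b := by omega
  have hk0 : 0 < k := by omega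
  obtain ⟨t, ht⟩ : ∃ t, t = b / a := ⟨_, rfl⟩
  have hta : t * a ≤ b := by
    rw [ht]
    exact Nat.div_mul_le_self b a
  have ht1 : 1 ≤ t := by
    rw [ht, Nat.le_div_iff_mul_le (by omega), one_mul]
    exact hba
  have htC : C0 ≤ t := by
    rw [ht, Nat.le_div_iff_mul_le (by omega)]
    have h1 : C0 * a = a * C0 := mul_comm _ _
    omega
  obtain ⟨s, hs⟩ : ∃ s, s = k * t / (2 * C0) := ⟨_, rfl⟩
  have hs1 : C0 * (2 * s) ≤ k * t := by
    have := Nat.div_mul_le_self (k * t) (2 * C0)
    rw [← hs] at this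
    calc C0 * (2 * s) = s * (2 * C0) := by ring
      _ ≤ k * t := this
  have hst : 2 * t ≤ s := by
    rw [hs, Nat.le_div_iff_mul_le (by omega)]
    calc 2 * t * (2 * C0) = (4 * C0) * t := by ring
      _ ≤ k * t := Nat.mul_le_mul_right t hk4
  have hs2 : k * t ≤ 4 * C0 * s := by
    have h1 : k * t < 2 * C0 * (k * t / (2 * C0) + 1) := Nat.lt_mul_div_succ _ (by omega)
    rw [← hs] at h1
    have h2 : 2 * C0 * (s + 1) ≤ 2 * C0 * (2 * s) := by
      apply Nat.mul_le_mul_left
      omega
    have h3 : 2 * C0 * (2 * s) = 4 * C0 * s := by ring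
    omega
  obtain ⟨u, hu⟩ : ∃ u, u = k * b / C := ⟨_, rfl⟩
  obtain ⟨j, hj⟩ : ∃ j, j = 9 * k / C := ⟨_, rfl⟩
  have hks : k ≤ 4 * s := by
    have h1 : k * C0 ≤ k * t := Nat.mul_le_mul_left k htC
    have h2 : C0 * k ≤ C0 * (4 * s) := by
      calc C0 * k = k * C0 := mul_comm _ _
        _ ≤ k * t := h1
        _ ≤ 4 * C0 * s := hs2
        _ = C0 * (4 * s) := by ring
    exact Nat.le_of_mul_le_mul_left h2 hC0pos
  have hjs : k + t * a * j ≤ 5 * s := by
    have h1 : C * j ≤ 9 * k := by
      rw [hj]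
      exact Nat.mul_div_le _ _
    have h2 : 100 * (a * C0) * j ≤ 9 * k := (Nat.mul_le_mul_right j hC1).trans h1
    have h3 : t * a * j ≤ s := by
      have h4 : (36 * C0) * (t * a * j) ≤ (36 * C0) * s := by
        calc (36 * C0) * (t * a * j) ≤ t * (100 * (a * C0) * j) := by
              have : t * (100 * (a * C0) * j) = 100 * (C0 * (t * a * j)) := by ring
              rw [this]
              have h5 : 36 * C0 * (t * a * j) = 36 * (C0 * (t * a * j)) := by ring
              rw [h5]
              exact Nat.mul_le_mul_right _ (by norm_num)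
          _ ≤ t * (9 * k) := Nat.mul_le_mul_left t h2
          _ = 9 * (k * t) := by ring
          _ ≤ 9 * (4 * C0 * s) := Nat.mul_le_mul_left 9 hs2
          _ = (36 * C0) * s := by ring
      exact Nat.le_of_mul_le_mul_left h4 (by omega)
    omega
  -- the embedding of the free bits
  let g : Fin t × Fin a → Fin b := fun p => Fin.castLE hta (finProdFinEquiv p)
  have hg : Function.Injective g := by
    intro p q h
    exact finProdFinEquiv.injective (Fin.castLE_injective hta h)
  have hcardV : Fintype.card (Fin (k * t)) = k * t := Fintype.card_fin _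
  have hkt0 : 0 < k * t := Nat.mul_pos hk0 ht1
  have hF : Few (lamP a) (fun T : (Fin k × Fin t) × Pos a → Fin (k * t) => T) s := by
    apply few_all (lamP_ne a) (lamP_inj a) (by rw [hcardV]; exact hkt0) s 1 (le_refl 1)
    · rw [Fintype.card_prod, Fintype.card_fin, Fintype.card_fin, hcardV, one_mul]
    · rw [card_Pos, hcardV, ← hK, ← hC0]
      exact hs1
  have hbad := badK_le hF j hjs
  have hne : Nonempty (Fin (k * t)) := ⟨⟨0, hkt0⟩⟩
  obtain ⟨T, hT⟩ : ∃ T : (Fin k × Fin t) × Pos a → Fin (k * t), GoodK (lamP a) T s j := by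
    by_contra hno
    rw [not_exists] at hno
    have h1 : (univ.filter fun T : (Fin k × Fin t) × Pos a → Fin (k * t) =>
        ¬ GoodK (lamP a) T s j) = univ := Finset.filter_true_of_mem fun T _ => hno T
    rw [h1, Finset.card_univ] at hbad
    have h2 : (0 : ℝ) < Fintype.card ((Fin k × Fin t) × Pos a → Fin (k * t)) := by
      exact_mod_cast Fintype.card_pos
    linarith
  -- the constants
  obtain ⟨s0, hs0⟩ : ∃ s0, s0 = ⌊ε * k⌋₊ + 1 := ⟨_, rfl⟩
  have hεk : 1 ≤ ε * k := by
    have h1 : (e0 : ℝ) ≤ k := by exact_mod_cast (by omega : e0 ≤ k)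
    have h2 : 1 / ε ≤ k := he0.trans h1
    rw [div_le_iff₀ hε] at h2
    linarith
  have hs0' : ε * k < s0 := by
    rw [hs0]
    push_cast
    exact Nat.lt_floor_add_one _
  have hs01 : 1 < s0 := by
    have : (1 : ℝ) < s0 := lt_of_le_of_lt hεk hs0'
    exact_mod_cast this
  have hbig : 4 * k ≤ (K - a) * s0 := by
    have h1 : (4 : ℝ) * k ≤ ((K - a : ℕ) : ℝ) * s0 := by
      calc (4 : ℝ) * k ≤ (((K - a : ℕ) : ℝ) * ε) * k :=
            mul_le_mul_of_nonneg_right hKε (Nat.cast_nonneg _)
        _ = ((K - a : ℕ) : ℝ) * (ε * k) := by ring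
        _ ≤ _ := mul_le_mul_of_nonneg_left hs0'.le (Nat.cast_nonneg _)
    exact_mod_cast h1
  obtain ⟨f, hf⟩ := sample (X := Fin (k * t) → ZMod 2) (Y := Fin t × Pos a → ZMod 2)
    (B := Fin k) s0
    (fun i x y => PtB (lamP a) (fun z : Fin t × Pos a => x (T ((i, z.1), z.2))) y)
    (((2 ^ a) ^ t : ℕ) / (2 ^ (t * K) : ℕ))
    (by
      intro i x
      have h1 := card_points (lamP a) (fun z : Fin t × Pos a => x (T ((i, z.1), z.2)))
      have h2 : Fintype.card (Fin t × Pos a → ZMod 2) = 2 ^ (t * K) := by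
        rw [Fintype.card_fun, ZMod.card, Fintype.card_prod, Fintype.card_fin, card_Pos]
      rw [h2, div_mul_cancel₀ _ (by positivity)]
      exact Nat.cast_le.2 h1)
    (by
      rw [Fintype.card_fun, ZMod.card, Fintype.card_fin, Fintype.card_fin, div_pow,
        ← mul_div_assoc, div_lt_one (by positivity)]
      have h1 : (k.choose s0) ≤ 2 ^ k := Nat.choose_le_two_pow k s0
      have h2 : 2 ^ (k * t) * k.choose s0 * ((2 ^ a) ^ t) ^ s0 < (2 ^ (t * K)) ^ s0 := by
        calc 2 ^ (k * t) * k.choose s0 * ((2 ^ a) ^ t) ^ s0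
            ≤ 2 ^ (k * t) * 2 ^ k * ((2 ^ a) ^ t) ^ s0 :=
              Nat.mul_le_mul_right _ (Nat.mul_le_mul_left _ h1)
          _ = 2 ^ (k * t + k + a * t * s0) := by
              rw [← pow_mul, ← pow_mul, ← pow_add, ← pow_add, mul_assoc a t s0]
          _ < 2 ^ (t * K * s0) := by
              apply Nat.pow_lt_pow_right (by norm_num)
              have h3 : t * (4 * k) ≤ t * ((K - a) * s0) := Nat.mul_le_mul_left t hbig
              have h4 : t * K * s0 = t * ((K - a) * s0) + a * t * s0 := by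
                have h5 : K = (K - a) + a := by omega
                calc t * K * s0 = t * ((K - a) + a) * s0 := by rw [← h5]
                  _ = _ := by ring
              have h6 : k ≤ k * t := Nat.le_mul_of_pos_right _ ht1
              have h7 : t * (4 * k) = 4 * (k * t) := by ring
              omega
          _ = (2 ^ (t * K)) ^ s0 := by rw [← pow_mul]
      exact_mod_cast h2)
  let c : (Fin k × Fin t) × Pos a → ZMod 2 := fun x => f x.1.1 (x.1.2, x.2)
  refine ⟨cg (Function.Embedding.refl _) (lamP a) g sgm T 0,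
    cg (Function.Embedding.refl _) (lamP a) g sgm T c, ?_, ?_, fun M hM => ?_⟩
  · have := clique_zero (Function.Embedding.refl _) (lamP a) g (sgm (k := k) (t := t)) T
    rw [Fintype.card_fin] at this
    exact this
  · have h1 : (cg (Function.Embedding.refl _) (lamP a) g sgm T c).cliqueNum < s0 := by
      apply cliqueNum_le hs01
      intro x
      refine lt_of_le_of_lt (Finset.card_le_card ?_) (hf x)
      intro i hi
      exact Finset.mem_filter.2 ⟨Finset.mem_univ _, (Finset.mem_filter.1 hi).2⟩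
    have h2 : (cg (Function.Embedding.refl _) (lamP a) g sgm T c).cliqueNum ≤ ⌊ε * k⌋₊ := by
      omega
    exact (Nat.le_floor_iff (by positivity)).1 h2
  · have hMC : C * M.card ≤ k := by
      have := Nat.mul_le_mul_left C hM
      exact this.trans (Nat.mul_div_le k C)
    have hMj : M.card ≤ j := by
      rw [hj, Nat.le_div_iff_mul_le (by omega), mul_comm]
      omega
    obtain ⟨y, hy1, hy2⟩ := exists_shift (B := BM t M) hT.inj
      (fun w h1 h2 h3 h4 => hT.gap w h1 ((tbE_le0 h2).trans hMj) h3 h4) c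
    refine ⟨tau g sgm y, ?_, ?_⟩
    · intro x hx
      unfold tau
      apply Finset.sum_eq_zero
      intro p _
      have h1 : y (sgm x.1 p.1, p.2) = 0 :=
        rB_zero_apply (x := (sgm x.1 p.1, p.2)) hy1 ((mem_BM M (sgm x.1 p.1)).2 hx)
      rw [h1, ite_self]
    · intro γ D _ _ P hP hD
      have hchar : ∀ p, IsChar P (actK M) p → C * (tbM M p).card ≤ 4 * k := by
        intro p hp
        have h1 := char_few (by omega) hP hp hD
        have h2 : C * (k * b / C) ≤ k * b := Nat.mul_div_le _ _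
        have h3 : (b - 1) * (C * (tbM M p).card) ≤ (b - 1) * (4 * k) := by
          calc (b - 1) * (C * (tbM M p).card) = C * ((b - 1) * (tbM M p).card) := by ring
            _ ≤ C * (2 * (k * b / C)) := Nat.mul_le_mul_left C h1
            _ = 2 * (C * (k * b / C)) := by ring
            _ ≤ 2 * (k * b) := Nat.mul_le_mul_left 2 h2
            _ ≤ (b - 1) * (4 * k) := by
                have h4 : b ≤ 2 * (b - 1) := by omega
                calc 2 * (k * b) ≤ 2 * (k * (2 * (b - 1))) :=
                      Nat.mul_le_mul_left 2 (Nat.mul_le_mul_left k h4)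
                  _ = (b - 1) * (4 * k) := by ring
        exact Nat.le_of_mul_le_mul_left h3 (by omega)
      have hj2 : ∀ p q, IsChar P (actK M) p → IsChar P (actK M) q →
          M.card + ((tbM M p).card + (tbM M q).card) ≤ j := by
        intro p q hp hq
        rw [hj, Nat.le_div_iff_mul_le (by omega), mul_comm]
        have h1 := hchar p hp
        have h2 := hchar q hq
        calc C * (M.card + ((tbM M p).card + (tbM M q).card)) =
              C * M.card + (C * (tbM M p).card + C * (tbM M q).card) := by ring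
          _ ≤ k + (4 * k + 4 * k) := Nat.add_le_add hMC (Nat.add_le_add h1 h2)
          _ = 9 * k := by ring
      rw [cg_comap hg, cg_comap hg, zero_add]
      have hbits : bits g (γ + tau g sgm y) = bits g γ + y := by
        have h1 : bits g (γ + tau g sgm y) = bits g γ + bits g (tau g sgm y) := rfl
        rw [h1, bits_tau hg]
      have h1 : dlt (lamP a) (bits g γ) + (c + dlt (lamP a) (bits g γ + y)) =
          c + dlt (lamP a) y := by
        rw [dlt_add]
        ext x
        simp only [Pi.add_apply]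
        have := CharTwo.add_self_eq_zero (dlt (lamP a) (bits g γ) x)
        linear_combination this
      rw [hbits]
      have hO : OkB (lamP a) T s (BM t M)
          (dlt (lamP a) (bits g γ) + (c + dlt (lamP a) (bits g γ + y))) := by
        rw [h1]
        exact hy2
      have hO' : OkB (lamP a) T s (BM t M)
          ((c + dlt (lamP a) (bits g γ + y)) + dlt (lamP a) (bits g γ)) := by
        rw [add_comm]
        exact hO
      exact ⟨fun h => hT.transfer hg hst hP hj2 _ _ hO h,
        fun h => hT.transfer hg hst hP hj2 _ _ hO' h⟩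

end Pool.Agent.H550R2.Cl
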